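import Pool.Agent.H44.DG.Targets2

/-! Assembly of the `1 : 2` side. -/

namespace Pool.Agent.H44.DG

theorem two_of (hTF : T_TF) (hTC : T_TC)
    (hTD : ∀ d m : ℕ, ∃ M : ℕ, ∀ n : ℕ, 3 ≤ n →
      (∀ D : Drawing (Fin n), Q2 d m D → Wins 1 2 .spoiler NotHam (.spoiler, 2) D) →
      ∀ D : Drawing (Fin n), Q1 d M D → Wins 1 2 .spoiler NotHam (.spoiler, 2) D)
    (hTE : T_TE) : T_TWO := by
  obtain ⟨M, hM⟩ := hTD 3 (3 * (3 * (3 * 0 + 20) + 20) + 20)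
  obtain ⟨N, hN⟩ := hTE M
  refine ⟨max N 3, fun n hn t => hN n (le_trans (le_max_left _ _) hn) (hM n (le_trans (le_max_right _ _) hn) ?_) t⟩
  have h3 : 3 ≤ n := le_trans (le_max_right _ _) hn
  refine hTC n 2 _ h3 (hTC n 1 _ h3 (hTC n 0 _ h3 ?_))
  intro D hD
  exact hTF n 0 D h3 hD .spoiler 1

end Pool.Agent.H44.DG
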