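import Pool.Agent.H44.DG.Model

/-! Basic facts on boundary walks: darts, corners, and how a move changes them. -/

namespace Pool.Agent.H44.DG

variable {V : Type*}

/-- consecutive pairs of a list -/
def prs : List V → List (V × V)
  | x :: y :: l => (x, y) :: prs (y :: l)
  | [_] => []
  | [] => []

@[simp] lemma prs_nil : prs ([] : List V) = [] := rfl
@[simp] lemma prs_single (x : V) : prs [x] = [] := rfl
@[simp] lemma prs_cons_cons (x y : V) (l : List V) : prs (x :: y :: l) = (x, y) :: prs (y :: l) := rfl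

lemma prs_append (A : List V) (x : V) (B : List V) :
    prs (A ++ x :: B) = prs (A ++ [x]) ++ prs (x :: B) := by
  induction A with
  | nil => simp
  | cons a A ih =>
    cases A with
    | nil => simp
    | cons b A => simpa using ih

lemma mem_prs {x y : V} {L : List V} : (x, y) ∈ prs L ↔ ∃ A B, L = A ++ x :: y :: B := by
  constructor
  · intro h
    induction L with
    | nil => simp at h
    | cons a L ih =>
      cases L with
      | nil => simp at h
      | cons b L =>
        rw [prs_cons_cons, List.mem_cons] at h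
        rcases h with h | h
        · simp only [Prod.mk.injEq] at h
          exact ⟨[], L, by simp [h.1, h.2]⟩
        · obtain ⟨A, B, hAB⟩ := ih h
          exact ⟨a :: A, B, by rw [hAB]; rfl⟩
  · rintro ⟨A, B, rfl⟩
    rw [prs_append]
    simp

/-- closed consecutive pairs of the cyclic list given by a list -/
def cprs : List V → List (V × V)
  | [] => []
  | [_] => []
  | x :: y :: l => prs (x :: y :: (l ++ [x]))

@[simp] lemma cprs_nil : cprs ([] : List V) = [] := rfl
@[simp] lemma cprs_single (x : V) : cprs [x] = [] := rfl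
lemma cprs_cons_cons (x y : V) (l : List V) : cprs (x :: y :: l) = prs (x :: y :: (l ++ [x])) := rfl

/-- `(x, y)` is a dart (directed edge) of the walk `w`. -/
def IsDart (w : Cycle V) (x y : V) : Prop := ∃ l : List V, w = ↑(x :: y :: l)

lemma coe_rot (A B : List V) : (↑(A ++ B) : Cycle V) = ↑(B ++ A) :=
  Cycle.coe_eq_coe.2 (List.isRotated_append)

lemma cprs_perm_rotate_one (a : V) (t : List V) : (cprs (a :: t)).Perm (cprs (t ++ [a])) := by
  cases t with
  | nil => simp
  | cons b s =>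
    cases s with
    | nil => simp [cprs_cons_cons]; exact List.Perm.swap _ _ _
    | cons c s =>
      rw [cprs_cons_cons]
      show ((a, b) :: prs (b :: c :: s ++ [a])).Perm (cprs (b :: c :: (s ++ [a])))
      rw [cprs_cons_cons]
      have : b :: c :: (s ++ [a] ++ [b]) = (b :: c :: s) ++ a :: [b] := by simp
      rw [this, prs_append (b :: c :: s) a [b]]
      show ((a, b) :: prs (b :: c :: s ++ [a])).Perm (prs (b :: c :: s ++ [a]) ++ [(a, b)])
      exact (List.perm_append_singleton _ _).symm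

lemma cprs_perm_of_isRotated {L L' : List V} (h : L ~r L') : (cprs L).Perm (cprs L') := by
  obtain ⟨n, rfl⟩ := h
  induction n generalizing L with
  | zero => simp
  | succ n ih =>
    cases L with
    | nil => simp
    | cons a t =>
      rw [List.rotate_cons_succ]
      exact (cprs_perm_rotate_one a t).trans ih

lemma isDart_coe {L : List V} {x y : V} : IsDart (↑L : Cycle V) x y ↔ (x, y) ∈ cprs L := by
  constructor
  · rintro ⟨l, hl⟩
    have h := Cycle.coe_eq_coe.1 hl
    rw [(cprs_perm_of_isRotated h).mem_iff, cprs_cons_cons]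
    simp
  · intro h
    rcases L with _ | ⟨a, _ | ⟨b, L⟩⟩
    · simp at h
    · simp at h
    · rw [cprs_cons_cons, mem_prs] at h
      obtain ⟨A, B, hAB⟩ := h
      rcases List.eq_nil_or_concat B with rfl | ⟨B', c, rfl⟩
      · have h1 : (a :: b :: L) ++ [a] = (A ++ [x]) ++ [y] := by simpa using hAB
        obtain ⟨h2, h3⟩ := List.append_inj' h1 rfl
        simp only [List.cons.injEq, and_true] at h3
        rcases A with _ | ⟨a', A⟩
        · simp at h2
        · simp only [List.cons_append, List.cons.injEq] at h2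
          refine ⟨A, ?_⟩
          rw [← h3, h2.1, h2.2]
          exact coe_rot (a' :: A) [x]
      · have h1 : (a :: b :: L) ++ [a] = (A ++ x :: y :: B') ++ [c] := by simpa using hAB
        obtain ⟨h2, h3⟩ := List.append_inj' h1 rfl
        refine ⟨B' ++ A, ?_⟩
        rw [h2, coe_rot]
        simp

/-- `x` and `y` are consecutive corners of some boundary walk of the regions `F`. -/
def Adj (F : Multiset (Region V)) (x y : V) : Prop := ∃ Φ ∈ F, ∃ w ∈ Φ, IsDart w x y ∨ IsDart w y x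

/-- `x` is a corner of the regions `F`. -/
def InR (F : Multiset (Region V)) (x : V) : Prop := ∃ Φ ∈ F, ∃ w ∈ Φ, x ∈ w

lemma Adj.symm {F : Multiset (Region V)} {x y : V} (h : Adj F x y) : Adj F y x := by
  obtain ⟨Φ, hΦ, w, hw, h⟩ := h
  exact ⟨Φ, hΦ, w, hw, h.symm⟩

lemma IsDart.mem_left {w : Cycle V} {x y : V} (h : IsDart w x y) : x ∈ w := by
  obtain ⟨l, rfl⟩ := h
  simp

lemma IsDart.mem_right {w : Cycle V} {x y : V} (h : IsDart w x y) : y ∈ w := by
  obtain ⟨l, rfl⟩ := h
  simp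

lemma Adj.left {F : Multiset (Region V)} {x y : V} (h : Adj F x y) : InR F x := by
  obtain ⟨Φ, hΦ, w, hw, h⟩ := h
  exact ⟨Φ, hΦ, w, hw, h.elim IsDart.mem_left IsDart.mem_right⟩

lemma Adj.right {F : Multiset (Region V)} {x y : V} (h : Adj F x y) : InR F y := h.symm.left

@[simp] lemma adj_zero (x y : V) : ¬ Adj (0 : Multiset (Region V)) x y := by
  rintro ⟨Φ, hΦ, _⟩; simp at hΦ

@[simp] lemma inR_zero (x : V) : ¬ InR (0 : Multiset (Region V)) x := by
  rintro ⟨Φ, hΦ, _⟩; simp at hΦ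

lemma adj_add {F G : Multiset (Region V)} {x y : V} : Adj (F + G) x y ↔ Adj F x y ∨ Adj G x y := by
  constructor
  · rintro ⟨Φ, hΦ, h⟩
    rcases Multiset.mem_add.1 hΦ with h' | h'
    · exact Or.inl ⟨Φ, h', h⟩
    · exact Or.inr ⟨Φ, h', h⟩
  · rintro (⟨Φ, hΦ, h⟩ | ⟨Φ, hΦ, h⟩)
    · exact ⟨Φ, Multiset.mem_add.2 (Or.inl hΦ), h⟩
    · exact ⟨Φ, Multiset.mem_add.2 (Or.inr hΦ), h⟩

lemma inR_add {F G : Multiset (Region V)} {x : V} : InR (F + G) x ↔ InR F x ∨ InR G x := by
  constructor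
  · rintro ⟨Φ, hΦ, h⟩
    rcases Multiset.mem_add.1 hΦ with h' | h'
    · exact Or.inl ⟨Φ, h', h⟩
    · exact Or.inr ⟨Φ, h', h⟩
  · rintro (⟨Φ, hΦ, h⟩ | ⟨Φ, hΦ, h⟩)
    · exact ⟨Φ, Multiset.mem_add.2 (Or.inl hΦ), h⟩
    · exact ⟨Φ, Multiset.mem_add.2 (Or.inr hΦ), h⟩

lemma adj_cons {Φ : Region V} {G : Multiset (Region V)} {x y : V} :
    Adj (Φ ::ₘ G) x y ↔ Adj {Φ} x y ∨ Adj G x y := by
  rw [← Multiset.singleton_add, adj_add]

lemma inR_cons {Φ : Region V} {G : Multiset (Region V)} {x : V} :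
    InR (Φ ::ₘ G) x ↔ InR {Φ} x ∨ InR G x := by
  rw [← Multiset.singleton_add, inR_add]

lemma adj_sing {Φ : Region V} {x y : V} : Adj {Φ} x y ↔ ∃ w ∈ Φ, IsDart w x y ∨ IsDart w y x := by
  simp [Adj]

lemma inR_sing {Φ : Region V} {x : V} : InR {Φ} x ↔ ∃ w ∈ Φ, x ∈ w := by
  simp [InR]

lemma prs_snoc2 (A : List V) (v u : V) : prs (A ++ [v, u]) = prs (A ++ [v]) ++ [(v, u)] := by
  rw [show A ++ [v, u] = A ++ v :: [u] from rfl, prs_append]
  simp

lemma mem_cprs_join {u v : V} {l m : List V} {x y : V} :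
    (x, y) ∈ cprs (joinWalk u l v m) ↔
      (x, y) ∈ cprs (u :: l) ∨ (x, y) ∈ cprs (v :: m) ∨ (x = u ∧ y = v) ∨ (x = v ∧ y = u) := by
  unfold joinWalk
  rw [cprs_cons_cons]
  rcases l with _ | ⟨a, l⟩ <;> rcases m with _ | ⟨b, m⟩
  · simp
  · have h : u :: v :: (b :: m ++ ((if (b :: m) = [] then [] else [v]) ++ (if ([] : List V) = [] then [] else [u])) ++ [u])
        = u :: ((v :: b :: m) ++ [v, u]) := by simp
    rw [h, cprs_cons_cons]
    show (x, y) ∈ (u, v) :: prs ((v :: b :: m) ++ [v, u]) ↔ _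
    rw [prs_snoc2]
    show _ ↔ _ ∨ (x, y) ∈ prs ((v :: b :: m) ++ [v]) ∨ _
    simp only [List.mem_cons, List.mem_append, Prod.mk.injEq, cprs_single, List.not_mem_nil, or_false, false_or]
    tauto
  · have h : u :: v :: ([] ++ ((if ([] : List V) = [] then [] else [v]) ++ (if (a :: l) = [] then [] else u :: a :: l)) ++ [u])
        = u :: v :: (u :: a :: l ++ [u]) := by simp
    rw [h, cprs_cons_cons]
    show (x, y) ∈ (u, v) :: (v, u) :: prs (u :: a :: l ++ [u]) ↔ (x, y) ∈ prs (u :: a :: l ++ [u]) ∨ _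
    simp only [List.mem_cons, Prod.mk.injEq, cprs_single, List.not_mem_nil, false_or]
    tauto
  · have h : u :: v :: (b :: m ++ ((if (b :: m) = [] then [] else [v]) ++ (if (a :: l) = [] then [] else u :: a :: l)) ++ [u])
        = u :: ((v :: b :: m ++ [v]) ++ u :: (a :: l ++ [u])) := by simp
    rw [h]
    show (x, y) ∈ (u, v) :: prs ((v :: b :: m ++ [v]) ++ u :: (a :: l ++ [u])) ↔ _
    rw [prs_append, show (v :: b :: m ++ [v]) ++ [u] = (v :: b :: m) ++ [v, u] by simp, prs_snoc2]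
    show _ ↔ (x, y) ∈ prs (u :: (a :: l ++ [u])) ∨ (x, y) ∈ prs ((v :: b :: m) ++ [v]) ∨ _
    simp only [List.mem_cons, List.mem_append, Prod.mk.injEq, List.not_mem_nil, or_false]
    tauto

lemma mem_cprs_split {u v : V} {l m : List V} {x y : V} :
    ((x, y) ∈ cprs (u :: (l ++ [v])) ∨ (x, y) ∈ cprs (v :: (m ++ [u]))) ↔
      (x, y) ∈ cprs (u :: (l ++ v :: m)) ∨ (x = u ∧ y = v) ∨ (x = v ∧ y = u) := by
  have e1 : cprs (u :: (l ++ [v])) = prs (u :: (l ++ [v])) ++ [(v, u)] := by
    have : ∀ (t : List V), cprs (u :: (t ++ [v])) = prs (u :: (t ++ [v]) ++ [u]) := by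
      intro t; cases t <;> simp [cprs_cons_cons]
    rw [this, show u :: (l ++ [v]) ++ [u] = (u :: l) ++ v :: [u] by simp, prs_append]
    simp
  have e2 : cprs (v :: (m ++ [u])) = prs (v :: (m ++ [u])) ++ [(u, v)] := by
    have : ∀ (t : List V), cprs (v :: (t ++ [u])) = prs (v :: (t ++ [u]) ++ [v]) := by
      intro t; cases t <;> simp [cprs_cons_cons]
    rw [this, show v :: (m ++ [u]) ++ [v] = (v :: m) ++ u :: [v] by simp, prs_append]
    simp
  have e3 : cprs (u :: (l ++ v :: m)) = prs (u :: (l ++ [v])) ++ prs (v :: (m ++ [u])) := by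
    have : ∀ (t : List V), cprs (u :: (t ++ v :: m)) = prs (u :: (t ++ v :: m) ++ [u]) := by
      intro t; cases t <;> simp [cprs_cons_cons]
    rw [this, show u :: (l ++ v :: m) ++ [u] = (u :: l) ++ v :: (m ++ [u]) by simp, prs_append]
    simp
  rw [e1, e2, e3]
  simp only [List.mem_append, List.mem_singleton, Prod.mk.injEq]
  tauto

lemma joinWalk_mem {u v x : V} {l m : List V} :
    x ∈ joinWalk u l v m ↔ x ∈ u :: l ∨ x ∈ v :: m := by
  unfold joinWalk
  split_ifs with h1 h2 h2 <;> simp_all <;> tauto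

/-- A move creates exactly the two darts of the new edge. -/
lemma RegionMove.dart {u v : V} {Φ : Region V} {Ψ : Multiset (Region V)} (h : RegionMove u v Φ Ψ) (x y : V) :
    (∃ Φ' ∈ Ψ, ∃ w ∈ Φ', IsDart w x y) ↔ (∃ w ∈ Φ, IsDart w x y) ∨ (x = u ∧ y = v) ∨ (x = v ∧ y = u) := by
  cases h with
  | join l m R =>
    simp only [Multiset.mem_singleton, exists_eq_left, Multiset.mem_cons, exists_eq_or_imp, isDart_coe,
      mem_cprs_join]
    generalize (∃ a ∈ R, IsDart a x y) = P
    tauto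
  | split l m R₁ R₂ =>
    have := @mem_cprs_split V u v l m x y
    simp only [Multiset.insert_eq_cons, Multiset.mem_singleton, Multiset.mem_cons, exists_eq_or_imp,
      exists_eq_left, isDart_coe, Multiset.mem_add]
    constructor
    · rintro ((h | ⟨w, hw, hd⟩) | (h | ⟨w, hw, hd⟩))
      · rcases this.1 (Or.inl h) with h | h
        · exact Or.inl (Or.inl h)
        · exact Or.inr h
      · exact Or.inl (Or.inr ⟨w, Or.inl hw, hd⟩)
      · rcases this.1 (Or.inr h) with h | h
        · exact Or.inl (Or.inl h)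
        · exact Or.inr h
      · exact Or.inl (Or.inr ⟨w, Or.inr hw, hd⟩)
    · rintro ((h | ⟨w, hw | hw, hd⟩) | h)
      · rcases this.2 (Or.inl h) with h | h
        · exact Or.inl (Or.inl h)
        · exact Or.inr (Or.inl h)
      · exact Or.inl (Or.inr ⟨w, hw, hd⟩)
      · exact Or.inr (Or.inr ⟨w, hw, hd⟩)
      · rcases this.2 (Or.inr h) with h | h
        · exact Or.inl (Or.inl h)
        · exact Or.inr (Or.inl h)

/-- A move does not change the set of corners. -/
lemma RegionMove.corner {u v : V} {Φ : Region V} {Ψ : Multiset (Region V)} (h : RegionMove u v Φ Ψ) (x : V) :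
    InR Ψ x ↔ InR {Φ} x := by
  rw [inR_sing]
  cases h with
  | join l m R =>
    simp only [InR, Multiset.mem_singleton, exists_eq_left, Multiset.mem_cons, exists_eq_or_imp,
      Cycle.mem_coe_iff, joinWalk_mem]
    tauto
  | split l m R₁ R₂ =>
    simp only [InR, Multiset.insert_eq_cons, Multiset.mem_singleton, Multiset.mem_cons, exists_eq_or_imp,
      exists_eq_left, Cycle.mem_coe_iff, Multiset.mem_add, List.mem_cons, List.mem_append, List.mem_singleton]
    constructor
    · rintro ((h | ⟨w, hw, hd⟩) | (h | ⟨w, hw, hd⟩))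
      · left; tauto
      · exact Or.inr ⟨w, Or.inl hw, hd⟩
      · left; tauto
      · exact Or.inr ⟨w, Or.inr hw, hd⟩
    · rintro (h | ⟨w, hw | hw, hd⟩)
      · by_cases h1 : x = u ∨ x ∈ l ∨ x = v
        · left; left; tauto
        · right; left; tauto
      · exact Or.inl (Or.inr ⟨w, hw, hd⟩)
      · exact Or.inr (Or.inr ⟨w, hw, hd⟩)

lemma RegionMove.adj {u v : V} {Φ : Region V} {Ψ : Multiset (Region V)} (h : RegionMove u v Φ Ψ) (x y : V) :
    Adj Ψ x y ↔ Adj {Φ} x y ∨ (x = u ∧ y = v) ∨ (x = v ∧ y = u) := by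
  have h1 := h.dart x y
  have h2 := h.dart y x
  rw [adj_sing]
  constructor
  · rintro ⟨Φ', hΦ', w, hw, hd | hd⟩
    · rcases h1.1 ⟨Φ', hΦ', w, hw, hd⟩ with ⟨w', hw', hd'⟩ | h
      · exact Or.inl ⟨w', hw', Or.inl hd'⟩
      · exact Or.inr h
    · rcases h2.1 ⟨Φ', hΦ', w, hw, hd⟩ with ⟨w', hw', hd'⟩ | h
      · exact Or.inl ⟨w', hw', Or.inr hd'⟩
      · right; tauto
  · rintro (⟨w, hw, hd | hd⟩ | h)
    · obtain ⟨Φ', hΦ', w', hw', hd'⟩ := h1.2 (Or.inl ⟨w, hw, hd⟩)
      exact ⟨Φ', hΦ', w', hw', Or.inl hd'⟩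
    · obtain ⟨Φ', hΦ', w', hw', hd'⟩ := h2.2 (Or.inl ⟨w, hw, hd⟩)
      exact ⟨Φ', hΦ', w', hw', Or.inr hd'⟩
    · obtain ⟨Φ', hΦ', w', hw', hd'⟩ := h1.2 (Or.inr h)
      exact ⟨Φ', hΦ', w', hw', Or.inl hd'⟩

/-- A local step: a legal edge is drawn inside one of the regions `F`, legality being judged by the adjacencies
visible in `F`. -/
def LStep (F F' : Multiset (Region V)) : Prop :=
  ∃ u v : V, u ≠ v ∧ ¬ Adj F u v ∧ ∃ (Φ : Region V) (Ψ G : Multiset (Region V)),
    F = Φ ::ₘ G ∧ F' = Ψ + G ∧ RegionMove u v Φ Ψ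

lemma LStep.corner {F F' : Multiset (Region V)} (h : LStep F F') (x : V) : InR F' x ↔ InR F x := by
  obtain ⟨u, v, _, _, Φ, Ψ, G, rfl, rfl, hm⟩ := h
  rw [inR_add, inR_cons, hm.corner]

lemma LStep.adj {F F' : Multiset (Region V)} (h : LStep F F') {x y : V} (hxy : Adj F x y) : Adj F' x y := by
  obtain ⟨u, v, _, _, Φ, Ψ, G, rfl, rfl, hm⟩ := h
  rw [adj_cons] at hxy
  rw [adj_add, hm.adj]
  tauto

/-- A family of regions is self-contained if any two distinct vertices of it that also occur elsewhere are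
already adjacent in it.  This is the situation of the regions inside a triangle. -/
def Loc (T W : V → Prop) (F : Multiset (Region V)) : Prop :=
  (∀ x, InR F x → T x ∨ W x) ∧ ∀ x y, T x → T y → x ≠ y → Adj F x y

lemma LStep.loc {T W : V → Prop} {F F' : Multiset (Region V)} (h : LStep F F') (hl : Loc T W F) : Loc T W F' :=
  ⟨fun x hx => hl.1 x ((h.corner x).1 hx), fun x y hx hy hxy => h.adj (hl.2 x y hx hy hxy)⟩

/-- A step in a self-contained part is a step of the whole. -/
lemma LStep.lift {T W : V → Prop} {F F' G : Multiset (Region V)} (h : LStep F F') (hl : Loc T W F)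
    (hG : ∀ x, InR G x → ¬ W x) : LStep (F + G) (F' + G) := by
  obtain ⟨u, v, huv, hadj, Φ, Ψ, G', rfl, rfl, hm⟩ := h
  have hcor : InR {Φ} u ∧ InR {Φ} v := by
    rw [← hm.corner, ← hm.corner]
    have := (hm.adj u v).2 (Or.inr (Or.inl ⟨rfl, rfl⟩))
    exact ⟨this.left, this.right⟩
  refine ⟨u, v, huv, ?_, Φ, Ψ, G' + G, by simp, by simp [add_assoc], hm⟩
  rw [adj_add]
  rintro (h | h)
  · exact hadj h
  · have hu := hG u h.left
    have hv := hG v h.right
    have hu' : T u := (hl.1 u (inR_cons.2 (Or.inl hcor.1))).resolve_right hu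
    have hv' : T v := (hl.1 v (inR_cons.2 (Or.inl hcor.2))).resolve_right hv
    exact hadj (hl.2 u v hu' hv' huv)

end Pool.Agent.H44.DG
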