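import Pool.Agent.H44.DG.Lib

/-! Cases of the table: open picture number 0. -/

set_option maxRecDepth 100000

namespace Pool.Agent.H44.DG

theorem c_T3_att_1_0 : Ans 4 (toLF [(.R 0, [0, 3, 0, 1, 2])]) :=
  Or.inl (lr_IL (show LR (↑([0, 1, 2] : List ℕ)) (↑([3] : List ℕ)) (toLF [(.R 0, [0, 1, 2, 0, 3])]) from lr_opn0 1 (by decide) (.R 0) (Or.inr ⟨0, rfl⟩) [0, 1, 2, 3] (by decide) (by decide) (by decide)) (by decide) (by decide))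

theorem c_T3_att_2_0 : Ans 5 (toLF [(.R 0, [0, 3, 4, 3, 0, 1, 2])]) :=
  Or.inl (lr_IL (show LR (↑([0, 1, 2] : List ℕ)) (↑([3, 4] : List ℕ)) (toLF [(.R 0, [0, 1, 2, 0, 3, 4, 3])]) from lr_opn0 2 (by decide) (.R 0) (Or.inr ⟨0, rfl⟩) [0, 1, 2, 3, 4] (by decide) (by decide) (by decide)) (by decide) (by decide))

theorem c_T3_att_3_0 : Ans 6 (toLF [(.E, [0, 3, 4, 5, 3, 0, 1, 2]), (.T 1, [5, 4, 3])]) :=
  Or.inl (lr_IL (show LR (↑([0, 1, 2] : List ℕ)) (↑([3, 4, 5] : List ℕ)) (toLF [(.E, [0, 3, 4, 5, 3, 0, 1, 2]), (.T 1, [5, 4, 3])]) from lr_comp1 (hL0) [0, 1, 2, 3, 4, 5]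
    (show LR (↑([3, 5, 4] : List ℕ)) (↑([] : List ℕ)) (toLF [(.T 1, [3, 5, 4])]) from lr_old 1 [3, 5, 4])
    (by decide) (by decide) (by decide) (by decide)) (by decide) (by decide))

theorem c_T3_att_1_1 : Ans 4 (toLF [(.R 0, [1, 3, 1, 2, 0])]) :=
  Or.inl (lr_IL (show LR (↑([0, 1, 2] : List ℕ)) (↑([3] : List ℕ)) (toLF [(.R 0, [1, 2, 0, 1, 3])]) from lr_opn0 1 (by decide) (.R 0) (Or.inr ⟨0, rfl⟩) [1, 2, 0, 3] (by decide) (by decide) (by decide)) (by decide) (by decide))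

theorem c_T3_att_2_1 : Ans 5 (toLF [(.R 0, [1, 3, 4, 3, 1, 2, 0])]) :=
  Or.inl (lr_IL (show LR (↑([0, 1, 2] : List ℕ)) (↑([3, 4] : List ℕ)) (toLF [(.R 0, [1, 2, 0, 1, 3, 4, 3])]) from lr_opn0 2 (by decide) (.R 0) (Or.inr ⟨0, rfl⟩) [1, 2, 0, 3, 4] (by decide) (by decide) (by decide)) (by decide) (by decide))

theorem c_T3_att_3_1 : Ans 6 (toLF [(.E, [1, 3, 4, 5, 3, 1, 2, 0]), (.T 1, [5, 4, 3])]) :=
  Or.inl (lr_IL (show LR (↑([0, 1, 2] : List ℕ)) (↑([3, 4, 5] : List ℕ)) (toLF [(.E, [1, 3, 4, 5, 3, 1, 2, 0]), (.T 1, [5, 4, 3])]) from lr_comp1 (hL0) [1, 2, 0, 3, 4, 5]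
    (show LR (↑([3, 5, 4] : List ℕ)) (↑([] : List ℕ)) (toLF [(.T 1, [3, 5, 4])]) from lr_old 1 [3, 5, 4])
    (by decide) (by decide) (by decide) (by decide)) (by decide) (by decide))

theorem c_T3_att_1_2 : Ans 4 (toLF [(.R 0, [2, 3, 2, 0, 1])]) :=
  Or.inl (lr_IL (show LR (↑([0, 1, 2] : List ℕ)) (↑([3] : List ℕ)) (toLF [(.R 0, [2, 0, 1, 2, 3])]) from lr_opn0 1 (by decide) (.R 0) (Or.inr ⟨0, rfl⟩) [2, 0, 1, 3] (by decide) (by decide) (by decide)) (by decide) (by decide))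

theorem c_T3_att_2_2 : Ans 5 (toLF [(.R 0, [2, 3, 4, 3, 2, 0, 1])]) :=
  Or.inl (lr_IL (show LR (↑([0, 1, 2] : List ℕ)) (↑([3, 4] : List ℕ)) (toLF [(.R 0, [2, 0, 1, 2, 3, 4, 3])]) from lr_opn0 2 (by decide) (.R 0) (Or.inr ⟨0, rfl⟩) [2, 0, 1, 3, 4] (by decide) (by decide) (by decide)) (by decide) (by decide))

theorem c_T3_att_3_2 : Ans 6 (toLF [(.E, [2, 3, 4, 5, 3, 2, 0, 1]), (.T 1, [5, 4, 3])]) :=
  Or.inl (lr_IL (show LR (↑([0, 1, 2] : List ℕ)) (↑([3, 4, 5] : List ℕ)) (toLF [(.E, [2, 3, 4, 5, 3, 2, 0, 1]), (.T 1, [5, 4, 3])]) from lr_comp1 (hL0) [2, 0, 1, 3, 4, 5]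
    (show LR (↑([3, 5, 4] : List ℕ)) (↑([] : List ℕ)) (toLF [(.T 1, [3, 5, 4])]) from lr_old 1 [3, 5, 4])
    (by decide) (by decide) (by decide) (by decide)) (by decide) (by decide))

end Pool.Agent.H44.DG
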