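import Pool.Agent.H44.DG.Lib

/-! Cases of the table: open picture number 4. -/

set_option maxRecDepth 100000

namespace Pool.Agent.H44.DG

theorem c_E1m_pass : ∃ L', LMove (toLF [(.R 0, [0, 1, 2, 4, 3]), (.E, [2, 0, 4]), (.T 0, [0, 3, 4])]) L' ∧ LR (↑([0, 1, 2] : List ℕ)) (↑(inner 5)) L' :=
  ⟨toLF [(.E, [2, 0, 4]), (.E, [4, 3, 0, 1]), (.T 0, [0, 3, 4]), (.R 0, [1, 2, 4])], LMove.mkR 0 1 4 [2] [3, 0] (toLF [(.E, [2, 0, 4]), (.T 0, [0, 3, 4])]) _ _ (by decide) (by decide) (by decide) (by decide),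
  lr_I (show LR (↑([0, 1, 2] : List ℕ)) (↑([3, 4] : List ℕ)) (toLF [(.E, [2, 0, 4]), (.E, [4, 3, 0, 1]), (.T 0, [0, 3, 4]), (.R 0, [1, 2, 4])]) from lr_comp2 (hL10) [2, 0, 1, 4, 3]
    (show LR (↑([2, 4, 1] : List ℕ)) (↑([] : List ℕ)) (toLF [(.R 0, [1, 2, 4])]) from lr_opn0 0 (by decide) (.R 0) (Or.inr ⟨0, rfl⟩) [1, 2, 4] (by decide) (by decide) (by decide))
    (show LR (↑([0, 3, 4] : List ℕ)) (↑([] : List ℕ)) (toLF [(.T 0, [0, 3, 4])]) from lr_old 0 [0, 3, 4])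
    (by decide) (by decide) (by decide) (by decide)) (by decide)⟩

theorem c_E1m_split_1_3 : Ans 5 (toLF [(.R 1, [1, 2, 4]), (.R 2, [4, 3, 0, 1]), (.E, [2, 0, 4]), (.T 0, [0, 3, 4])]) :=
  Or.inr ⟨toLF [(.E, [2, 0, 4]), (.E, [1, 4, 3]), (.T 0, [0, 3, 4]), (.R 2, [0, 1, 3]), (.R 1, [1, 2, 4])], LMove.mkR 2 3 1 [0] [4] (toLF [(.R 1, [1, 2, 4]), (.E, [2, 0, 4]), (.T 0, [0, 3, 4])]) _ _ (by decide) (by decide) (by decide) (by decide),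
  lr_I (show LR (↑([0, 1, 2] : List ℕ)) (↑([3, 4] : List ℕ)) (toLF [(.E, [2, 0, 4]), (.E, [1, 4, 3]), (.T 0, [0, 3, 4]), (.R 2, [0, 1, 3]), (.R 1, [1, 2, 4])]) from lr_comp3 (hL11) [2, 0, 1, 4, 3]
    (show LR (↑([2, 4, 1] : List ℕ)) (↑([] : List ℕ)) (toLF [(.R 1, [1, 2, 4])]) from lr_opn0 0 (by decide) (.R 1) (Or.inr ⟨1, rfl⟩) [1, 2, 4] (by decide) (by decide) (by decide))
    (show LR (↑([0, 1, 3] : List ℕ)) (↑([] : List ℕ)) (toLF [(.R 2, [0, 1, 3])]) from lr_opn0 0 (by decide) (.R 2) (Or.inr ⟨2, rfl⟩) [0, 1, 3] (by decide) (by decide) (by decide))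
    (show LR (↑([0, 3, 4] : List ℕ)) (↑([] : List ℕ)) (toLF [(.T 0, [0, 3, 4])]) from lr_old 0 [0, 3, 4])
    (by decide) (by decide) (by decide) (by decide)) (by decide)⟩

theorem c_E1m_split_1_4 : Ans 5 (toLF [(.R 1, [1, 2, 4, 3]), (.R 2, [3, 0, 1]), (.E, [2, 0, 4]), (.T 0, [0, 3, 4])]) :=
  Or.inr ⟨toLF [(.E, [2, 0, 4]), (.E, [1, 4, 3]), (.T 0, [0, 3, 4]), (.R 2, [0, 1, 3]), (.R 1, [1, 2, 4])], LMove.mkR 1 1 4 [2] [3] (toLF [(.R 2, [3, 0, 1]), (.E, [2, 0, 4]), (.T 0, [0, 3, 4])]) _ _ (by decide) (by decide) (by decide) (by decide),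
  lr_I (show LR (↑([0, 1, 2] : List ℕ)) (↑([3, 4] : List ℕ)) (toLF [(.E, [2, 0, 4]), (.E, [1, 4, 3]), (.T 0, [0, 3, 4]), (.R 2, [0, 1, 3]), (.R 1, [1, 2, 4])]) from lr_comp3 (hL11) [2, 0, 1, 4, 3]
    (show LR (↑([2, 4, 1] : List ℕ)) (↑([] : List ℕ)) (toLF [(.R 1, [1, 2, 4])]) from lr_opn0 0 (by decide) (.R 1) (Or.inr ⟨1, rfl⟩) [1, 2, 4] (by decide) (by decide) (by decide))
    (show LR (↑([0, 1, 3] : List ℕ)) (↑([] : List ℕ)) (toLF [(.R 2, [0, 1, 3])]) from lr_opn0 0 (by decide) (.R 2) (Or.inr ⟨2, rfl⟩) [0, 1, 3] (by decide) (by decide) (by decide))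
    (show LR (↑([0, 3, 4] : List ℕ)) (↑([] : List ℕ)) (toLF [(.T 0, [0, 3, 4])]) from lr_old 0 [0, 3, 4])
    (by decide) (by decide) (by decide) (by decide)) (by decide)⟩

theorem c_E1m_split_2_4 : Ans 5 (toLF [(.R 1, [2, 4, 3]), (.R 2, [3, 0, 1, 2]), (.E, [2, 0, 4]), (.T 0, [0, 3, 4])]) :=
  Or.inr ⟨toLF [(.E, [2, 0, 4]), (.E, [3, 1, 2]), (.T 0, [0, 3, 4]), (.R 2, [0, 1, 3]), (.R 1, [2, 4, 3])], LMove.mkR 2 3 1 [0] [2] (toLF [(.R 1, [2, 4, 3]), (.E, [2, 0, 4]), (.T 0, [0, 3, 4])]) _ _ (by decide) (by decide) (by decide) (by decide),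
  lr_I (show LR (↑([0, 1, 2] : List ℕ)) (↑([3, 4] : List ℕ)) (toLF [(.E, [2, 0, 4]), (.E, [3, 1, 2]), (.T 0, [0, 3, 4]), (.R 2, [0, 1, 3]), (.R 1, [2, 4, 3])]) from lr_comp3 (hL12) [2, 0, 1, 4, 3]
    (show LR (↑([2, 4, 3] : List ℕ)) (↑([] : List ℕ)) (toLF [(.R 1, [2, 4, 3])]) from lr_opn0 0 (by decide) (.R 1) (Or.inr ⟨1, rfl⟩) [2, 4, 3] (by decide) (by decide) (by decide))
    (show LR (↑([0, 1, 3] : List ℕ)) (↑([] : List ℕ)) (toLF [(.R 2, [0, 1, 3])]) from lr_opn0 0 (by decide) (.R 2) (Or.inr ⟨2, rfl⟩) [0, 1, 3] (by decide) (by decide) (by decide))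
    (show LR (↑([0, 3, 4] : List ℕ)) (↑([] : List ℕ)) (toLF [(.T 0, [0, 3, 4])]) from lr_old 0 [0, 3, 4])
    (by decide) (by decide) (by decide) (by decide)) (by decide)⟩

theorem c_E1m_att_1_0 : Ans 6 (toLF [(.R 0, [0, 5, 0, 1, 2, 4, 3]), (.E, [2, 0, 4]), (.T 0, [0, 3, 4])]) :=
  Or.inr ⟨toLF [(.E, [5, 0, 1, 2]), (.R 0, [0, 5, 2, 4, 3]), (.E, [2, 0, 4]), (.T 0, [0, 3, 4])], LMove.mkR 0 2 5 [4, 3, 0] [0, 1] (toLF [(.E, [2, 0, 4]), (.T 0, [0, 3, 4])]) _ _ (by decide) (by decide) (by decide) (by decide),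
  lr_I (show LR (↑([0, 1, 2] : List ℕ)) (↑([5, 3, 4] : List ℕ)) (toLF [(.E, [5, 0, 1, 2]), (.R 0, [0, 5, 2, 4, 3]), (.E, [2, 0, 4]), (.T 0, [0, 3, 4])]) from lr_comp1 (hL2) [0, 1, 2, 5]
    (show LR (↑([0, 5, 2] : List ℕ)) (↑([3, 4] : List ℕ)) (toLF [(.R 0, [0, 5, 2, 4, 3]), (.E, [2, 0, 4]), (.T 0, [0, 3, 4])]) from lr_opn1 4 (.R 0) (Or.inr ⟨0, rfl⟩) [0, 5, 2, 3, 4]
      (show LR (↑([0, 3, 4] : List ℕ)) (↑([] : List ℕ)) (toLF [(.T 0, [0, 3, 4])]) from lr_old 0 [0, 3, 4])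
      (by decide) (by decide) (by decide) (by decide))
    (by decide) (by decide) (by decide) (by decide)) (by decide)⟩

theorem c_E1m_att_2_0 : Ans 7 (toLF [(.R 0, [0, 5, 6, 5, 0, 1, 2, 4, 3]), (.E, [2, 0, 4]), (.T 0, [0, 3, 4])]) :=
  Or.inr ⟨toLF [(.E, [5, 6, 5, 0, 1, 2]), (.R 0, [0, 5, 2, 4, 3]), (.E, [2, 0, 4]), (.T 0, [0, 3, 4])], LMove.mkR 0 2 5 [4, 3, 0] [6, 5, 0, 1] (toLF [(.E, [2, 0, 4]), (.T 0, [0, 3, 4])]) _ _ (by decide) (by decide) (by decide) (by decide),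
  lr_I (show LR (↑([0, 1, 2] : List ℕ)) (↑([5, 6, 3, 4] : List ℕ)) (toLF [(.E, [5, 6, 5, 0, 1, 2]), (.R 0, [0, 5, 2, 4, 3]), (.E, [2, 0, 4]), (.T 0, [0, 3, 4])]) from lr_comp1 (hL3) [0, 1, 2, 5, 6]
    (show LR (↑([0, 5, 2] : List ℕ)) (↑([3, 4] : List ℕ)) (toLF [(.R 0, [0, 5, 2, 4, 3]), (.E, [2, 0, 4]), (.T 0, [0, 3, 4])]) from lr_opn1 4 (.R 0) (Or.inr ⟨0, rfl⟩) [0, 5, 2, 3, 4]
      (show LR (↑([0, 3, 4] : List ℕ)) (↑([] : List ℕ)) (toLF [(.T 0, [0, 3, 4])]) from lr_old 0 [0, 3, 4])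
      (by decide) (by decide) (by decide) (by decide))
    (by decide) (by decide) (by decide) (by decide)) (by decide)⟩

theorem c_E1m_att_3_0 : Ans 8 (toLF [(.E, [0, 5, 6, 7, 5, 0, 1, 2, 4, 3]), (.T 1, [7, 6, 5]), (.E, [2, 0, 4]), (.T 0, [0, 3, 4])]) :=
  Or.inr ⟨toLF [(.E, [2, 0, 4]), (.E, [1, 2, 4, 3]), (.T 0, [0, 3, 4]), (.E, [3, 0, 5, 6, 7, 5, 0, 1]), (.T 1, [7, 6, 5])], LMove.mkE 1 3 [2, 4] [0, 5, 6, 7, 5, 0] (toLF [(.T 1, [7, 6, 5]), (.E, [2, 0, 4]), (.T 0, [0, 3, 4])]) _ _ (by decide) (by decide) (by decide) (by decide),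
  lr_I (show LR (↑([0, 1, 2] : List ℕ)) (↑([3, 4, 5, 6, 7] : List ℕ)) (toLF [(.E, [2, 0, 4]), (.E, [1, 2, 4, 3]), (.T 0, [0, 3, 4]), (.E, [3, 0, 5, 6, 7, 5, 0, 1]), (.T 1, [7, 6, 5])]) from lr_comp2 (hL13) [2, 0, 1, 4, 3]
    (show LR (↑([0, 1, 3] : List ℕ)) (↑([5, 6, 7] : List ℕ)) (toLF [(.E, [3, 0, 5, 6, 7, 5, 0, 1]), (.T 1, [7, 6, 5])]) from lr_comp1 (hL0) [0, 1, 3, 5, 6, 7]
      (show LR (↑([5, 7, 6] : List ℕ)) (↑([] : List ℕ)) (toLF [(.T 1, [5, 7, 6])]) from lr_old 1 [5, 7, 6])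
      (by decide) (by decide) (by decide) (by decide))
    (show LR (↑([0, 3, 4] : List ℕ)) (↑([] : List ℕ)) (toLF [(.T 0, [0, 3, 4])]) from lr_old 0 [0, 3, 4])
    (by decide) (by decide) (by decide) (by decide)) (by decide)⟩

theorem c_E1m_att_1_1 : Ans 6 (toLF [(.R 0, [1, 5, 1, 2, 4, 3, 0]), (.E, [2, 0, 4]), (.T 0, [0, 3, 4])]) :=
  Or.inr ⟨toLF [(.E, [2, 0, 4]), (.E, [4, 3, 0, 1]), (.T 0, [0, 3, 4]), (.R 0, [1, 2, 4, 1, 5])], LMove.mkR 0 1 4 [5, 1, 2] [3, 0] (toLF [(.E, [2, 0, 4]), (.T 0, [0, 3, 4])]) _ _ (by decide) (by decide) (by decide) (by decide),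
  lr_I (show LR (↑([0, 1, 2] : List ℕ)) (↑([3, 4, 5] : List ℕ)) (toLF [(.E, [2, 0, 4]), (.E, [4, 3, 0, 1]), (.T 0, [0, 3, 4]), (.R 0, [1, 2, 4, 1, 5])]) from lr_comp2 (hL10) [2, 0, 1, 4, 3]
    (show LR (↑([2, 4, 1] : List ℕ)) (↑([5] : List ℕ)) (toLF [(.R 0, [1, 2, 4, 1, 5])]) from lr_opn0 1 (by decide) (.R 0) (Or.inr ⟨0, rfl⟩) [1, 2, 4, 5] (by decide) (by decide) (by decide))
    (show LR (↑([0, 3, 4] : List ℕ)) (↑([] : List ℕ)) (toLF [(.T 0, [0, 3, 4])]) from lr_old 0 [0, 3, 4])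
    (by decide) (by decide) (by decide) (by decide)) (by decide)⟩

theorem c_E1m_att_2_1 : Ans 7 (toLF [(.R 0, [1, 5, 6, 5, 1, 2, 4, 3, 0]), (.E, [2, 0, 4]), (.T 0, [0, 3, 4])]) :=
  Or.inr ⟨toLF [(.E, [2, 0, 4]), (.E, [4, 3, 0, 1]), (.T 0, [0, 3, 4]), (.R 0, [1, 2, 4, 1, 5, 6, 5])], LMove.mkR 0 1 4 [5, 6, 5, 1, 2] [3, 0] (toLF [(.E, [2, 0, 4]), (.T 0, [0, 3, 4])]) _ _ (by decide) (by decide) (by decide) (by decide),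
  lr_I (show LR (↑([0, 1, 2] : List ℕ)) (↑([3, 4, 5, 6] : List ℕ)) (toLF [(.E, [2, 0, 4]), (.E, [4, 3, 0, 1]), (.T 0, [0, 3, 4]), (.R 0, [1, 2, 4, 1, 5, 6, 5])]) from lr_comp2 (hL10) [2, 0, 1, 4, 3]
    (show LR (↑([2, 4, 1] : List ℕ)) (↑([5, 6] : List ℕ)) (toLF [(.R 0, [1, 2, 4, 1, 5, 6, 5])]) from lr_opn0 2 (by decide) (.R 0) (Or.inr ⟨0, rfl⟩) [1, 2, 4, 5, 6] (by decide) (by decide) (by decide))
    (show LR (↑([0, 3, 4] : List ℕ)) (↑([] : List ℕ)) (toLF [(.T 0, [0, 3, 4])]) from lr_old 0 [0, 3, 4])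
    (by decide) (by decide) (by decide) (by decide)) (by decide)⟩

theorem c_E1m_att_3_1 : Ans 8 (toLF [(.E, [1, 5, 6, 7, 5, 1, 2, 4, 3, 0]), (.T 1, [7, 6, 5]), (.E, [2, 0, 4]), (.T 0, [0, 3, 4])]) :=
  Or.inr ⟨toLF [(.E, [2, 0, 4]), (.E, [4, 3, 0, 1]), (.T 0, [0, 3, 4]), (.E, [4, 1, 5, 6, 7, 5, 1, 2]), (.T 1, [7, 6, 5])], LMove.mkE 1 4 [5, 6, 7, 5, 1, 2] [3, 0] (toLF [(.T 1, [7, 6, 5]), (.E, [2, 0, 4]), (.T 0, [0, 3, 4])]) _ _ (by decide) (by decide) (by decide) (by decide),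
  lr_I (show LR (↑([0, 1, 2] : List ℕ)) (↑([3, 4, 5, 6, 7] : List ℕ)) (toLF [(.E, [2, 0, 4]), (.E, [4, 3, 0, 1]), (.T 0, [0, 3, 4]), (.E, [4, 1, 5, 6, 7, 5, 1, 2]), (.T 1, [7, 6, 5])]) from lr_comp2 (hL10) [2, 0, 1, 4, 3]
    (show LR (↑([2, 4, 1] : List ℕ)) (↑([5, 6, 7] : List ℕ)) (toLF [(.E, [4, 1, 5, 6, 7, 5, 1, 2]), (.T 1, [7, 6, 5])]) from lr_comp1 (hL0) [1, 2, 4, 5, 6, 7]
      (show LR (↑([5, 7, 6] : List ℕ)) (↑([] : List ℕ)) (toLF [(.T 1, [5, 7, 6])]) from lr_old 1 [5, 7, 6])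
      (by decide) (by decide) (by decide) (by decide))
    (show LR (↑([0, 3, 4] : List ℕ)) (↑([] : List ℕ)) (toLF [(.T 0, [0, 3, 4])]) from lr_old 0 [0, 3, 4])
    (by decide) (by decide) (by decide) (by decide)) (by decide)⟩

theorem c_E1m_att_1_2 : Ans 6 (toLF [(.R 0, [2, 5, 2, 4, 3, 0, 1]), (.E, [2, 0, 4]), (.T 0, [0, 3, 4])]) :=
  Or.inr ⟨toLF [(.E, [2, 0, 4]), (.E, [3, 0, 1, 2]), (.T 0, [0, 3, 4]), (.R 0, [2, 4, 3, 2, 5])], LMove.mkR 0 2 3 [5, 2, 4] [0, 1] (toLF [(.E, [2, 0, 4]), (.T 0, [0, 3, 4])]) _ _ (by decide) (by decide) (by decide) (by decide),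
  lr_I (show LR (↑([0, 1, 2] : List ℕ)) (↑([3, 4, 5] : List ℕ)) (toLF [(.E, [2, 0, 4]), (.E, [3, 0, 1, 2]), (.T 0, [0, 3, 4]), (.R 0, [2, 4, 3, 2, 5])]) from lr_comp2 (hL5) [0, 1, 2, 3, 4]
    (show LR (↑([0, 3, 4] : List ℕ)) (↑([] : List ℕ)) (toLF [(.T 0, [0, 3, 4])]) from lr_old 0 [0, 3, 4])
    (show LR (↑([2, 4, 3] : List ℕ)) (↑([5] : List ℕ)) (toLF [(.R 0, [2, 4, 3, 2, 5])]) from lr_opn0 1 (by decide) (.R 0) (Or.inr ⟨0, rfl⟩) [2, 4, 3, 5] (by decide) (by decide) (by decide))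
    (by decide) (by decide) (by decide) (by decide)) (by decide)⟩

theorem c_E1m_att_2_2 : Ans 7 (toLF [(.R 0, [2, 5, 6, 5, 2, 4, 3, 0, 1]), (.E, [2, 0, 4]), (.T 0, [0, 3, 4])]) :=
  Or.inr ⟨toLF [(.E, [2, 0, 4]), (.E, [3, 0, 1, 2]), (.T 0, [0, 3, 4]), (.R 0, [2, 4, 3, 2, 5, 6, 5])], LMove.mkR 0 2 3 [5, 6, 5, 2, 4] [0, 1] (toLF [(.E, [2, 0, 4]), (.T 0, [0, 3, 4])]) _ _ (by decide) (by decide) (by decide) (by decide),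
  lr_I (show LR (↑([0, 1, 2] : List ℕ)) (↑([3, 4, 5, 6] : List ℕ)) (toLF [(.E, [2, 0, 4]), (.E, [3, 0, 1, 2]), (.T 0, [0, 3, 4]), (.R 0, [2, 4, 3, 2, 5, 6, 5])]) from lr_comp2 (hL5) [0, 1, 2, 3, 4]
    (show LR (↑([0, 3, 4] : List ℕ)) (↑([] : List ℕ)) (toLF [(.T 0, [0, 3, 4])]) from lr_old 0 [0, 3, 4])
    (show LR (↑([2, 4, 3] : List ℕ)) (↑([5, 6] : List ℕ)) (toLF [(.R 0, [2, 4, 3, 2, 5, 6, 5])]) from lr_opn0 2 (by decide) (.R 0) (Or.inr ⟨0, rfl⟩) [2, 4, 3, 5, 6] (by decide) (by decide) (by decide))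
    (by decide) (by decide) (by decide) (by decide)) (by decide)⟩

theorem c_E1m_att_3_2 : Ans 8 (toLF [(.E, [2, 5, 6, 7, 5, 2, 4, 3, 0, 1]), (.T 1, [7, 6, 5]), (.E, [2, 0, 4]), (.T 0, [0, 3, 4])]) :=
  Or.inr ⟨toLF [(.E, [2, 0, 4]), (.E, [3, 0, 1, 2]), (.T 0, [0, 3, 4]), (.E, [2, 5, 6, 7, 5, 2, 4, 3]), (.T 1, [7, 6, 5])], LMove.mkE 2 3 [5, 6, 7, 5, 2, 4] [0, 1] (toLF [(.T 1, [7, 6, 5]), (.E, [2, 0, 4]), (.T 0, [0, 3, 4])]) _ _ (by decide) (by decide) (by decide) (by decide),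
  lr_I (show LR (↑([0, 1, 2] : List ℕ)) (↑([3, 4, 5, 6, 7] : List ℕ)) (toLF [(.E, [2, 0, 4]), (.E, [3, 0, 1, 2]), (.T 0, [0, 3, 4]), (.E, [2, 5, 6, 7, 5, 2, 4, 3]), (.T 1, [7, 6, 5])]) from lr_comp2 (hL5) [0, 1, 2, 3, 4]
    (show LR (↑([0, 3, 4] : List ℕ)) (↑([] : List ℕ)) (toLF [(.T 0, [0, 3, 4])]) from lr_old 0 [0, 3, 4])
    (show LR (↑([2, 4, 3] : List ℕ)) (↑([5, 6, 7] : List ℕ)) (toLF [(.E, [2, 5, 6, 7, 5, 2, 4, 3]), (.T 1, [7, 6, 5])]) from lr_comp1 (hL0) [2, 4, 3, 5, 6, 7]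
      (show LR (↑([5, 7, 6] : List ℕ)) (↑([] : List ℕ)) (toLF [(.T 1, [5, 7, 6])]) from lr_old 1 [5, 7, 6])
      (by decide) (by decide) (by decide) (by decide))
    (by decide) (by decide) (by decide) (by decide)) (by decide)⟩

theorem c_E1m_att_1_3 : Ans 6 (toLF [(.R 0, [4, 5, 4, 3, 0, 1, 2]), (.E, [2, 0, 4]), (.T 0, [0, 3, 4])]) :=
  Or.inr ⟨toLF [(.R 0, [0, 1, 2, 4, 5]), (.E, [2, 0, 4]), (.E, [4, 3, 0, 5]), (.T 0, [0, 3, 4])], LMove.mkR 0 0 5 [1, 2, 4] [4, 3] (toLF [(.E, [2, 0, 4]), (.T 0, [0, 3, 4])]) _ _ (by decide) (by decide) (by decide) (by decide),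
  lr_I (show LR (↑([0, 1, 2] : List ℕ)) (↑([5, 4, 3] : List ℕ)) (toLF [(.R 0, [0, 1, 2, 4, 5]), (.E, [2, 0, 4]), (.E, [4, 3, 0, 5]), (.T 0, [0, 3, 4])]) from lr_opn1 4 (.R 0) (Or.inr ⟨0, rfl⟩) [0, 1, 2, 5, 4]
    (show LR (↑([0, 5, 4] : List ℕ)) (↑([3] : List ℕ)) (toLF [(.E, [4, 3, 0, 5]), (.T 0, [0, 3, 4])]) from lr_comp1 (hL2) [0, 5, 4, 3]
      (show LR (↑([0, 3, 4] : List ℕ)) (↑([] : List ℕ)) (toLF [(.T 0, [0, 3, 4])]) from lr_old 0 [0, 3, 4])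
      (by decide) (by decide) (by decide) (by decide))
    (by decide) (by decide) (by decide) (by decide)) (by decide)⟩

theorem c_E1m_att_2_3 : Ans 7 (toLF [(.R 0, [4, 5, 6, 5, 4, 3, 0, 1, 2]), (.E, [2, 0, 4]), (.T 0, [0, 3, 4])]) :=
  Or.inr ⟨toLF [(.E, [2, 0, 4]), (.E, [4, 3, 0, 1]), (.T 0, [0, 3, 4]), (.R 0, [4, 1, 2, 4, 5, 6, 5])], LMove.mkR 0 1 4 [2, 4, 5, 6, 5] [3, 0] (toLF [(.E, [2, 0, 4]), (.T 0, [0, 3, 4])]) _ _ (by decide) (by decide) (by decide) (by decide),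
  lr_I (show LR (↑([0, 1, 2] : List ℕ)) (↑([3, 4, 5, 6] : List ℕ)) (toLF [(.E, [2, 0, 4]), (.E, [4, 3, 0, 1]), (.T 0, [0, 3, 4]), (.R 0, [4, 1, 2, 4, 5, 6, 5])]) from lr_comp2 (hL10) [2, 0, 1, 4, 3]
    (show LR (↑([2, 4, 1] : List ℕ)) (↑([5, 6] : List ℕ)) (toLF [(.R 0, [4, 1, 2, 4, 5, 6, 5])]) from lr_opn0 2 (by decide) (.R 0) (Or.inr ⟨0, rfl⟩) [4, 1, 2, 5, 6] (by decide) (by decide) (by decide))
    (show LR (↑([0, 3, 4] : List ℕ)) (↑([] : List ℕ)) (toLF [(.T 0, [0, 3, 4])]) from lr_old 0 [0, 3, 4])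
    (by decide) (by decide) (by decide) (by decide)) (by decide)⟩

theorem c_E1m_att_3_3 : Ans 8 (toLF [(.E, [4, 5, 6, 7, 5, 4, 3, 0, 1, 2]), (.T 1, [7, 6, 5]), (.E, [2, 0, 4]), (.T 0, [0, 3, 4])]) :=
  Or.inr ⟨toLF [(.E, [2, 0, 4]), (.E, [4, 3, 0, 1]), (.T 0, [0, 3, 4]), (.E, [4, 5, 6, 7, 5, 4, 1, 2]), (.T 1, [7, 6, 5])], LMove.mkE 4 1 [3, 0] [2, 4, 5, 6, 7, 5] (toLF [(.T 1, [7, 6, 5]), (.E, [2, 0, 4]), (.T 0, [0, 3, 4])]) _ _ (by decide) (by decide) (by decide) (by decide),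
  lr_I (show LR (↑([0, 1, 2] : List ℕ)) (↑([3, 4, 5, 6, 7] : List ℕ)) (toLF [(.E, [2, 0, 4]), (.E, [4, 3, 0, 1]), (.T 0, [0, 3, 4]), (.E, [4, 5, 6, 7, 5, 4, 1, 2]), (.T 1, [7, 6, 5])]) from lr_comp2 (hL10) [2, 0, 1, 4, 3]
    (show LR (↑([2, 4, 1] : List ℕ)) (↑([5, 6, 7] : List ℕ)) (toLF [(.E, [4, 5, 6, 7, 5, 4, 1, 2]), (.T 1, [7, 6, 5])]) from lr_comp1 (hL0) [4, 1, 2, 5, 6, 7]
      (show LR (↑([5, 7, 6] : List ℕ)) (↑([] : List ℕ)) (toLF [(.T 1, [5, 7, 6])]) from lr_old 1 [5, 7, 6])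
      (by decide) (by decide) (by decide) (by decide))
    (show LR (↑([0, 3, 4] : List ℕ)) (↑([] : List ℕ)) (toLF [(.T 0, [0, 3, 4])]) from lr_old 0 [0, 3, 4])
    (by decide) (by decide) (by decide) (by decide)) (by decide)⟩

theorem c_E1m_att_1_4 : Ans 6 (toLF [(.R 0, [3, 5, 3, 0, 1, 2, 4]), (.E, [2, 0, 4]), (.T 0, [0, 3, 4])]) :=
  Or.inr ⟨toLF [(.E, [2, 0, 4]), (.E, [1, 2, 4, 3]), (.T 0, [0, 3, 4]), (.R 0, [3, 0, 1, 3, 5])], LMove.mkR 0 3 1 [5, 3, 0] [2, 4] (toLF [(.E, [2, 0, 4]), (.T 0, [0, 3, 4])]) _ _ (by decide) (by decide) (by decide) (by decide),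
  lr_I (show LR (↑([0, 1, 2] : List ℕ)) (↑([3, 4, 5] : List ℕ)) (toLF [(.E, [2, 0, 4]), (.E, [1, 2, 4, 3]), (.T 0, [0, 3, 4]), (.R 0, [3, 0, 1, 3, 5])]) from lr_comp2 (hL13) [2, 0, 1, 4, 3]
    (show LR (↑([0, 1, 3] : List ℕ)) (↑([5] : List ℕ)) (toLF [(.R 0, [3, 0, 1, 3, 5])]) from lr_opn0 1 (by decide) (.R 0) (Or.inr ⟨0, rfl⟩) [3, 0, 1, 5] (by decide) (by decide) (by decide))
    (show LR (↑([0, 3, 4] : List ℕ)) (↑([] : List ℕ)) (toLF [(.T 0, [0, 3, 4])]) from lr_old 0 [0, 3, 4])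
    (by decide) (by decide) (by decide) (by decide)) (by decide)⟩

theorem c_E1m_att_2_4 : Ans 7 (toLF [(.R 0, [3, 5, 6, 5, 3, 0, 1, 2, 4]), (.E, [2, 0, 4]), (.T 0, [0, 3, 4])]) :=
  Or.inr ⟨toLF [(.E, [2, 0, 4]), (.E, [1, 2, 4, 3]), (.T 0, [0, 3, 4]), (.R 0, [3, 0, 1, 3, 5, 6, 5])], LMove.mkR 0 3 1 [5, 6, 5, 3, 0] [2, 4] (toLF [(.E, [2, 0, 4]), (.T 0, [0, 3, 4])]) _ _ (by decide) (by decide) (by decide) (by decide),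
  lr_I (show LR (↑([0, 1, 2] : List ℕ)) (↑([3, 4, 5, 6] : List ℕ)) (toLF [(.E, [2, 0, 4]), (.E, [1, 2, 4, 3]), (.T 0, [0, 3, 4]), (.R 0, [3, 0, 1, 3, 5, 6, 5])]) from lr_comp2 (hL13) [2, 0, 1, 4, 3]
    (show LR (↑([0, 1, 3] : List ℕ)) (↑([5, 6] : List ℕ)) (toLF [(.R 0, [3, 0, 1, 3, 5, 6, 5])]) from lr_opn0 2 (by decide) (.R 0) (Or.inr ⟨0, rfl⟩) [3, 0, 1, 5, 6] (by decide) (by decide) (by decide))
    (show LR (↑([0, 3, 4] : List ℕ)) (↑([] : List ℕ)) (toLF [(.T 0, [0, 3, 4])]) from lr_old 0 [0, 3, 4])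
    (by decide) (by decide) (by decide) (by decide)) (by decide)⟩

theorem c_E1m_att_3_4 : Ans 8 (toLF [(.E, [3, 5, 6, 7, 5, 3, 0, 1, 2, 4]), (.T 1, [7, 6, 5]), (.E, [2, 0, 4]), (.T 0, [0, 3, 4])]) :=
  Or.inr ⟨toLF [(.E, [2, 0, 4]), (.E, [1, 2, 4, 3]), (.T 0, [0, 3, 4]), (.E, [3, 5, 6, 7, 5, 3, 0, 1]), (.T 1, [7, 6, 5])], LMove.mkE 3 1 [5, 6, 7, 5, 3, 0] [2, 4] (toLF [(.T 1, [7, 6, 5]), (.E, [2, 0, 4]), (.T 0, [0, 3, 4])]) _ _ (by decide) (by decide) (by decide) (by decide),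
  lr_I (show LR (↑([0, 1, 2] : List ℕ)) (↑([3, 4, 5, 6, 7] : List ℕ)) (toLF [(.E, [2, 0, 4]), (.E, [1, 2, 4, 3]), (.T 0, [0, 3, 4]), (.E, [3, 5, 6, 7, 5, 3, 0, 1]), (.T 1, [7, 6, 5])]) from lr_comp2 (hL13) [2, 0, 1, 4, 3]
    (show LR (↑([0, 1, 3] : List ℕ)) (↑([5, 6, 7] : List ℕ)) (toLF [(.E, [3, 5, 6, 7, 5, 3, 0, 1]), (.T 1, [7, 6, 5])]) from lr_comp1 (hL0) [3, 0, 1, 5, 6, 7]
      (show LR (↑([5, 7, 6] : List ℕ)) (↑([] : List ℕ)) (toLF [(.T 1, [5, 7, 6])]) from lr_old 1 [5, 7, 6])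
      (by decide) (by decide) (by decide) (by decide))
    (show LR (↑([0, 3, 4] : List ℕ)) (↑([] : List ℕ)) (toLF [(.T 0, [0, 3, 4])]) from lr_old 0 [0, 3, 4])
    (by decide) (by decide) (by decide) (by decide)) (by decide)⟩

end Pool.Agent.H44.DG
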