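import Pool.Agent.H44.DG.Check

/-! Helper lemmas for the case table. -/

namespace Pool.Agent.H44.DG

lemma LMove.mkE (u v : ℕ) (l m : List ℕ) (G L L' : LF)
    (h1 : L = (Tag.E, (↑(u :: (l ++ v :: m)) : Cycle ℕ)) ::ₘ G)
    (h2 : L' = (Tag.E, (↑(u :: (l ++ [v])) : Cycle ℕ)) ::ₘ (Tag.E, (↑(v :: (m ++ [u])) : Cycle ℕ)) ::ₘ G)
    (huv : u ≠ v) (hadj : ¬ LAdj L u v) : LMove L L' := by
  subst h1 h2
  exact LMove.E u v l m G huv hadj

lemma LMove.mkR (k u v : ℕ) (l m : List ℕ) (G L L' : LF)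
    (h1 : L = (Tag.R k, (↑(u :: (l ++ v :: m)) : Cycle ℕ)) ::ₘ G)
    (h2 : L' = (Tag.R k, (↑(u :: (l ++ [v])) : Cycle ℕ)) ::ₘ (Tag.E, (↑(v :: (m ++ [u])) : Cycle ℕ)) ::ₘ G)
    (huv : u ≠ v) (hadj : ¬ LAdj L u v) : LMove L L' := by
  subst h1 h2
  exact LMove.R k u v l m G huv hadj

/-- the open pictures by number -/
def opS (k : ℕ) : ℕ × List ℕ × List (Tag × List ℕ) := openList.getD k (3, [0, 1, 2], [])

lemma opS_mem (k : ℕ) : ((opS k).1, (opS k).2.1, (opS k).2.2) ∈ openList := by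
  show opS k ∈ openList
  unfold opS
  rw [List.getD_eq_getElem?_getD]
  rcases h : openList[k]? with _ | S
  · simp [openList]
  · exact List.mem_of_getElem? h

/-- every filled triangle of `L` is, after relabelling, the boundary of the corresponding part -/
def okT (lab : List ℕ) (ws : List (Cycle ℕ)) (L : LL) : Bool :=
  L.all fun x => match x.1 with
    | .T i => decide (i < ws.length) && decide ((↑(x.2.map fun j => lab.getD j 0) : Cycle ℕ) = ws.getD i Cycle.nil)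
    | _ => true

lemma okT_spec {lab : List ℕ} {ws : List (Cycle ℕ)} {L : LL} (h : okT lab ws L = true) {i : ℕ} {w : Cycle ℕ}
    (hw : (Tag.T i, w) ∈ toLF L) : i < ws.length ∧ w.map (fun j => lab.getD j 0) = ws.getD i Cycle.nil := by
  obtain ⟨⟨tag, w'⟩, hx, hx'⟩ := mem_toLF.1 hw
  simp only [Prod.mk.injEq] at hx'
  obtain ⟨rfl, rfl⟩ := hx'
  have := List.all_eq_true.1 h _ hx
  simp only [Bool.and_eq_true, decide_eq_true_eq] at this
  exact ⟨this.1, this.2⟩

theorem lr_old (i : ℕ) (w : List ℕ) : LR ↑w (↑([] : List ℕ)) (toLF [(.T i, w)]) := LR.old i ↑w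

theorem lr_I {o : Cycle ℕ} {I I' : Multiset ℕ} {L : LF} (h : LR o I L) (hI : I = I') : LR o I' L := hI ▸ h

theorem lr_IL {o : Cycle ℕ} {I I' : Multiset ℕ} {L L' : LF} (h : LR o I L) (hI : I = I') (hL : L = L') :
    LR o I' L' := hI ▸ hL ▸ h

theorem lr_opnG (k : ℕ) (t : Tag) (ht : t = .E ∨ ∃ k, t = .R k) (lab : List ℕ) (ws : List (Cycle ℕ))
    (Is : List (Multiset ℕ)) (Ls : List LF)
    (hsub : ∀ j < ws.length, LR (ws.getD j Cycle.nil) (Is.getD j 0) (Ls.getD j 0))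
    {o : Cycle ℕ} {I : Multiset ℕ} {L : LF}
    (hok : okT lab ws (opS k).2.2 = true)
    (ho : (↑[lab.getD 0 0, lab.getD 1 0, lab.getD 2 0] : Cycle ℕ) = o)
    (hI : ((inner (opS k).1).map (fun j => lab.getD j 0) : Multiset ℕ) +
      (toLF (opS k).2.2).bind (subI fun i => Is.getD i 0) = I)
    (hL : (toLF ((.R 0, (opS k).2.1) :: (opS k).2.2)).bind (sub1 (fun j => lab.getD j 0) t fun i => Ls.getD i 0) = L) :
    LR o I L := by
  subst ho hI hL
  refine LR.opn _ _ _ (opS_mem k) t ht (fun j => lab.getD j 0) (fun i => Is.getD i 0) (fun i => Ls.getD i 0) ?_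
  intro i w hw
  obtain ⟨h1, h2⟩ := okT_spec hok hw
  rw [h2]
  exact hsub i h1

theorem lr_opn0 (k : ℕ) (hk : okT [] [] (opS k).2.2 = true) (t : Tag) (ht : t = .E ∨ ∃ k, t = .R k) (lab : List ℕ)
    {o : Cycle ℕ} {I : Multiset ℕ} {L : LF}
    (ho : (↑[lab.getD 0 0, lab.getD 1 0, lab.getD 2 0] : Cycle ℕ) = o)
    (hI : ((inner (opS k).1).map (fun j => lab.getD j 0) : Multiset ℕ) = I)
    (hL : (toLF ((.R 0, (opS k).2.1) :: (opS k).2.2)).bind (sub1 (fun j => lab.getD j 0) t fun _ => 0) = L) :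
    LR o I L := by
  subst ho hI hL
  have hT : ∀ i w, (Tag.T i, w) ∈ toLF (opS k).2.2 → False := by
    intro i w hw
    have := (okT_spec hk hw).1
    simp at this
  have h := LR.opn _ _ _ (opS_mem k) t ht (fun j => lab.getD j 0) (fun _ => 0) (fun _ => 0)
    (fun i w hw => (hT i w hw).elim)
  have e : (toLF (opS k).2.2).bind (subI fun _ => 0) = 0 := by
    rw [Multiset.bind_congr (g := fun _ => 0), Multiset.bind_zero]
    rintro ⟨tag, w⟩ _
    cases tag <;> rfl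
  rw [e, add_zero] at h
  exact h

theorem lr_opn1 (k : ℕ) (t : Tag) (ht : t = .E ∨ ∃ k, t = .R k) (lab : List ℕ)
    {w0 : Cycle ℕ} {I0 : Multiset ℕ} {L0 : LF} (p0 : LR w0 I0 L0)
    {o : Cycle ℕ} {I : Multiset ℕ} {L : LF}
    (hok : okT lab [w0] (opS k).2.2 = true)
    (ho : (↑[lab.getD 0 0, lab.getD 1 0, lab.getD 2 0] : Cycle ℕ) = o)
    (hI : ((inner (opS k).1).map (fun j => lab.getD j 0) : Multiset ℕ) +
      (toLF (opS k).2.2).bind (subI fun i => [I0].getD i 0) = I)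
    (hL : (toLF ((.R 0, (opS k).2.1) :: (opS k).2.2)).bind (sub1 (fun j => lab.getD j 0) t fun i => [L0].getD i 0) = L) :
    LR o I L := by
  refine lr_opnG k t ht lab [w0] [I0] [L0] ?_ hok ho hI hL
  intro j hj
  simp only [List.length_cons, List.length_nil, zero_add, Nat.lt_one_iff] at hj
  subst hj
  exact p0

theorem lr_compG {n : ℕ} {S : LL} (hS : CompOK n (toLF S)) (lab : List ℕ) (ws : List (Cycle ℕ))
    (Is : List (Multiset ℕ)) (Ls : List LF)
    (hsub : ∀ j < ws.length, LR (ws.getD j Cycle.nil) (Is.getD j 0) (Ls.getD j 0))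
    {o : Cycle ℕ} {I : Multiset ℕ} {L : LF}
    (hok : okT lab ws S = true)
    (ho : (↑[lab.getD 0 0, lab.getD 1 0, lab.getD 2 0] : Cycle ℕ) = o)
    (hI : ((inner n).map (fun j => lab.getD j 0) : Multiset ℕ) + (toLF S).bind (subI fun i => Is.getD i 0) = I)
    (hL : (toLF S).bind (sub1 (fun j => lab.getD j 0) .E fun i => Ls.getD i 0) = L) :
    LR o I L := by
  subst ho hI hL
  refine LR.comp n _ hS (fun j => lab.getD j 0) (fun i => Is.getD i 0) (fun i => Ls.getD i 0) ?_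
  intro i w hw
  obtain ⟨h1, h2⟩ := okT_spec hok hw
  rw [h2]
  exact hsub i h1

theorem lr_comp1 {n : ℕ} {S : LL} (hS : CompOK n (toLF S)) (lab : List ℕ)
    {w0 : Cycle ℕ} {I0 : Multiset ℕ} {L0 : LF} (p0 : LR w0 I0 L0)
    {o : Cycle ℕ} {I : Multiset ℕ} {L : LF}
    (hok : okT lab [w0] S = true)
    (ho : (↑[lab.getD 0 0, lab.getD 1 0, lab.getD 2 0] : Cycle ℕ) = o)
    (hI : ((inner n).map (fun j => lab.getD j 0) : Multiset ℕ) + (toLF S).bind (subI fun i => [I0].getD i 0) = I)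
    (hL : (toLF S).bind (sub1 (fun j => lab.getD j 0) .E fun i => [L0].getD i 0) = L) :
    LR o I L := by
  refine lr_compG hS lab [w0] [I0] [L0] ?_ hok ho hI hL
  intro j hj
  simp only [List.length_cons, List.length_nil, zero_add, Nat.lt_one_iff] at hj
  subst hj
  exact p0

theorem lr_comp2 {n : ℕ} {S : LL} (hS : CompOK n (toLF S)) (lab : List ℕ)
    {w0 w1 : Cycle ℕ} {I0 I1 : Multiset ℕ} {L0 L1 : LF} (p0 : LR w0 I0 L0) (p1 : LR w1 I1 L1)
    {o : Cycle ℕ} {I : Multiset ℕ} {L : LF}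
    (hok : okT lab [w0, w1] S = true)
    (ho : (↑[lab.getD 0 0, lab.getD 1 0, lab.getD 2 0] : Cycle ℕ) = o)
    (hI : ((inner n).map (fun j => lab.getD j 0) : Multiset ℕ) + (toLF S).bind (subI fun i => [I0, I1].getD i 0) = I)
    (hL : (toLF S).bind (sub1 (fun j => lab.getD j 0) .E fun i => [L0, L1].getD i 0) = L) :
    LR o I L := by
  refine lr_compG hS lab [w0, w1] [I0, I1] [L0, L1] ?_ hok ho hI hL
  intro j hj
  simp only [List.length_cons, List.length_nil, zero_add] at hj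
  interval_cases j
  · exact p0
  · exact p1

theorem lr_comp3 {n : ℕ} {S : LL} (hS : CompOK n (toLF S)) (lab : List ℕ)
    {w0 w1 w2 : Cycle ℕ} {I0 I1 I2 : Multiset ℕ} {L0 L1 L2 : LF} (p0 : LR w0 I0 L0) (p1 : LR w1 I1 L1)
    (p2 : LR w2 I2 L2) {o : Cycle ℕ} {I : Multiset ℕ} {L : LF}
    (hok : okT lab [w0, w1, w2] S = true)
    (ho : (↑[lab.getD 0 0, lab.getD 1 0, lab.getD 2 0] : Cycle ℕ) = o)
    (hI : ((inner n).map (fun j => lab.getD j 0) : Multiset ℕ) +
      (toLF S).bind (subI fun i => [I0, I1, I2].getD i 0) = I)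
    (hL : (toLF S).bind (sub1 (fun j => lab.getD j 0) .E fun i => [L0, L1, L2].getD i 0) = L) :
    LR o I L := by
  refine lr_compG hS lab [w0, w1, w2] [I0, I1, I2] [L0, L1, L2] ?_ hok ho hI hL
  intro j hj
  simp only [List.length_cons, List.length_nil, zero_add] at hj
  interval_cases j
  · exact p0
  · exact p1
  · exact p2

end Pool.Agent.H44.DG
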