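import Pool.Agent.H44.DG.Targets
import Pool.Agent.H33.DG.DEC

/-! A verified checker for `CompOK`. -/

namespace Pool.Agent.H44.DG

/-- list form of labelled pictures -/
abbrev LL := List (Tag × List ℕ)

/-- the splits of a walk with first corner `u`, prefix `p` -/
def spl2 (p : List ℕ) (u : ℕ) : List ℕ → List ℕ → List (ℕ × ℕ × List ℕ × List ℕ)
  | _, [] => []
  | l, v :: q => (u, v, u :: (l ++ [v]), v :: ((q ++ p) ++ [u])) :: spl2 p u (l ++ [v]) q

/-- all splits of a walk -/
def spl1 : List ℕ → List ℕ → List (ℕ × ℕ × List ℕ × List ℕ)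
  | _, [] => []
  | p, u :: t => spl2 p u [] t ++ spl1 (p ++ [u]) t

/-- adjacency mask -/
def maskW (m : ℕ) : List (ℕ × ℕ) → ℕ
  | [] => m
  | d :: t => maskW (m ||| (1 <<< (8 * d.1 + d.2)) ||| (1 <<< (8 * d.2 + d.1))) t

/-- adjacency mask of a picture -/
def mask : LL → ℕ
  | [] => 0
  | x :: t => maskW (mask t) (cprs x.2)

/-- adjacency by mask -/
def adjB (m u v : ℕ) : Bool := Nat.testBit m (8 * u + v)

/-- search for a decorated path -/
def dfs (m : ℕ) (B : ℕ) : ℕ → ℕ → List ℕ → List (ℕ × List ℕ) → Bool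
  | 0, _, _, _ => false
  | k + 1, x, rem, rt =>
    match rem with
    | [] => (rt.isEmpty && adjB m x B) || (match rt with
        | [t] => x != B && t.2.contains x && t.2.contains B
        | _ => false)
    | _ => rem.any fun y => (adjB m x y && dfs m B k y (rem.erase y) rt) ||
        rt.any fun t => x != y && t.2.contains x && t.2.contains y && dfs m B k y (rem.erase y) (rt.erase t)

/-- the filled triangles -/
def tsOf : LL → List (ℕ × List ℕ)
  | [] => []
  | (.T i, w) :: t => (i, w) :: tsOf t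
  | (.E, _) :: t => tsOf t
  | (.R _, _) :: t => tsOf t

/-- all three decorated paths exist -/
def pathB (n : ℕ) (L : LL) : Bool :=
  let m := mask L
  let ts := tsOf L
  let r := inner n
  dfs m 1 (n + 1) 0 r ts && dfs m 2 (n + 1) 1 r ts && dfs m 0 (n + 1) 2 r ts

/-- all chords in empty faces -/
def movesF (m : ℕ) (pre : LL) : LL → List LL
  | [] => []
  | (.E, w) :: t => ((spl1 [] w).filter fun s => s.1 != s.2.1 && !adjB m s.1 s.2.1).map
      (fun s => (.E, s.2.2.1) :: (.E, s.2.2.2) :: (pre ++ t)) ++ movesF m (pre ++ [(.E, w)]) t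
  | (.R k, w) :: t => movesF m (pre ++ [(.R k, w)]) t
  | (.T k, w) :: t => movesF m (pre ++ [(.T k, w)]) t

/-- check of robustness -/
def robB (n : ℕ) : ℕ → LL → Bool
  | 0, L => pathB n L
  | k + 1, L => pathB n L || (match movesF (mask L) [] L with
      | [] => false
      | a :: ms => (a :: ms).all (robB n k))

lemma mem_spl2 {p : List ℕ} {u : ℕ} (l' : List ℕ) : ∀ (l r : List ℕ) (v : ℕ) (q : List ℕ), r = l' ++ v :: q →
    (u, v, u :: ((l ++ l') ++ [v]), v :: ((q ++ p) ++ [u])) ∈ spl2 p u l r := by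
  induction l' with
  | nil =>
    rintro l r v q rfl
    simp [spl2]
  | cons a l' ih =>
    rintro l r v q rfl
    simp only [List.cons_append, spl2, List.mem_cons]
    right
    have := ih (l ++ [a]) (l' ++ v :: q) v q rfl
    simpa using this

lemma mem_spl1 (p' : List ℕ) : ∀ (p r : List ℕ) (u : ℕ) (l : List ℕ) (v : ℕ) (q : List ℕ),
    r = p' ++ u :: (l ++ v :: q) → (u, v, u :: (l ++ [v]), v :: ((q ++ (p ++ p')) ++ [u])) ∈ spl1 p r := by
  induction p' with
  | nil =>
    rintro p r u l v q rfl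
    simp only [List.nil_append, spl1, List.mem_append]
    left
    have := mem_spl2 (p := p) (u := u) l [] (l ++ v :: q) v q rfl
    simpa using this
  | cons a p' ih =>
    rintro p r u l v q rfl
    simp only [List.cons_append, spl1, List.mem_append]
    right
    have := ih (p ++ [a]) (p' ++ u :: (l ++ v :: q)) u l v q rfl
    simpa using this

lemma of_mem_spl2 {p : List ℕ} {u : ℕ} : ∀ (r l : List ℕ) (s : ℕ × ℕ × List ℕ × List ℕ), s ∈ spl2 p u l r →
    ∃ v l' q, r = l' ++ v :: q ∧ s = (u, v, u :: ((l ++ l') ++ [v]), v :: ((q ++ p) ++ [u])) := by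
  intro r
  induction r with
  | nil => intro l s hs; simp [spl2] at hs
  | cons a r ih =>
    intro l s hs
    simp only [spl2, List.mem_cons] at hs
    rcases hs with rfl | hs
    · exact ⟨a, [], r, rfl, by simp⟩
    · obtain ⟨v, l', q, h1, h2⟩ := ih _ _ hs
      exact ⟨v, a :: l', q, by rw [h1]; rfl, by rw [h2]; simp⟩

lemma of_mem_spl1 : ∀ (r p : List ℕ) (s : ℕ × ℕ × List ℕ × List ℕ), s ∈ spl1 p r →
    ∃ p' u l v q, r = p' ++ u :: (l ++ v :: q) ∧
      s = (u, v, u :: (l ++ [v]), v :: ((q ++ (p ++ p')) ++ [u])) := by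
  intro r
  induction r with
  | nil => intro p s hs; simp [spl1] at hs
  | cons a r ih =>
    intro p s hs
    simp only [spl1, List.mem_append] at hs
    rcases hs with hs | hs
    · obtain ⟨v, l', q, h1, h2⟩ := of_mem_spl2 _ _ _ hs
      exact ⟨[], a, l', v, q, by rw [h1]; rfl, by rw [h2]; simp⟩
    · obtain ⟨p', u, l, v, q, h1, h2⟩ := ih _ _ hs
      exact ⟨a :: p', u, l, v, q, by rw [h1]; rfl, by rw [h2]; simp⟩

lemma testBit_maskW (k : ℕ) : ∀ (ds : List (ℕ × ℕ)) (m : ℕ),
    Nat.testBit (maskW m ds) k = true ↔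
      Nat.testBit m k = true ∨ ∃ d ∈ ds, 8 * d.1 + d.2 = k ∨ 8 * d.2 + d.1 = k := by
  intro ds
  induction ds with
  | nil => intro m; simp [maskW]
  | cons d t ih =>
    intro m
    rw [maskW, ih]
    simp only [Nat.testBit_lor, Bool.or_eq_true, Nat.one_shiftLeft, Nat.testBit_two_pow, decide_eq_true_eq,
      List.mem_cons, exists_eq_or_imp, or_assoc]

/-- all labels are below 8 -/
def Lab8 (L : LL) : Prop := ∀ x ∈ L, ∀ i ∈ x.2, i < 8

lemma mem_toLF {L : LL} {x : Tag × Cycle ℕ} : x ∈ toLF L ↔ ∃ y ∈ L, (y.1, (y.2 : Cycle ℕ)) = x := by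
  simp [toLF]

lemma ladj_toLF {L : LL} {u v : ℕ} :
    LAdj (toLF L) u v ↔ ∃ x ∈ L, (u, v) ∈ cprs x.2 ∨ (v, u) ∈ cprs x.2 := by
  unfold LAdj
  constructor
  · rintro ⟨x, hx, h⟩
    obtain ⟨y, hy, rfl⟩ := mem_toLF.1 hx
    simp only [mem_cdarts, isDart_coe] at h
    exact ⟨y, hy, h⟩
  · rintro ⟨y, hy, h⟩
    refine ⟨(y.1, ↑y.2), mem_toLF.2 ⟨y, hy, rfl⟩, ?_⟩
    simp only [mem_cdarts, isDart_coe]
    exact h

lemma mem_of_mem_prs {L : List ℕ} {d : ℕ × ℕ} (h : d ∈ prs L) : d.1 ∈ L ∧ d.2 ∈ L := by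
  obtain ⟨A, B, rfl⟩ := mem_prs.1 (show (d.1, d.2) ∈ prs L from h)
  simp

lemma mem_of_mem_cprs {L : List ℕ} {d : ℕ × ℕ} (h : d ∈ cprs L) : d.1 ∈ L ∧ d.2 ∈ L := by
  rcases L with _ | ⟨a, _ | ⟨b, L⟩⟩
  · simp at h
  · simp at h
  · have := mem_of_mem_prs h
    simp only [List.mem_cons, List.mem_append, List.not_mem_nil, or_false] at this ⊢
    tauto

lemma adjB_mask {u v : ℕ} (hv : v < 8) (hu : u < 8) : ∀ {L : LL}, Lab8 L →
    (adjB (mask L) u v = true ↔ LAdj (toLF L) u v) := by
  intro L hL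
  rw [ladj_toLF]
  unfold adjB
  induction L with
  | nil => simp [mask]
  | cons x t ih =>
    rw [mask, testBit_maskW, ih (fun y hy => hL y (List.mem_cons_of_mem _ hy))]
    simp only [List.mem_cons, exists_eq_or_imp]
    have key : (∃ d ∈ cprs x.2, 8 * d.1 + d.2 = 8 * u + v ∨ 8 * d.2 + d.1 = 8 * u + v) ↔
        ((u, v) ∈ cprs x.2 ∨ (v, u) ∈ cprs x.2) := by
      constructor
      · rintro ⟨⟨a, b⟩, hd, h⟩
        have hm := mem_of_mem_cprs hd
        have ha := hL x (by simp) a hm.1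
        have hb := hL x (by simp) b hm.2
        simp only at h ha hb
        rcases h with h | h
        · left
          have h1 : a = u := by omega
          have h2 : b = v := by omega
          rw [← h1, ← h2]; exact hd
        · right
          have h1 : b = u := by omega
          have h2 : a = v := by omega
          rw [← h1, ← h2]; exact hd
      · rintro (h | h)
        · exact ⟨_, h, Or.inl rfl⟩
        · exact ⟨_, h, Or.inr rfl⟩
    rw [key]
    exact or_comm

lemma mem_tsOf {L : LL} {t : ℕ × List ℕ} : t ∈ tsOf L ↔ (Tag.T t.1, t.2) ∈ L := by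
  induction L with
  | nil => simp [tsOf]
  | cons x L ih =>
    obtain ⟨tag, w⟩ := x
    cases tag with
    | E => simp [tsOf, ih]
    | R k => simp [tsOf, ih]
    | T i =>
      simp only [tsOf, List.mem_cons, ih, Prod.mk.injEq, Tag.T.injEq]
      constructor
      · rintro (h | h)
        · left; rw [h]; simp
        · exact Or.inr h
      · rintro (h | h)
        · left; exact Prod.ext h.1 h.2
        · exact Or.inr h

lemma tags_toLF (L : LL) : tags (toLF L) = ↑((tsOf L).map Prod.fst) := by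
  unfold tags toLF
  rw [Multiset.filterMap_coe]
  congr 1
  induction L with
  | nil => rfl
  | cons x L ih =>
    obtain ⟨tag, w⟩ := x
    cases tag <;> simp [tsOf, ih]

lemma dfs_sound {L : LL} (hL : Lab8 L) {B : ℕ} (hB : B < 8) : ∀ (k x : ℕ) (rem : List ℕ) (rt : List (ℕ × List ℕ)),
    dfs (mask L) B k x rem rt = true → x < 8 → (∀ y ∈ rem, y < 8) → (∀ t ∈ rt, (Tag.T t.1, t.2) ∈ L) →
    ∃ (q : List (Option ℕ × ℕ)) (o : Option ℕ), ChainOK (toLF L) x (q ++ [(o, B)]) ∧ (q.map Prod.snd).Perm rem ∧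
      ((q.map Prod.fst ++ [o]).reduceOption).Perm (rt.map Prod.fst) := by
  intro k
  induction k with
  | zero => intro x rem rt h; simp [dfs] at h
  | succ k ih =>
    intro x rem rt h hx hrem hrt
    cases rem with
    | nil =>
      simp only [dfs, Bool.or_eq_true, Bool.and_eq_true] at h
      rcases h with ⟨h1, h2⟩ | h
      · refine ⟨[], none, ⟨?_, trivial⟩, by simp, ?_⟩
        · exact (adjB_mask hB hx hL).1 h2
        · rw [List.isEmpty_iff] at h1
          subst h1
          simp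
      · rcases rt with _ | ⟨t, _ | ⟨t', rt⟩⟩
        · simp at h
        · simp only [Bool.and_eq_true, bne_iff_ne, ne_eq, List.contains_iff_mem] at h
          refine ⟨[], some t.1, ⟨?_, trivial⟩, by simp, by simp⟩
          refine ⟨h.1.1, (Tag.T t.1, ↑t.2), mem_toLF.2 ⟨_, hrt t (by simp), rfl⟩, rfl, ?_, ?_⟩
          · exact Cycle.mem_coe_iff.2 h.1.2
          · exact Cycle.mem_coe_iff.2 h.2
        · simp at h
    | cons r0 rem0 =>
      set rem := r0 :: rem0 with hremdef
      have h' : (rem.any fun y => (adjB (mask L) x y && dfs (mask L) B k y (rem.erase y) rt) ||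
        rt.any fun t => x != y && t.2.contains x && t.2.contains y &&
          dfs (mask L) B k y (rem.erase y) (rt.erase t)) = true := by
        simpa [dfs, hremdef] using h
      rw [List.any_eq_true] at h'
      obtain ⟨y, hy, h'⟩ := h'
      rw [Bool.or_eq_true] at h'
      have hrem' : ∀ z ∈ rem.erase y, z < 8 := fun z hz => hrem z (List.mem_of_mem_erase hz)
      rcases h' with h' | h'
      · rw [Bool.and_eq_true] at h'
        obtain ⟨q, o, h1, h2, h3⟩ := ih y (rem.erase y) rt h'.2 (hrem y hy) hrem' hrt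
        refine ⟨(none, y) :: q, o, ⟨?_, h1⟩, ?_, ?_⟩
        · exact (adjB_mask (hrem y hy) hx hL).1 h'.1
        · exact (h2.cons y).trans (List.perm_cons_erase hy).symm
        · simpa [List.reduceOption] using h3
      · rw [List.any_eq_true] at h'
        obtain ⟨t, ht, h'⟩ := h'
        simp only [Bool.and_eq_true, bne_iff_ne, ne_eq, List.contains_iff_mem] at h'
        obtain ⟨⟨⟨h4, h5⟩, h6⟩, h7⟩ := h'
        obtain ⟨q, o, h1, h2, h3⟩ := ih y (rem.erase y) (rt.erase t) h7 (hrem y hy) hrem'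
          (fun t' ht' => hrt t' (List.mem_of_mem_erase ht'))
        refine ⟨(some t.1, y) :: q, o, ⟨?_, h1⟩, ?_, ?_⟩
        · exact ⟨h4, (Tag.T t.1, ↑t.2), mem_toLF.2 ⟨_, hrt t ht, rfl⟩, rfl, Cycle.mem_coe_iff.2 h5,
            Cycle.mem_coe_iff.2 h6⟩
        · exact (h2.cons y).trans (List.perm_cons_erase hy).symm
        · have : (((some t.1, y) :: q).map Prod.fst ++ [o]).reduceOption
              = t.1 :: (q.map Prod.fst ++ [o]).reduceOption := by
            simp [List.reduceOption]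
          rw [this]
          have h8 : (rt.map Prod.fst).Perm (t.1 :: (rt.erase t).map Prod.fst) := by
            have := (List.perm_cons_erase ht).map Prod.fst
            simpa using this
          exact (h3.cons t.1).trans h8.symm

lemma path_sound {n : ℕ} (hn : n ≤ 8) {L : LL} (hL : Lab8 L) (h : pathB n L = true) : PathOK n (toLF L) := by
  simp only [pathB, Bool.and_eq_true] at h
  obtain ⟨⟨h1, h2⟩, h3⟩ := h
  have hin : ∀ y ∈ inner n, y < 8 := by
    intro y hy
    have := List.mem_of_mem_drop hy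
    rw [List.mem_range] at this
    omega
  have hts : ∀ t ∈ tsOf L, (Tag.T t.1, t.2) ∈ L := fun t ht => mem_tsOf.1 ht
  have key : ∀ A B, A < 8 → B < 8 → dfs (mask L) B (n + 1) A (inner n) (tsOf L) = true → PathAB n (toLF L) A B := by
    intro A B hA hB hd
    obtain ⟨q, o, h1, h2, h3⟩ := dfs_sound hL hB _ _ _ _ hd hA hin hts
    refine ⟨q, o, h1, h2, ?_⟩
    rw [tags_toLF]
    exact Multiset.coe_eq_coe.2 h3
  exact ⟨key 0 1 (by norm_num) (by norm_num) h1, key 1 2 (by norm_num) (by norm_num) h2,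
    key 2 0 (by norm_num) (by norm_num) h3⟩

lemma toLF_cons (x : Tag × List ℕ) (L : LL) : toLF (x :: L) = (x.1, (x.2 : Cycle ℕ)) ::ₘ toLF L := rfl

lemma toLF_append (L L' : LL) : toLF (L ++ L') = toLF L + toLF L' := by
  simp [toLF]

lemma movesF_spec (m : ℕ) : ∀ (t pre : LL) (L' : LL), L' ∈ movesF m pre t ↔
    ∃ (t1 t2 : LL) (w : List ℕ), t = t1 ++ (.E, w) :: t2 ∧ ∃ s ∈ spl1 [] w, s.1 ≠ s.2.1 ∧ adjB m s.1 s.2.1 = false ∧
      L' = (.E, s.2.2.1) :: (.E, s.2.2.2) :: (pre ++ t1 ++ t2) := by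
  intro t
  induction t with
  | nil => intro pre L'; simp [movesF]
  | cons x t ih =>
    intro pre L'
    obtain ⟨tag, w⟩ := x
    have step : (L' ∈ movesF m (pre ++ [(tag, w)]) t ↔ ∃ (t1 t2 : LL) (w' : List ℕ), t = t1 ++ (.E, w') :: t2 ∧
        ∃ s ∈ spl1 [] w', s.1 ≠ s.2.1 ∧ adjB m s.1 s.2.1 = false ∧
        L' = (.E, s.2.2.1) :: (.E, s.2.2.2) :: (pre ++ ((tag, w) :: t1) ++ t2)) := by
      rw [ih]
      simp
    cases tag with
    | E =>
      simp only [movesF, List.mem_append, List.mem_map, List.mem_filter, Bool.and_eq_true, bne_iff_ne, ne_eq,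
        Bool.not_eq_true']
      rw [step]
      constructor
      · rintro (⟨s, ⟨hs, h1, h2⟩, rfl⟩ | ⟨t1, t2, w', ht, h⟩)
        · exact ⟨[], t, w, rfl, s, hs, h1, h2, by simp⟩
        · exact ⟨(.E, w) :: t1, t2, w', by rw [ht]; rfl, h⟩
      · rintro ⟨t1, t2, w', ht, s, hs, h1, h2, h3⟩
        rcases t1 with _ | ⟨y, t1⟩
        · simp only [List.nil_append, List.cons.injEq, Prod.mk.injEq, true_and] at ht
          left
          refine ⟨s, ⟨by rw [ht.1]; exact hs, h1, h2⟩, ?_⟩
          rw [h3, ht.2]; simp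
        · simp only [List.cons_append, List.cons.injEq] at ht
          right
          exact ⟨t1, t2, w', ht.2, s, hs, h1, h2, by rw [h3, ht.1]⟩
    | R k =>
      simp only [movesF]
      rw [step]
      constructor
      · rintro ⟨t1, t2, w', ht, h⟩
        exact ⟨(.R k, w) :: t1, t2, w', by rw [ht]; rfl, h⟩
      · rintro ⟨t1, t2, w', ht, s, hs, h1, h2, h3⟩
        rcases t1 with _ | ⟨y, t1⟩
        · simp at ht
        · simp only [List.cons_append, List.cons.injEq] at ht
          exact ⟨t1, t2, w', ht.2, s, hs, h1, h2, by rw [h3, ht.1]⟩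
    | T k =>
      simp only [movesF]
      rw [step]
      constructor
      · rintro ⟨t1, t2, w', ht, h⟩
        exact ⟨(.T k, w) :: t1, t2, w', by rw [ht]; rfl, h⟩
      · rintro ⟨t1, t2, w', ht, s, hs, h1, h2, h3⟩
        rcases t1 with _ | ⟨y, t1⟩
        · simp at ht
        · simp only [List.cons_append, List.cons.injEq] at ht
          exact ⟨t1, t2, w', ht.2, s, hs, h1, h2, by rw [h3, ht.1]⟩

lemma rot_split (p l q : List ℕ) (u v : ℕ) :
    (↑(p ++ u :: (l ++ v :: q)) : Cycle ℕ) = ↑(u :: (l ++ v :: (q ++ p))) := by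
  rw [coe_rot]; simp

lemma rot_split' (p l q : List ℕ) (u v : ℕ) :
    (↑(p ++ u :: (l ++ v :: q)) : Cycle ℕ) = ↑(v :: ((q ++ p) ++ u :: l)) := by
  have : p ++ u :: (l ++ v :: q) = (p ++ u :: l) ++ (v :: q) := by simp
  rw [this, coe_rot]; simp

lemma spl1_lab {w : List ℕ} {s : ℕ × ℕ × List ℕ × List ℕ} (hs : s ∈ spl1 [] w) :
    s.1 ∈ w ∧ s.2.1 ∈ w ∧ (∀ i ∈ s.2.2.1, i ∈ w) ∧ ∀ i ∈ s.2.2.2, i ∈ w := by
  obtain ⟨p', u, l, v, q, rfl, rfl⟩ := of_mem_spl1 _ _ _ hs
  refine ⟨by simp, by simp, ?_, ?_⟩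
  · intro i hi
    simp only [List.mem_cons, List.mem_append, List.not_mem_nil, or_false] at hi ⊢
    tauto
  · intro i hi
    simp only [List.nil_append, List.mem_cons, List.mem_append, List.not_mem_nil, or_false] at hi ⊢
    tauto

lemma movesF_sound {L L' : LL} (hL : Lab8 L) (h : L' ∈ movesF (mask L) [] L) :
    LMove (toLF L) (toLF L') ∧ Lab8 L' := by
  obtain ⟨t1, t2, w, hLt, s, hs, h1, h2, rfl⟩ := (movesF_spec _ _ _ _).1 h
  have hlab := spl1_lab hs
  have hw : ∀ i ∈ w, i < 8 := hL (.E, w) (by rw [hLt]; simp)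
  constructor
  · obtain ⟨p', u, l, v, q, rfl, rfl⟩ := of_mem_spl1 _ _ _ hs
    simp only [List.nil_append] at h1 h2 hlab ⊢
    have hnot : ¬ LAdj (toLF L) u v := by
      intro hc
      rw [← adjB_mask (hw v hlab.2.1) (hw u hlab.1) hL] at hc
      rw [hc] at h2
      exact Bool.noConfusion h2
    have e : toLF L = (Tag.E, (↑(u :: (l ++ v :: (q ++ p'))) : Cycle ℕ)) ::ₘ toLF (t1 ++ t2) := by
      rw [hLt, toLF_append, toLF_cons, rot_split, toLF_append]
      simp [Multiset.add_cons]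
    rw [e] at hnot ⊢
    exact LMove.E u v l (q ++ p') _ h1 hnot
  · intro x hx i hi
    simp only [List.mem_cons, List.nil_append, List.mem_append] at hx
    rcases hx with rfl | rfl | hx | hx
    · exact hw i (hlab.2.2.1 i hi)
    · exact hw i (hlab.2.2.2 i hi)
    · exact hL x (by rw [hLt]; simp [hx]) i hi
    · exact hL x (by rw [hLt]; simp [hx]) i hi

lemma movesF_complete {L : LL} {L' : LF} (hL : Lab8 L) (hR : ∀ x ∈ L, ∀ k, x.1 ≠ Tag.R k) (h : LMove (toLF L) L') :
    ∃ L'' ∈ movesF (mask L) [] L, toLF L'' = L' := by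
  generalize hLL : toLF L = LL0 at h
  cases h with
  | R k u v l m G huv hadj =>
    have : (Tag.R k, (↑(u :: (l ++ v :: m)) : Cycle ℕ)) ∈ toLF L := by rw [hLL]; simp
    obtain ⟨y, hy, hy'⟩ := mem_toLF.1 this
    exact absurd (congrArg Prod.fst hy') (hR y hy k)
  | E u v l m G huv hadj =>
    have : (Tag.E, (↑(u :: (l ++ v :: m)) : Cycle ℕ)) ∈ toLF L := by rw [hLL]; simp
    obtain ⟨⟨tag, w⟩, hy, hy'⟩ := mem_toLF.1 this
    simp only [Prod.mk.injEq] at hy'
    obtain ⟨htag, hw⟩ := hy'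
    subst htag
    obtain ⟨t1, t2, hLt⟩ := List.append_of_mem hy
    have hG : toLF (t1 ++ t2) = G := by
      rw [hLt, toLF_append, toLF_cons, Multiset.add_cons] at hLL
      simp only [hw] at hLL
      rw [toLF_append]
      exact (Multiset.cons_inj_right _).1 hLL
    have hmem : ∀ i ∈ w, i < 8 := hL (.E, w) hy
    obtain ⟨hdec, -⟩ := Pool.Agent.H33.DG.DEC.pf_DEC ℕ id w
    obtain ⟨p, l', q, u', v', hr, hcase⟩ := hdec u v l m (by rw [List.map_id]; exact hw.symm)
    have hsp := mem_spl1 p [] w u' l' v' q hr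
    simp only [List.nil_append] at hsp
    have hlab := spl1_lab hsp
    rw [← hLL] at hadj
    rcases hcase with ⟨rfl, rfl, rfl, rfl⟩ | ⟨rfl, rfl, rfl, rfl⟩
    · refine ⟨_, (movesF_spec _ _ _ _).2 ⟨t1, t2, w, hLt, _, hsp, huv, ?_, rfl⟩, ?_⟩
      · rw [Bool.eq_false_iff]
        intro hc
        exact hadj ((adjB_mask (hmem _ hlab.2.1) (hmem _ hlab.1) hL).1 hc)
      · rw [toLF_cons, toLF_cons, List.nil_append, hG]
        simp
    · refine ⟨_, (movesF_spec _ _ _ _).2 ⟨t1, t2, w, hLt, _, hsp, (fun h => huv h.symm), ?_, rfl⟩, ?_⟩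
      · rw [Bool.eq_false_iff]
        intro hc
        have := (adjB_mask (hmem _ hlab.2.1) (hmem _ hlab.1) hL).1 hc
        obtain ⟨x, hx, h'⟩ := this
        exact hadj ⟨x, hx, h'.symm⟩
      · rw [toLF_cons, toLF_cons, List.nil_append, hG, Multiset.cons_swap]
        simp

lemma rob_sound {n : ℕ} (hn : n ≤ 8) : ∀ (k : ℕ) {L : LL}, Lab8 L → (∀ x ∈ L, ∀ k, x.1 ≠ Tag.R k) →
    robB n k L = true → Rob n (toLF L) := by
  intro k
  induction k with
  | zero =>
    intro L hL _ h
    exact Rob.path _ (path_sound hn hL h)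
  | succ k ih =>
    intro L hL hR h
    rw [robB, Bool.or_eq_true] at h
    rcases h with h | h
    · exact Rob.path _ (path_sound hn hL h)
    · generalize hms : movesF (mask L) [] L = ms at h
      rcases ms with _ | ⟨a, ms⟩
      · simp at h
      · have hall : ∀ L' ∈ a :: ms, robB n k L' = true := by
          intro L' hL'
          exact List.all_eq_true.1 h L' hL'
        refine Rob.step _ ⟨toLF a, (movesF_sound hL (by rw [hms]; simp)).1⟩ ?_
        intro L' hL'
        obtain ⟨L'', hL'', rfl⟩ := movesF_complete hL hR hL'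
        have hs := movesF_sound hL hL''
        refine ih hs.2 ?_ (hall L'' (by rw [← hms]; exact hL''))
        obtain ⟨t1, t2, w, hLt, s, hs', h1, h2, rfl⟩ := (movesF_spec _ _ _ _).1 hL''
        intro x hx k'
        simp only [List.mem_cons, List.nil_append, List.mem_append] at hx
        rcases hx with rfl | rfl | hx | hx
        · simp
        · simp
        · exact hR x (by rw [hLt]; simp [hx]) k'
        · exact hR x (by rw [hLt]; simp [hx]) k'

/-- a face is admissible: not rich, labels below `n`, triangles are triangles -/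
def faceB (n : ℕ) : Tag × List ℕ → Bool
  | (.E, w) => w.all (· < n)
  | (.R _, _) => false
  | (.T _, [a, b, c]) => a < n && b < n && c < n && a != b && b != c && c != a
  | (.T _, _) => false

/-- the checker -/
def compB (n k : ℕ) (L : LL) : Bool :=
  3 ≤ n && n ≤ 8 && L.all (faceB n) && decide (LAdj (toLF L) 0 1) && decide (LAdj (toLF L) 1 2) &&
    decide (LAdj (toLF L) 2 0) && decide ((tsOf L).map Prod.fst).Nodup && robB n k L

theorem compB_sound {n k : ℕ} {L : LL} (h : compB n k L = true) : CompOK n (toLF L) := by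
  simp only [compB, Bool.and_eq_true, decide_eq_true_eq] at h
  obtain ⟨⟨⟨⟨⟨⟨⟨h1, h2⟩, h3⟩, h4⟩, h5⟩, h6⟩, h7⟩, h8⟩ := h
  rw [List.all_eq_true] at h3
  have hR : ∀ x ∈ L, ∀ k, x.1 ≠ Tag.R k := by
    rintro ⟨tag, w⟩ hx k hk
    have := h3 _ hx
    simp only at hk
    subst hk
    simp [faceB] at this
  have hlab : ∀ x ∈ L, ∀ i ∈ x.2, i < n := by
    rintro ⟨tag, w⟩ hx i hi
    have := h3 _ hx
    cases tag with
    | E =>
      simp only [faceB, List.all_eq_true, decide_eq_true_eq] at this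
      exact this i hi
    | R k => simp [faceB] at this
    | T k =>
      rcases w with _ | ⟨a, _ | ⟨b, _ | ⟨c, _ | ⟨d, w⟩⟩⟩⟩ <;> simp [faceB] at this
      simp only [List.mem_cons, List.not_mem_nil, or_false] at hi
      rcases hi with rfl | rfl | rfl
      · exact this.1.1.1.1.1
      · exact this.1.1.1.1.2
      · exact this.1.1.1.2
  have htri : ∀ x ∈ L, ∀ i, x.1 = Tag.T i → Tri3 (x.2 : Cycle ℕ) := by
    rintro ⟨tag, w⟩ hx i hi
    have := h3 _ hx
    simp only at hi
    subst hi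
    rcases w with _ | ⟨a, _ | ⟨b, _ | ⟨c, _ | ⟨d, w⟩⟩⟩⟩ <;> simp [faceB] at this
    exact ⟨a, b, c, this.1.1.2, this.1.2, this.2, rfl⟩
  have h8' : Lab8 L := fun x hx i hi => lt_of_lt_of_le (hlab x hx i hi) h2
  refine ⟨h1, ?_, ?_, ?_, ⟨h4, h5, h6⟩, ?_, rob_sound h2 k h8' hR h8⟩
  · intro x hx k
    obtain ⟨y, hy, rfl⟩ := mem_toLF.1 hx
    exact hR y hy k
  · intro x hx i hi
    obtain ⟨y, hy, rfl⟩ := mem_toLF.1 hx
    exact hlab y hy i (Cycle.mem_coe_iff.1 hi)
  · intro x hx i hi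
    obtain ⟨y, hy, rfl⟩ := mem_toLF.1 hx
    exact htri y hy i hi
  · rw [tags_toLF]
    exact Multiset.coe_nodup.2 h7

end Pool.Agent.H44.DG
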