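import Pool.Agent.H44.DG.Base

/-! Labelled pictures: finite pictures with labels in `ℕ`, their realisation in a drawing, and the
predicates `Reg` (good states of the inside of a triangle) and `LR` (its label version). -/

namespace Pool.Agent.H44.DG

/-- The kind of a face of a labelled picture: `E`: empty; `R k`: rich, with content number `k`;
`T i`: a triangle filled by the part number `i`. -/
inductive Tag
  | E
  | R (k : ℕ)
  | T (i : ℕ)
  deriving DecidableEq

/-- A labelled picture: faces with one boundary walk each. -/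
abbrev LF := Multiset (Tag × Cycle ℕ)

/-- from lists to labelled pictures -/
def toLF (L : List (Tag × List ℕ)) : LF := ↑(L.map fun x => (x.1, (x.2 : Cycle ℕ)))

/-- darts of a cyclic list -/
def cdarts : Cycle ℕ → Multiset (ℕ × ℕ) :=
  Quotient.lift (fun l : List ℕ => (↑(cprs l) : Multiset (ℕ × ℕ)))
    (fun _ _ h => Multiset.coe_eq_coe.2 (cprs_perm_of_isRotated h))

lemma mem_cdarts {w : Cycle ℕ} {i j : ℕ} : (i, j) ∈ cdarts w ↔ IsDart w i j := by
  induction w using Quotient.inductionOn with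
  | _ l =>
    show (i, j) ∈ cdarts ↑l ↔ IsDart ↑l i j
    rw [isDart_coe]
    exact Multiset.mem_coe

/-- label adjacency -/
def LAdj (L : LF) (i j : ℕ) : Prop := ∃ x ∈ L, (i, j) ∈ cdarts x.2 ∨ (j, i) ∈ cdarts x.2

instance (L : LF) (i j : ℕ) : Decidable (LAdj L i j) :=
  @Multiset.decidableExistsMultiset _ L (fun x => (i, j) ∈ cdarts x.2 ∨ (j, i) ∈ cdarts x.2)
    (fun _ => inferInstance)

/-- moves that are answered or played inside a labelled picture: a chord in an empty face, or a chord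
in a rich face with the whole content on one side -/
inductive LMove : LF → LF → Prop
  | E (u v : ℕ) (l m : List ℕ) (G : LF) (huv : u ≠ v)
      (h : ¬ LAdj ((Tag.E, (↑(u :: (l ++ v :: m)) : Cycle ℕ)) ::ₘ G) u v) :
      LMove ((Tag.E, (↑(u :: (l ++ v :: m)) : Cycle ℕ)) ::ₘ G)
        ((Tag.E, (↑(u :: (l ++ [v])) : Cycle ℕ)) ::ₘ (Tag.E, (↑(v :: (m ++ [u])) : Cycle ℕ)) ::ₘ G)
  | R (k u v : ℕ) (l m : List ℕ) (G : LF) (huv : u ≠ v)
      (h : ¬ LAdj ((Tag.R k, (↑(u :: (l ++ v :: m)) : Cycle ℕ)) ::ₘ G) u v) :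
      LMove ((Tag.R k, (↑(u :: (l ++ v :: m)) : Cycle ℕ)) ::ₘ G)
        ((Tag.R k, (↑(u :: (l ++ [v])) : Cycle ℕ)) ::ₘ (Tag.E, (↑(v :: (m ++ [u])) : Cycle ℕ)) ::ₘ G)

/-- Data for the realisation of a labelled picture. -/
structure Ctx (V : Type*) where
  /-- the vertex with a given label -/
  f : ℕ → V
  /-- the floating boundary walks of content `k` -/
  FL : ℕ → Region V
  /-- the vertices of content `k` -/
  WL : ℕ → Multiset V
  /-- the regions inside content `k` -/
  FI : ℕ → Multiset (Region V)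
  /-- the regions of part `i` -/
  FS : ℕ → Multiset (Region V)
  /-- the interior vertices of part `i` -/
  WS : ℕ → Multiset V

variable {V : Type*}

/-- realisation of one face -/
def real1 (c : Ctx V) : Tag × Cycle ℕ → Multiset (Region V)
  | (.E, w) => {{w.map c.f}}
  | (.R k, w) => (w.map c.f ::ₘ c.FL k) ::ₘ c.FI k
  | (.T i, _) => c.FS i

/-- realisation of a labelled picture -/
def real (c : Ctx V) (L : LF) : Multiset (Region V) := L.bind (real1 c)

/-- the vertices of the contents and parts belonging to one face -/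
def vs1 (c : Ctx V) : Tag × Cycle ℕ → Multiset V
  | (.E, _) => 0
  | (.R k, _) => c.WL k
  | (.T i, _) => c.WS i

/-- the vertices of the contents and parts of a labelled picture -/
def vs (c : Ctx V) (L : LF) : Multiset V := L.bind (vs1 c)

/-- floating isolated points and free edges -/
inductive Floats : Region V → Multiset V → Prop
  | nil : Floats 0 0
  | k1 (v : V) (fl : Region V) (W : Multiset V) (h : Floats fl W) : Floats ((↑[v] : Cycle V) ::ₘ fl) (v ::ₘ W)
  | k2 (v w : V) (fl : Region V) (W : Multiset V) (h : Floats fl W) :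
      Floats ((↑[v, w] : Cycle V) ::ₘ fl) (v ::ₘ w ::ₘ W)

/-- a triangle of labels -/
def Tri3 (w : Cycle ℕ) : Prop := ∃ a b c : ℕ, a ≠ b ∧ b ≠ c ∧ c ≠ a ∧ w = (↑[a, b, c] : Cycle ℕ)

/-- one step of a decorated path: along an edge, or through a filled triangle -/
def StepOK (L : LF) (x : ℕ) : Option ℕ → ℕ → Prop
  | none, y => LAdj L x y
  | some i, y => x ≠ y ∧ ∃ t ∈ L, t.1 = Tag.T i ∧ x ∈ t.2 ∧ y ∈ t.2

/-- a decorated path starting at `x` -/
def ChainOK (L : LF) : ℕ → List (Option ℕ × ℕ) → Prop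
  | _, [] => True
  | x, p :: t => StepOK L x p.1 p.2 ∧ ChainOK L p.2 t

/-- the inner labels of a picture with `n` labels -/
def inner (n : ℕ) : List ℕ := (List.range n).drop 3

/-- the numbers of the filled triangles -/
def tags (L : LF) : Multiset ℕ :=
  L.filterMap fun x => match x.1 with
    | .T i => some i
    | _ => none

/-- there is a decorated path from `A` to `B` through all inner labels that uses every filled triangle exactly once -/
def PathAB (n : ℕ) (L : LF) (A B : ℕ) : Prop :=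
  ∃ (q : List (Option ℕ × ℕ)) (o : Option ℕ), ChainOK L A (q ++ [(o, B)]) ∧ (q.map Prod.snd).Perm (inner n) ∧
    (↑((q.map Prod.fst ++ [o]).reduceOption) : Multiset ℕ) = tags L

/-- decorated paths for all three pairs of corners -/
def PathOK (n : ℕ) (L : LF) : Prop := PathAB n L 0 1 ∧ PathAB n L 1 2 ∧ PathAB n L 2 0

/-- A picture without rich faces is robust if however the empty faces are filled, in the end there are
decorated paths. -/
inductive Rob (n : ℕ) : LF → Prop
  | path (L : LF) (h : PathOK n L) : Rob n L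
  | step (L : LF) (h : ∃ L', LMove L L') (h' : ∀ L', LMove L L' → Rob n L') : Rob n L

/-- Good pictures without rich faces: labels `0, 1, 2` are the corners of the surrounding triangle. -/
structure CompOK (n : ℕ) (L : LF) : Prop where
  three : 3 ≤ n
  noR : ∀ x ∈ L, ∀ k, x.1 ≠ Tag.R k
  lab : ∀ x ∈ L, ∀ i ∈ x.2, i < n
  tri : ∀ x ∈ L, ∀ i, x.1 = Tag.T i → Tri3 x.2
  sides : LAdj L 0 1 ∧ LAdj L 1 2 ∧ LAdj L 2 0
  nd : (tags L).Nodup
  rob : Rob n L

/-- The open pictures: number of labels, walk of the rich face, other faces. -/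
def openList : List (ℕ × List ℕ × List (Tag × List ℕ)) :=
  [ (3, [0, 1, 2], []),
    (4, [0, 1, 2, 0, 3], []),
    (5, [0, 1, 2, 0, 3, 4, 3], []),
    (5, [1, 2, 0, 3, 4], [(.E, [0, 1, 4]), (.T 0, [3, 0, 4])]),
    (5, [0, 1, 2, 4, 3], [(.E, [2, 0, 4]), (.T 0, [0, 3, 4])]),
    (4, [0, 1, 2, 3], [(.E, [2, 0, 3])]) ]

/-- The good states (Spoiler to move) of the inside of a triangle with boundary `o`, interior vertices `W` and
regions `F`. -/
inductive Reg : Cycle V → Multiset V → Multiset (Region V) → Prop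
  | comp (n : ℕ) (L : LF) (hL : CompOK n L) (c : Ctx V)
      (hT : ∀ i w, (Tag.T i, w) ∈ L → Reg (w.map c.f) (c.WS i) (c.FS i)) :
      Reg ↑[c.f 0, c.f 1, c.f 2] (((inner n).map c.f : Multiset V) + vs c L) (real c L)
  | openA (n : ℕ) (r : List ℕ) (base : List (Tag × List ℕ)) (hS : (n, r, base) ∈ openList) (c : Ctx V)
      (hT : ∀ i w, (Tag.T i, w) ∈ toLF base → Reg (w.map c.f) (c.WS i) (c.FS i))
      (hfl : Floats (c.FL 0) (c.WL 0)) (hFI : c.FI 0 = 0) :
      Reg ↑[c.f 0, c.f 1, c.f 2] (((inner n).map c.f : Multiset V) + vs c (toLF ((.R 0, r) :: base)))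
        (real c (toLF ((.R 0, r) :: base)))
  | openB (n : ℕ) (r : List ℕ) (base : List (Tag × List ℕ)) (hS : (n, r, base) ∈ openList) (c : Ctx V)
      (hT : ∀ i w, (Tag.T i, w) ∈ toLF base → Reg (w.map c.f) (c.WS i) (c.FS i))
      (x y z : V) (W' : Multiset V) (hFL : c.FL 0 = {(↑[x, y, z] : Cycle V)})
      (hWL : c.WL 0 = x ::ₘ y ::ₘ z ::ₘ W') (hB : Reg ↑[z, y, x] W' (c.FI 0)) :
      Reg ↑[c.f 0, c.f 1, c.f 2] (((inner n).map c.f : Multiset V) + vs c (toLF ((.R 0, r) :: base)))
        (real c (toLF ((.R 0, r) :: base)))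

/-- the content of a rich face: floating points and edges, or one triangle with everything inside it -/
def Content (fl : Region V) (W : Multiset V) (FI : Multiset (Region V)) : Prop :=
  (Floats fl W ∧ FI = 0) ∨
    ∃ (x y z : V) (W' : Multiset V), fl = {(↑[x, y, z] : Cycle V)} ∧ W = x ::ₘ y ::ₘ z ::ₘ W' ∧ Reg ↑[z, y, x] W' FI

/-- substitution in labelled pictures -/
def sub1 (lab : ℕ → ℕ) (t : Tag) (sL : ℕ → LF) : Tag × Cycle ℕ → LF
  | (.E, w) => {(.E, w.map lab)}
  | (.R _, w) => {(t, w.map lab)}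
  | (.T i, _) => sL i

/-- labels inside the substituted parts -/
def subI (sI : ℕ → Multiset ℕ) : Tag × Cycle ℕ → Multiset ℕ
  | (.T i, _) => sI i
  | _ => 0

/-- The label version of `Reg`: the picture `L` inside the triangle `o` with inner labels `I` is good. -/
inductive LR : Cycle ℕ → Multiset ℕ → LF → Prop
  | old (i : ℕ) (w : Cycle ℕ) : LR w 0 {(.T i, w)}
  | comp (n : ℕ) (S : LF) (hS : CompOK n S) (lab : ℕ → ℕ) (sI : ℕ → Multiset ℕ) (sL : ℕ → LF)
      (h : ∀ i w, (Tag.T i, w) ∈ S → LR (w.map lab) (sI i) (sL i)) :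
      LR ↑[lab 0, lab 1, lab 2] (((inner n).map lab : Multiset ℕ) + S.bind (subI sI)) (S.bind (sub1 lab .E sL))
  | opn (n : ℕ) (r : List ℕ) (base : List (Tag × List ℕ)) (hS : (n, r, base) ∈ openList) (t : Tag)
      (ht : t = .E ∨ ∃ k, t = .R k) (lab : ℕ → ℕ) (sI : ℕ → Multiset ℕ) (sL : ℕ → LF)
      (h : ∀ i w, (Tag.T i, w) ∈ toLF base → LR (w.map lab) (sI i) (sL i)) :
      LR ↑[lab 0, lab 1, lab 2] (((inner n).map lab : Multiset ℕ) + (toLF base).bind (subI sI))
        ((toLF ((.R 0, r) :: base)).bind (sub1 lab t sL))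

/-- the picture is good, or there is a reply that makes it good -/
def Ans (n : ℕ) (L : LF) : Prop :=
  LR ↑[0, 1, 2] ↑(inner n) L ∨ ∃ L', LMove L L' ∧ LR ↑[0, 1, 2] ↑(inner n) L'

/-- validity of a realisation -/
structure COK (c : Ctx V) (N : ℕ) (L : LF) : Prop where
  nodup : (((List.range N).map c.f : Multiset V) + vs c L).Nodup
  lab : ∀ x ∈ L, ∀ i ∈ x.2, i < N
  tri : ∀ x ∈ L, ∀ i, x.1 = Tag.T i → Tri3 x.2
  tloc : ∀ i w, (Tag.T i, w) ∈ L → Loc (fun v => v ∈ w.map c.f) (· ∈ c.WS i) (c.FS i)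
  rloc : ∀ k w, (Tag.R k, w) ∈ L → (∀ u ∈ c.FL k, ∀ v ∈ u, v ∈ c.WL k) ∧ ∀ v, InR (c.FI k) v → v ∈ c.WL k

/-- a path of the drawing -/
def AChain (F : Multiset (Region V)) : V → List V → Prop
  | _, [] => True
  | x, y :: l => Adj F x y ∧ AChain F y l

/-- a Hamiltonian path of the inside `W` between `a` and `b` -/
def HP (F : Multiset (Region V)) (a b : V) (W : Multiset V) : Prop :=
  ∃ l : List V, (l : Multiset V) = W ∧ AChain F a (l ++ [b])

/-- no step is possible -/
def Stuck (F : Multiset (Region V)) : Prop := ∀ F', ¬ LStep F F'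

end Pool.Agent.H44.DG
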