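import Pool.Agent.H44.DG.Cert

/-! Closed pictures (checked by the kernel). -/

set_option maxRecDepth 100000

namespace Pool.Agent.H44.DG

/-- closed picture number 0 -/
def L0 : List (Tag × List ℕ) := [(.E, [0, 1, 2, 0, 3, 4, 5, 3]), (.T 0, [3, 5, 4])]

theorem hL0 : CompOK 6 (toLF L0) := compB_sound (k := 5) (by decide +kernel)

/-- closed picture number 1 -/
def L1 : List (Tag × List ℕ) := [(.E, [0, 1, 3]), (.T 0, [0, 3, 2]), (.T 1, [1, 2, 3])]

theorem hL1 : CompOK 4 (toLF L1) := compB_sound (k := 0) (by decide +kernel)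

/-- closed picture number 2 -/
def L2 : List (Tag × List ℕ) := [(.E, [0, 1, 2, 3]), (.T 0, [0, 3, 2])]

theorem hL2 : CompOK 4 (toLF L2) := compB_sound (k := 1) (by decide +kernel)

/-- closed picture number 3 -/
def L3 : List (Tag × List ℕ) := [(.E, [0, 1, 2, 3, 4, 3]), (.T 0, [0, 3, 2])]

theorem hL3 : CompOK 5 (toLF L3) := compB_sound (k := 3) (by decide +kernel)

/-- closed picture number 4 -/
def L4 : List (Tag × List ℕ) := [(.E, [0, 1, 2, 0, 3, 4]), (.T 0, [0, 4, 3])]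

theorem hL4 : CompOK 5 (toLF L4) := compB_sound (k := 3) (by decide +kernel)

/-- closed picture number 5 -/
def L5 : List (Tag × List ℕ) := [(.E, [0, 1, 2, 3]), (.E, [0, 4, 2]), (.T 0, [0, 3, 4]), (.T 1, [2, 4, 3])]

theorem hL5 : CompOK 5 (toLF L5) := compB_sound (k := 1) (by decide +kernel)

/-- closed picture number 6 -/
def L6 : List (Tag × List ℕ) := [(.E, [0, 1, 3]), (.E, [0, 4, 2]), (.T 0, [0, 3, 4]), (.T 1, [1, 2, 3]), (.T 2, [2, 4, 3])]

theorem hL6 : CompOK 5 (toLF L6) := compB_sound (k := 0) (by decide +kernel)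

/-- closed picture number 7 -/
def L7 : List (Tag × List ℕ) := [(.E, [0, 1, 3]), (.E, [2, 4, 3]), (.T 0, [0, 3, 4]), (.T 1, [0, 4, 2]), (.T 2, [1, 2, 3])]

theorem hL7 : CompOK 5 (toLF L7) := compB_sound (k := 0) (by decide +kernel)

/-- closed picture number 8 -/
def L8 : List (Tag × List ℕ) := [(.E, [0, 1, 3]), (.E, [1, 2, 4, 3]), (.T 0, [0, 3, 4]), (.T 1, [0, 4, 2])]

theorem hL8 : CompOK 5 (toLF L8) := compB_sound (k := 1) (by decide +kernel)

/-- closed picture number 9 -/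
def L9 : List (Tag × List ℕ) := [(.E, [0, 1, 3]), (.E, [0, 4, 3, 2]), (.T 0, [0, 3, 4]), (.T 1, [1, 2, 3])]

theorem hL9 : CompOK 5 (toLF L9) := compB_sound (k := 1) (by decide +kernel)

/-- closed picture number 10 -/
def L10 : List (Tag × List ℕ) := [(.E, [0, 1, 3]), (.E, [1, 2, 3, 4]), (.T 0, [0, 3, 2]), (.T 1, [1, 4, 3])]

theorem hL10 : CompOK 5 (toLF L10) := compB_sound (k := 1) (by decide +kernel)

/-- closed picture number 11 -/
def L11 : List (Tag × List ℕ) := [(.E, [0, 1, 3]), (.E, [2, 3, 4]), (.T 0, [0, 3, 2]), (.T 1, [1, 2, 4]), (.T 2, [1, 4, 3])]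

theorem hL11 : CompOK 5 (toLF L11) := compB_sound (k := 0) (by decide +kernel)

/-- closed picture number 12 -/
def L12 : List (Tag × List ℕ) := [(.E, [0, 1, 3]), (.E, [0, 4, 2]), (.T 0, [0, 3, 4]), (.T 1, [1, 2, 4]), (.T 2, [1, 4, 3])]

theorem hL12 : CompOK 5 (toLF L12) := compB_sound (k := 0) (by decide +kernel)

/-- closed picture number 13 -/
def L13 : List (Tag × List ℕ) := [(.E, [0, 1, 3]), (.E, [0, 3, 4, 2]), (.T 0, [1, 2, 4]), (.T 1, [1, 4, 3])]

theorem hL13 : CompOK 5 (toLF L13) := compB_sound (k := 1) (by decide +kernel)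

/-- closed picture number 14 -/
def L14 : List (Tag × List ℕ) := [(.E, [0, 1, 3]), (.E, [0, 3, 2]), (.T 0, [1, 2, 3])]

theorem hL14 : CompOK 4 (toLF L14) := compB_sound (k := 0) (by decide +kernel)

end Pool.Agent.H44.DG
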