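import Mathlib

/-!
# The Hamiltonian cycle drawing game: the model

A plane drawing on a finite set `V` of points is described, up to homeomorphism, by its edges and by its
regions (connected components of the complement of the drawing).  A region is given by the multiset of its
boundary walks, one for every connected component of the drawing that touches the region; a boundary walk is the
cyclic list of the corners (given by their vertices) met when one walks once around that component inside the
region.  An isolated point inside the region contributes the walk of length one.

Drawing a new curve from `u` to `v` inside a region means: choose a corner at `u` and a corner at `v` of that region.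
* `join`: if the two corners lie on different boundary walks, these two walks are merged and the region
  stays connected;
* `split`: if they lie on the same walk, the region is cut into two regions, and the other boundary
  walks of the region (the other components of the drawing inside it) are distributed among the two new
  regions in any way.
-/

namespace Pool.Agent.H44.DG

/-- A region of a drawing: the multiset of its boundary walks. -/
abbrev Region (V : Type*) := Multiset (Cycle V)

/-- A plane drawing of a graph with vertex set `V`, up to homeomorphism: its edges and its regions. -/
structure Drawing (V : Type*) where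
  /-- the pairs of points that have been joined -/
  edges : Set (Sym2 V)
  /-- the regions, each given by its boundary walks -/
  regions : Multiset (Region V)

/-- The walk around a component that arises by drawing a curve from the corner `u` of the walk `u :: l` to the corner
`v` of the walk `v :: m`: from `u` to `v`, around the second walk back to `v`, back to `u`, around the first
walk.  (An isolated point, given by a walk of length one, has only one corner after the first edge at it.) -/
def joinWalk {V : Type*} (u : V) (l : List V) (v : V) (m : List V) : List V :=
  u :: v :: (m ++ ((if m = [] then [] else [v]) ++ (if l = [] then [] else u :: l)))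

/-- `RegionMove u v Φ Ψ`: a curve from `u` to `v` is drawn inside the region `Φ`; the region is replaced by the
region(s) `Ψ`. -/
inductive RegionMove {V : Type*} (u v : V) : Region V → Multiset (Region V) → Prop
  | join (l m : List V) (R : Region V) :
      RegionMove u v ((↑(u :: l) : Cycle V) ::ₘ (↑(v :: m) : Cycle V) ::ₘ R)
        {(↑(joinWalk u l v m) : Cycle V) ::ₘ R}
  | split (l m : List V) (R₁ R₂ : Region V) :
      RegionMove u v ((↑(u :: (l ++ v :: m)) : Cycle V) ::ₘ (R₁ + R₂))
        {(↑(u :: (l ++ [v])) : Cycle V) ::ₘ R₁, (↑(v :: (m ++ [u])) : Cycle V) ::ₘ R₂}

/-- `Draw D D'`: the drawing `D'` arises from `D` by drawing one legal edge: two different points that are not yet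
joined are joined by a curve inside one region. -/
def Draw {V : Type*} (D D' : Drawing V) : Prop :=
  ∃ u v : V, u ≠ v ∧ s(u, v) ∉ D.edges ∧ D'.edges = insert s(u, v) D.edges ∧
    ∃ (Φ : Region V) (Ψ F : Multiset (Region V)),
      D.regions = Φ ::ₘ F ∧ D'.regions = Ψ + F ∧ RegionMove u v Φ Ψ

/-- The empty drawing on `n` points: no edges, and one region, whose boundary walks are the `n` isolated points. -/
def start (n : ℕ) : Drawing (Fin n) where
  edges := ∅
  regions := {(Finset.univ : Finset (Fin n)).val.map fun v => (↑[v] : Cycle (Fin n))}

/-- The graph of a drawing. -/
def Drawing.graph {V : Type*} (D : Drawing V) : SimpleGraph V := SimpleGraph.fromEdgeSet D.edges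

/-- The two players. -/
inductive Player
  | builder
  | spoiler
  deriving DecidableEq

/-- Who draws next, and how many edges are left in the current turn, after the player `t` has drawn an edge and `k`
further edges remain in her turn.  Builder draws `a` edges per turn and Spoiler `b`. -/
def next (a b : ℕ) : Player → ℕ → Player × ℕ
  | t, k + 1 => (t, k + 1)
  | .builder, 0 => (.spoiler, b)
  | .spoiler, 0 => (.builder, a)

/-- `Wins a b P goal t k D`: in the `a : b` biased game, at the drawing `D`, when the player `t` is to draw
and `k` edges remain in her current turn, the player `P` has a strategy to force that the final drawing satisfies `goal`.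
Play stops when no legal edge exists. -/
inductive Wins {V : Type*} (a b : ℕ) (P : Player) (goal : Drawing V → Prop) : Player × ℕ → Drawing V → Prop
  | over (s : Player × ℕ) (D : Drawing V) (h : ∀ D', ¬ Draw D D') (hg : goal D) : Wins a b P goal s D
  | own (k : ℕ) (D D' : Drawing V) (h : Draw D D') (hw : Wins a b P goal (next a b P k) D') :
      Wins a b P goal (P, k + 1) D
  | opp (t : Player) (ht : t ≠ P) (k : ℕ) (D : Drawing V) (h : ∃ D', Draw D D')
      (hw : ∀ D', Draw D D' → Wins a b P goal (next a b t k) D') : Wins a b P goal (t, k + 1) D

/-- The number of edges a player draws in a full turn. -/
def quota (a b : ℕ) : Player → ℕ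
  | .builder => a
  | .spoiler => b

/-- Builder has a winning strategy in the `a : b` Hamiltonian cycle game on `n` points when `t` moves first. -/
def BuilderWins (a b n : ℕ) (t : Player) : Prop :=
  Wins a b .builder (fun D : Drawing (Fin n) => D.graph.IsHamiltonian) (t, quota a b t) (start n)

/-- Spoiler has a winning strategy in the `a : b` Hamiltonian cycle game on `n` points when `t` moves first. -/
def SpoilerWins (a b n : ℕ) (t : Player) : Prop :=
  Wins a b .spoiler (fun D : Drawing (Fin n) => ¬ D.graph.IsHamiltonian) (t, quota a b t) (start n)

/-- Target of the `1 : 1` side. -/
def T_ONE : Prop := ∀ n : ℕ, 3 ≤ n → ∀ t : Player, BuilderWins 1 1 n t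

/-- Target of the `1 : 2` side. -/
def T_TWO : Prop := ∃ N : ℕ, ∀ n : ℕ, N ≤ n → ∀ t : Player, SpoilerWins 1 2 n t

end Pool.Agent.H44.DG
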