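import Pool.Agent.H44.DG.Targets
import Pool.Agent.H48.DG.FIN
import Pool.Agent.H65.DG.FLO

/-! STEP: every move of Spoiler in a good state has an answer. -/

namespace Pool.Agent.H44.DG.Step

open Pool.Agent.H44.DG
open Pool.Agent.H48.DG.FIN (real_cons toLF_cons open_facts open_cok floats_mem)

variable {V : Type}

lemma lmove_rk {L L' : LF} (h : LMove L L') {k : ℕ} {w : Cycle ℕ} (hw : (Tag.R k, w) ∈ L') :
    ∃ w', (Tag.R k, w') ∈ L := by
  cases h with
  | E u v l m G huv hn =>
    simp only [Multiset.mem_cons, Prod.mk.injEq] at hw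
    rcases hw with ⟨h, _⟩ | ⟨h, _⟩ | hw
    · exact absurd h (by simp)
    · exact absurd h (by simp)
    · exact ⟨w, Multiset.mem_cons_of_mem hw⟩
  | R k' u v l m G huv hn =>
    simp only [Multiset.mem_cons, Prod.mk.injEq] at hw
    rcases hw with ⟨h, _⟩ | ⟨h, _⟩ | hw
    · rw [h]; exact ⟨_, Multiset.mem_cons_self _ _⟩
    · exact absurd h (by simp)
    · exact ⟨w, Multiset.mem_cons_of_mem hw⟩

lemma ans_use (hLMR : T_LMR) (hLMP : T_LMP) (hSND : T_SND) (c : Ctx V) (N : ℕ) (L : LF) (hc : COK c N L)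
    (hA : Ans N L)
    (hT : ∀ i w, (Tag.T i, w) ∈ L → Reg (w.map c.f) (c.WS i) (c.FS i))
    (hR : ∀ k w, (Tag.R k, w) ∈ L → Content (c.FL k) (c.WL k) (c.FI k)) :
    Reg ↑[c.f 0, c.f 1, c.f 2] (((inner N).map c.f : Multiset V) + vs c L) (real c L) ∨
      ∃ F'', LStep (real c L) F'' ∧
        Reg ↑[c.f 0, c.f 1, c.f 2] (((inner N).map c.f : Multiset V) + vs c L) F'' := by
  rcases hA with h | ⟨L', hm, h⟩
  · left
    exact hSND V _ _ _ h c hT hR
  · right
    obtain ⟨h1, h2, h3⟩ := hLMR V c N L L' hc hm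
    refine ⟨real c L', h1, ?_⟩
    rw [← h3]
    refine hSND V _ _ _ h c ?_ ?_
    · intro i w hw
      exact hT i w (((hLMP L L' hm).2.2.2.1 i w).1 hw)
    · intro k w hw
      obtain ⟨w', hw'⟩ := lmove_rk hm hw
      exact hR k w' hw'

lemma part_use (hADJ : T_ADJ) (c : Ctx V) (N i : ℕ) (w : Cycle ℕ) (G : LF)
    (hc : COK c N ((Tag.T i, w) ::ₘ G)) {FS' : Multiset (Region V)} (hS : LStep (c.FS i) FS')
    (ih : Reg (w.map c.f) (c.WS i) FS' ∨ ∃ F'', LStep FS' F'' ∧ Reg (w.map c.f) (c.WS i) F'')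
    {o : Cycle V} {W : Multiset V} (key : ∀ X, Reg (w.map c.f) (c.WS i) X → Reg o W (X + real c G)) :
    Reg o W (FS' + real c G) ∨ ∃ F'', LStep (FS' + real c G) F'' ∧ Reg o W F'' := by
  rcases ih with h | ⟨F'', h1, h2⟩
  · exact Or.inl (key _ h)
  · right
    refine ⟨F'' + real c G, h1.lift (hS.loc (hc.tloc i w (Multiset.mem_cons_self _ _))) ?_, key _ h2⟩
    intro x hx hxW
    exact ((hADJ V c N _ hc).2.2.2 _ G rfl x hxW).1 hx

lemma real_congr {c c' : Ctx V} {L : LF} (h : ∀ x ∈ L, real1 c' x = real1 c x) : real c' L = real c L :=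
  Multiset.bind_congr h

lemma vs_congr {c c' : Ctx V} {L : LF} (h : ∀ x ∈ L, vs1 c' x = vs1 c x) : vs c' L = vs c L :=
  Multiset.bind_congr h

lemma vs_cons (c : Ctx V) (x : Tag × Cycle ℕ) (G : LF) : vs c (x ::ₘ G) = vs1 c x + vs c G := by
  simp [vs]

lemma cmap_congr {f g : ℕ → V} {w : Cycle ℕ} (h : ∀ i ∈ w, f i = g i) : w.map f = w.map g := by
  induction w using Quotient.inductionOn with
  | _ l =>
    show (↑(l.map f) : Cycle V) = ↑(l.map g)
    rw [List.map_congr_left (fun i hi => h i hi)]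

/-- the other faces of an open picture -/
lemma base_facts {n : ℕ} {r : List ℕ} {base : List (Tag × List ℕ)} (hS : (n, r, base) ∈ openList) :
    ∀ x ∈ toLF base, (x.1 = .E ∨ x.1 = .T 0) ∧ ∀ i ∈ x.2, i < n := by
  intro x hx
  obtain ⟨y, hy, rfl⟩ := Pool.Agent.H48.DG.FIN.mem_toLF.1 hx
  obtain ⟨_, h2, h3⟩ := open_facts _ hS
  refine ⟨?_, fun i hi => h2 y (List.mem_cons_of_mem _ hy) i (Cycle.mem_coe_iff.1 hi)⟩
  rcases h3 y (List.mem_cons_of_mem _ hy) with h | h | ⟨h, _⟩
  · exfalso
    have : ∀ S ∈ openList, ∀ y ∈ S.2.2, y.1 ≠ Tag.R 0 := by decide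
    exact this _ hS y hy h
  · exact Or.inl h
  · exact Or.inr h

lemma base_tags {n : ℕ} {r : List ℕ} {base : List (Tag × List ℕ)} (hS : (n, r, base) ∈ openList) :
    (tags (toLF ((.R 0, r) :: base))).Nodup := by
  have : ∀ S ∈ openList, (tags (toLF ((.R 0, S.2.1) :: S.2.2))).Nodup := by
    intro S hS
    simp only [openList, List.mem_cons, List.not_mem_nil, or_false] at hS
    rcases hS with rfl | rfl | rfl | rfl | rfl | rfl <;> decide
  exact this _ hS

lemma base_congr {n : ℕ} {r : List ℕ} {base : List (Tag × List ℕ)} (hS : (n, r, base) ∈ openList)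
    {c c' : Ctx V} (hf : ∀ i < n, c'.f i = c.f i) (hFS : c'.FS 0 = c.FS 0) (hWS : c'.WS 0 = c.WS 0) :
    real c' (toLF base) = real c (toLF base) ∧ vs c' (toLF base) = vs c (toLF base) := by
  constructor
  · refine real_congr ?_
    intro x hx
    obtain ⟨h1, h2⟩ := base_facts hS x hx
    obtain ⟨t, w⟩ := x
    rcases h1 with h1 | h1
    · dsimp only at h1; subst h1
      show ({{w.map c'.f}} : Multiset (Region V)) = {{w.map c.f}}
      rw [cmap_congr (fun i hi => hf i (h2 i hi))]
    · dsimp only at h1; subst h1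
      exact hFS
  · refine vs_congr ?_
    intro x hx
    obtain ⟨h1, h2⟩ := base_facts hS x hx
    obtain ⟨t, w⟩ := x
    rcases h1 with h1 | h1
    · dsimp only at h1; subst h1; rfl
    · dsimp only at h1; subst h1; exact hWS

lemma reg_open {n : ℕ} {r : List ℕ} {base : List (Tag × List ℕ)} (hS : (n, r, base) ∈ openList) (c : Ctx V)
    (hT : ∀ i w, (Tag.T i, w) ∈ toLF base → Reg (w.map c.f) (c.WS i) (c.FS i))
    (hC : Content (c.FL 0) (c.WL 0) (c.FI 0)) :
    Reg ↑[c.f 0, c.f 1, c.f 2] (((inner n).map c.f : Multiset V) + vs c (toLF ((.R 0, r) :: base)))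
      (real c (toLF ((.R 0, r) :: base))) := by
  rcases hC with ⟨h1, h2⟩ | ⟨x, y, z, W', h1, h2, h3⟩
  · exact Reg.openA n r base hS c hT h1 h2
  · exact Reg.openB n r base hS c hT x y z W' h1 h2 h3

lemma content_rloc (hLOC : T_LOC) {fl : Region V} {W : Multiset V} {FI : Multiset (Region V)}
    (h : Content fl W FI) : (∀ u ∈ fl, ∀ v ∈ u, v ∈ W) ∧ ∀ v, InR FI v → v ∈ W := by
  rcases h with ⟨h1, rfl⟩ | ⟨x, y, z, W', rfl, rfl, h3⟩
  · exact ⟨floats_mem h1, fun v hv => absurd hv (inR_zero v)⟩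
  · constructor
    · intro u hu v hv
      rw [Multiset.mem_singleton] at hu
      subst hu
      simp only [Cycle.mem_coe_iff, List.mem_cons, List.not_mem_nil, or_false] at hv
      rcases hv with rfl | rfl | rfl <;> simp
    · intro v hv
      rcases (hLOC V _ _ _ h3).1.1 v hv with h | h
      · simp only [Cycle.mem_coe_iff, List.mem_cons, List.not_mem_nil, or_false] at h
        rcases h with rfl | rfl | rfl <;> simp
      · simp [h]

lemma content_nil : Content (0 : Region V) 0 0 := Or.inl ⟨Floats.nil, rfl⟩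

lemma content_split (hFLO : T_FLO) {fl₁ fl₂ : Region V} {W : Multiset V} {FI : Multiset (Region V)}
    (h : Content (fl₁ + fl₂) W FI) : ∃ W₁ W₂ FI₁ FI₂, W = W₁ + W₂ ∧ FI = FI₁ + FI₂ ∧ Content fl₁ W₁ FI₁ ∧
      Content fl₂ W₂ FI₂ := by
  rcases h with ⟨h1, rfl⟩ | ⟨x, y, z, W', h1, rfl, h3⟩
  · obtain ⟨W₁, W₂, h4, h5, h6⟩ := (hFLO V _ _ h1).1 fl₁ fl₂ rfl
    exact ⟨W₁, W₂, 0, 0, h4, by simp, Or.inl ⟨h5, rfl⟩, Or.inl ⟨h6, rfl⟩⟩
  · have hc : Multiset.card fl₁ + Multiset.card fl₂ = 1 := by
      rw [← Multiset.card_add, h1]; rfl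
    rcases Nat.eq_zero_or_pos (Multiset.card fl₁) with h | h
    · rw [Multiset.card_eq_zero] at h
      subst h
      rw [zero_add] at h1
      exact ⟨0, _, 0, FI, by simp, by simp, content_nil, Or.inr ⟨x, y, z, W', h1, rfl, h3⟩⟩
    · have h' : Multiset.card fl₂ = 0 := by omega
      rw [Multiset.card_eq_zero] at h'
      subst h'
      rw [add_zero] at h1
      exact ⟨_, 0, FI, 0, by simp, by simp, Or.inr ⟨x, y, z, W', h1, rfl, h3⟩, content_nil⟩

/-- conclusion of the step analysis -/
def Good (o : Cycle V) (W : Multiset V) (F' : Multiset (Region V)) : Prop :=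
  Reg o W F' ∨ ∃ F'', LStep F' F'' ∧ Reg o W F''

lemma use_spl (hLMR : T_LMR) (hLMP : T_LMP) (hSND : T_SND) (hLOC : T_LOC) (hSPL : T_SPL)
    {n : ℕ} {r : List ℕ} {base : List (Tag × List ℕ)} (hS : (n, r, base) ∈ openList) (c : Ctx V)
    (hT : ∀ i w, (Tag.T i, w) ∈ toLF base → Reg (w.map c.f) (c.WS i) (c.FS i))
    (hcok : COK c n (toLF ((.R 0, r) :: base)))
    (p l q : List ℕ) (u v : ℕ) (hr : r = p ++ u :: (l ++ v :: q)) (huv : u ≠ v)
    (hadj : ¬ LAdj (toLF ((.R 0, r) :: base)) u v)
    (fl₁ fl₂ : Region V) (W₁ W₂ : Multiset V) (FI₁ FI₂ : Multiset (Region V))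
    (hC₁ : Content fl₁ W₁ FI₁) (hC₂ : Content fl₂ W₂ FI₂) (hW : c.WL 0 = W₁ + W₂) :
    Good ↑[c.f 0, c.f 1, c.f 2] (((inner n).map c.f : Multiset V) + vs c (toLF ((.R 0, r) :: base)))
      ((((↑((u :: (l ++ [v])).map c.f) : Cycle V) ::ₘ fl₁) ::ₘ FI₁) +
        ((((↑((v :: ((q ++ p) ++ [u])).map c.f) : Cycle V) ::ₘ fl₂) ::ₘ FI₂) + real c (toLF base))) := by
  let c' : Ctx V := { c with
    FL := fun k => if k = 1 then fl₁ else fl₂
    WL := fun k => if k = 1 then W₁ else W₂
    FI := fun k => if k = 1 then FI₁ else FI₂ }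
  set L1 : LF := (Tag.R 1, (↑(u :: (l ++ [v])) : Cycle ℕ)) ::ₘ (Tag.R 2, (↑(v :: ((q ++ p) ++ [u])) : Cycle ℕ)) ::ₘ
    toLF base with hL1
  obtain ⟨hb1, hb2⟩ := base_congr hS (c := c) (c' := c') (fun _ _ => rfl) rfl rfl
  have hreal : real c' L1 = (((↑((u :: (l ++ [v])).map c.f) : Cycle V) ::ₘ fl₁) ::ₘ FI₁) +
        ((((↑((v :: ((q ++ p) ++ [u])).map c.f) : Cycle V) ::ₘ fl₂) ::ₘ FI₂) + real c (toLF base)) := by
    rw [hL1, real_cons, real_cons, hb1]
    rfl
  have hvs : vs c' L1 = vs c (toLF ((.R 0, r) :: base)) := by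
    rw [hL1, vs_cons, vs_cons, hb2, toLF_cons, vs_cons]
    show W₁ + (W₂ + _) = c.WL 0 + _
    rw [hW, add_assoc]
  have hcok' : COK c' n L1 := by
    have hlr : ∀ i ∈ r, i < n := by
      intro i hi
      exact hcok.lab _ (by rw [toLF_cons]; exact Multiset.mem_cons_self _ _) i (Cycle.mem_coe_iff.2 hi)
    refine ⟨?_, ?_, ?_, ?_, ?_⟩
    · rw [hvs]; exact hcok.nodup
    · intro x hx i hi
      rcases Multiset.mem_cons.1 hx with rfl | hx
      · refine hlr i ?_
        rw [hr]
        simp only [Cycle.mem_coe_iff, List.mem_cons, List.mem_append, List.not_mem_nil, or_false] at hi ⊢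
        tauto
      rcases Multiset.mem_cons.1 hx with rfl | hx
      · refine hlr i ?_
        rw [hr]
        simp only [Cycle.mem_coe_iff, List.mem_cons, List.mem_append, List.not_mem_nil, or_false] at hi ⊢
        tauto
      · exact (base_facts hS x hx).2 i hi
    · intro x hx i hi
      rcases Multiset.mem_cons.1 hx with rfl | hx
      · exact absurd hi (by simp)
      rcases Multiset.mem_cons.1 hx with rfl | hx
      · exact absurd hi (by simp)
      · exact hcok.tri x (by rw [toLF_cons]; exact Multiset.mem_cons_of_mem hx) i hi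
    · intro i w hw
      rcases Multiset.mem_cons.1 hw with hw | hw
      · exact absurd hw (by simp)
      rcases Multiset.mem_cons.1 hw with hw | hw
      · exact absurd hw (by simp)
      · exact hcok.tloc i w (by rw [toLF_cons]; exact Multiset.mem_cons_of_mem hw)
    · intro k w hw
      rcases Multiset.mem_cons.1 hw with hw | hw
      · simp only [Prod.mk.injEq, Tag.R.injEq] at hw
        obtain ⟨rfl, _⟩ := hw
        exact content_rloc hLOC hC₁
      rcases Multiset.mem_cons.1 hw with hw | hw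
      · simp only [Prod.mk.injEq, Tag.R.injEq] at hw
        obtain ⟨rfl, _⟩ := hw
        exact content_rloc hLOC hC₂
      · rcases (base_facts hS _ hw).1 with h | h <;> exact absurd h (by simp)
  have hans := hSPL (n, r, base) hS p l q u v hr huv hadj
  have := ans_use hLMR hLMP hSND c' n L1 hcok' hans ?_ ?_
  · rw [hvs, hreal] at this
    exact this
  · intro i w hw
    rcases Multiset.mem_cons.1 hw with hw | hw
    · exact absurd hw (by simp)
    rcases Multiset.mem_cons.1 hw with hw | hw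
    · exact absurd hw (by simp)
    · exact hT i w hw
  · intro k w hw
    rcases Multiset.mem_cons.1 hw with hw | hw
    · simp only [Prod.mk.injEq, Tag.R.injEq] at hw
      obtain ⟨rfl, _⟩ := hw
      exact hC₁
    rcases Multiset.mem_cons.1 hw with hw | hw
    · simp only [Prod.mk.injEq, Tag.R.injEq] at hw
      obtain ⟨rfl, _⟩ := hw
      exact hC₂
    · rcases (base_facts hS _ hw).1 with h | h <;> exact absurd h (by simp)

/-- extension of a labelling by new vertices -/
def extf (f : ℕ → V) (n : ℕ) (L : List V) : ℕ → V := fun i => if i < n then f i else L.getD (i - n) (f 0)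

lemma extf_lt (f : ℕ → V) {n i : ℕ} (L : List V) (h : i < n) : extf f n L i = f i := by
  simp [extf, h]

lemma extf_map (f : ℕ → V) (n : ℕ) (L : List V) :
    (List.range (n + L.length)).map (extf f n L) = (List.range n).map f ++ L := by
  rw [List.range_add, List.map_append, List.map_map]
  congr 1
  · refine List.map_congr_left ?_
    intro i hi
    exact extf_lt f L (List.mem_range.1 hi)
  · refine List.ext_getElem (by simp) ?_
    intro i h1 h2
    simp only [List.length_map, List.length_range] at h1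
    simp [extf, List.getD_eq_getElem?_getD, List.getElem?_eq_getElem h1]

lemma range_inner {n : ℕ} (h : 3 ≤ n) : List.range n = [0, 1, 2] ++ inner n := by
  obtain ⟨m, rfl⟩ := Nat.exists_eq_add_of_le h
  unfold inner
  rw [List.range_add]
  rfl

lemma extf_inner (f : ℕ → V) {n : ℕ} (h : 3 ≤ n) (L : List V) :
    (inner (n + L.length)).map (extf f n L) = (inner n).map f ++ L := by
  have h1 := extf_map f n L
  rw [range_inner (by omega : 3 ≤ n + L.length), range_inner h] at h1
  simp only [List.map_append, List.append_assoc] at h1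
  have h2 : ([0, 1, 2] : List ℕ).map (extf f n L) = [0, 1, 2].map f := by
    refine List.map_congr_left ?_
    intro i hi
    refine extf_lt f L ?_
    simp only [List.mem_cons, List.not_mem_nil, or_false] at hi
    omega
  rw [h2] at h1
  exact List.append_cancel_left h1

lemma joinWalk_map (f : ℕ → V) (u : ℕ) (l : List ℕ) (v : ℕ) (m : List ℕ) :
    (joinWalk u l v m).map f = joinWalk (f u) (l.map f) (f v) (m.map f) := by
  unfold joinWalk
  rcases l with _ | ⟨a, l⟩ <;> rcases m with _ | ⟨b, m⟩ <;> simp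

/-- Joining the rich face with a float of `k` vertices: general form of AT1, AT2. -/
lemma use_join (hLMR : T_LMR) (hLMP : T_LMP) (hSND : T_SND) (hLOC : T_LOC)
    {n : ℕ} {r : List ℕ} {base : List (Tag × List ℕ)} (hS : (n, r, base) ∈ openList) (c : Ctx V)
    (hT : ∀ i w, (Tag.T i, w) ∈ toLF base → Reg (w.map c.f) (c.WS i) (c.FS i))
    (hcok : COK c n (toLF ((.R 0, r) :: base)))
    (u : ℕ) (l : List ℕ) (hr : r ~r (u :: l)) (v : V) (m : List V) (m' : List ℕ)
    (hm' : m' = (List.range m.length).map fun i => n + 1 + i)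
    (hans : Ans (n + (v :: m).length) ((.R 0, (↑(joinWalk u l n m') : Cycle ℕ)) ::ₘ toLF base))
    (fl' : Region V) (W' : Multiset V) (FI' : Multiset (Region V))
    (hC : Content fl' W' FI') (hW : c.WL 0 = ((v :: m : List V) : Multiset V) + W') :
    Good ↑[c.f 0, c.f 1, c.f 2] (((inner n).map c.f : Multiset V) + vs c (toLF ((.R 0, r) :: base)))
      ((((↑(joinWalk (c.f u) (l.map c.f) v m) : Cycle V) ::ₘ fl') ::ₘ FI') + real c (toLF base)) := by
  have h3 : 3 ≤ n := (open_facts _ hS).1
  let c' : Ctx V := { c with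
    f := extf c.f n (v :: m)
    FL := fun _ => fl'
    WL := fun _ => W'
    FI := fun _ => FI' }
  set L1 : LF := (Tag.R 0, (↑(joinWalk u l n m') : Cycle ℕ)) ::ₘ toLF base with hL1
  have hf : ∀ i < n, c'.f i = c.f i := fun i hi => extf_lt c.f _ hi
  obtain ⟨hb1, hb2⟩ := base_congr hS (c := c) (c' := c') hf rfl rfl
  have hlr : ∀ i ∈ u :: l, i < n := by
    intro i hi
    exact hcok.lab _ (by rw [toLF_cons]; exact Multiset.mem_cons_self _ _) i
      (Cycle.mem_coe_iff.2 (hr.perm.mem_iff.2 hi))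
  have hfm : m'.map c'.f = m ∧ c'.f n = v := by
    have h1 : (n :: m').map c'.f = v :: m := by
      have h2 := extf_map c.f n (v :: m)
      rw [List.range_add, List.map_append] at h2
      have h3 : (List.range n).map (extf c.f n (v :: m)) = (List.range n).map c.f :=
        List.map_congr_left (fun i hi => extf_lt c.f _ (List.mem_range.1 hi))
      rw [h3] at h2
      have h4 := List.append_cancel_left h2
      rw [← h4]
      show _ = List.map (extf c.f n (v :: m)) _
      congr 1
      rw [hm']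
      simp only [List.length_cons, List.range_succ_eq_map, List.map_cons, List.map_map, add_zero]
      congr 1
      refine List.map_congr_left ?_
      intro i _
      simp only [Function.comp]
      omega
    simp only [List.map_cons, List.cons.injEq] at h1
    exact ⟨h1.2, h1.1⟩
  have hreal : real c' L1 =
      (((↑(joinWalk (c.f u) (l.map c.f) v m) : Cycle V) ::ₘ fl') ::ₘ FI') + real c (toLF base) := by
    rw [hL1, real_cons, hb1]
    show (((↑((joinWalk u l n m').map c'.f) : Cycle V) ::ₘ fl') ::ₘ FI') + _ = _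
    rw [joinWalk_map, hfm.1, hfm.2, hf u (hlr u (by simp)),
      List.map_congr_left (fun i hi => hf i (hlr i (List.mem_cons_of_mem _ hi)))]
  have hvs : ((inner (n + (v :: m).length)).map c'.f : Multiset V) + vs c' L1 =
      ((inner n).map c.f : Multiset V) + vs c (toLF ((.R 0, r) :: base)) := by
    rw [hL1, vs_cons, hb2, toLF_cons, vs_cons]
    show ((inner (n + (v :: m).length)).map (extf c.f n (v :: m)) : Multiset V) + (W' + _) = _ + (c.WL 0 + _)
    rw [extf_inner c.f h3, hW, ← Multiset.coe_add]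
    abel
  have hvs2 : ((List.range (n + (v :: m).length)).map c'.f : Multiset V) + vs c' L1 =
      ((List.range n).map c.f : Multiset V) + vs c (toLF ((.R 0, r) :: base)) := by
    rw [hL1, vs_cons, hb2, toLF_cons, vs_cons]
    show ((List.range (n + (v :: m).length)).map (extf c.f n (v :: m)) : Multiset V) + (W' + _) = _ + (c.WL 0 + _)
    rw [extf_map c.f, hW, ← Multiset.coe_add]
    abel
  have hcok' : COK c' (n + (v :: m).length) L1 := by
    refine ⟨?_, ?_, ?_, ?_, ?_⟩
    · rw [hvs2]; exact hcok.nodup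
    · intro x hx i hi
      rcases Multiset.mem_cons.1 hx with rfl | hx
      · rw [Cycle.mem_coe_iff, joinWalk_mem] at hi
        rcases hi with hi | hi
        · exact lt_of_lt_of_le (hlr i hi) (Nat.le_add_right _ _)
        · rcases List.mem_cons.1 hi with rfl | hi
          · simp
          · rw [hm', List.mem_map] at hi
            obtain ⟨j, hj, rfl⟩ := hi
            have := List.mem_range.1 hj
            simp only [List.length_cons]
            omega
      · exact lt_of_lt_of_le ((base_facts hS x hx).2 i hi) (Nat.le_add_right _ _)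
    · intro x hx i hi
      rcases Multiset.mem_cons.1 hx with rfl | hx
      · exact absurd hi (by simp)
      · exact hcok.tri x (by rw [toLF_cons]; exact Multiset.mem_cons_of_mem hx) i hi
    · intro i w hw
      rcases Multiset.mem_cons.1 hw with hw | hw
      · exact absurd hw (by simp)
      · have h := hcok.tloc i w (by rw [toLF_cons]; exact Multiset.mem_cons_of_mem hw)
        rw [cmap_congr (fun i hi => (hf i ((base_facts hS _ hw).2 i hi)).symm)] at h
        exact h
    · intro k w hw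
      rcases Multiset.mem_cons.1 hw with hw | hw
      · exact content_rloc hLOC hC
      · rcases (base_facts hS _ hw).1 with h | h <;> exact absurd h (by simp)
  have h012 : (↑[c'.f 0, c'.f 1, c'.f 2] : Cycle V) = ↑[c.f 0, c.f 1, c.f 2] := by
    rw [hf 0 (by omega), hf 1 (by omega), hf 2 (by omega)]
  have := ans_use hLMR hLMP hSND c' _ L1 hcok' hans ?_ ?_
  · rw [hvs, hreal, h012] at this
    exact this
  · intro i w hw
    rcases Multiset.mem_cons.1 hw with hw | hw
    · exact absurd hw (by simp)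
    · have h := hT i w hw
      rw [cmap_congr (fun i hi => (hf i ((base_facts hS _ hw).2 i hi)).symm)] at h
      exact h
  · intro k w hw
    exact hC

/-- Joining the rich face with the triangle of a content of the second kind. -/
lemma use_join3 (hLMR : T_LMR) (hLMP : T_LMP) (hSND : T_SND) (hLOC : T_LOC)
    {n : ℕ} {r : List ℕ} {base : List (Tag × List ℕ)} (hS : (n, r, base) ∈ openList) (c : Ctx V)
    (hT : ∀ i w, (Tag.T i, w) ∈ toLF base → Reg (w.map c.f) (c.WS i) (c.FS i))
    (hcok : COK c n (toLF ((.R 0, r) :: base)))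
    (u : ℕ) (l : List ℕ) (hr : r ~r (u :: l)) (x y z : V)
    (hans : Ans (n + 3) ((.E, (↑(joinWalk u l n [n + 1, n + 2]) : Cycle ℕ)) ::ₘ
      (.T 1, (↑[n + 2, n + 1, n] : Cycle ℕ)) ::ₘ toLF base))
    (W' : Multiset V) (FI' : Multiset (Region V))
    (hB : Reg ↑[z, y, x] W' FI') (hW : c.WL 0 = x ::ₘ y ::ₘ z ::ₘ W') :
    Good ↑[c.f 0, c.f 1, c.f 2] (((inner n).map c.f : Multiset V) + vs c (toLF ((.R 0, r) :: base)))
      ({{(↑(joinWalk (c.f u) (l.map c.f) x [y, z]) : Cycle V)}} + (FI' + real c (toLF base))) := by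
  have h3 : 3 ≤ n := (open_facts _ hS).1
  let c' : Ctx V := { c with
    f := extf c.f n [x, y, z]
    FS := Function.update c.FS 1 FI'
    WS := Function.update c.WS 1 W' }
  set L1 : LF := (Tag.E, (↑(joinWalk u l n [n + 1, n + 2]) : Cycle ℕ)) ::ₘ
    (Tag.T 1, (↑[n + 2, n + 1, n] : Cycle ℕ)) ::ₘ toLF base with hL1
  have hf : ∀ i < n, c'.f i = c.f i := fun i hi => extf_lt c.f _ hi
  have hf0 : c'.f n = x := by simp [c', extf]
  have hf1 : c'.f (n + 1) = y := by simp [c', extf]
  have hf2 : c'.f (n + 2) = z := by simp [c', extf]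
  have hFS0 : c'.FS 0 = c.FS 0 := by simp [c']
  have hWS0 : c'.WS 0 = c.WS 0 := by simp [c']
  have hFS1 : c'.FS 1 = FI' := by simp [c']
  have hWS1 : c'.WS 1 = W' := by simp [c']
  obtain ⟨hb1, hb2⟩ := base_congr hS (c := c) (c' := c') hf hFS0 hWS0
  have hlr : ∀ i ∈ u :: l, i < n := by
    intro i hi
    exact hcok.lab _ (by rw [toLF_cons]; exact Multiset.mem_cons_self _ _) i
      (Cycle.mem_coe_iff.2 (hr.perm.mem_iff.2 hi))
  have hreal : real c' L1 =
      {{(↑(joinWalk (c.f u) (l.map c.f) x [y, z]) : Cycle V)}} + (FI' + real c (toLF base)) := by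
    rw [hL1, real_cons, real_cons, hb1]
    show {{(↑((joinWalk u l n [n + 1, n + 2]).map c'.f) : Cycle V)}} + (c'.FS 1 + _) = _
    rw [joinWalk_map, hFS1, hf u (hlr u (by simp)),
      List.map_congr_left (fun i hi => hf i (hlr i (List.mem_cons_of_mem _ hi)))]
    simp only [List.map_cons, List.map_nil, hf0, hf1, hf2]
  have hvs : ((inner (n + 3)).map c'.f : Multiset V) + vs c' L1 =
      ((inner n).map c.f : Multiset V) + vs c (toLF ((.R 0, r) :: base)) := by
    rw [hL1, vs_cons, vs_cons, hb2, toLF_cons, vs_cons]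
    show ((inner (n + [x, y, z].length)).map (extf c.f n [x, y, z]) : Multiset V) + (0 + (c'.WS 1 + _)) = _ + (c.WL 0 + _)
    rw [extf_inner c.f h3, hW, ← Multiset.coe_add, hWS1]
    simp only [← Multiset.singleton_add, ← Multiset.cons_coe, Multiset.coe_nil]
    abel
  have hvs2 : ((List.range (n + 3)).map c'.f : Multiset V) + vs c' L1 =
      ((List.range n).map c.f : Multiset V) + vs c (toLF ((.R 0, r) :: base)) := by
    rw [hL1, vs_cons, vs_cons, hb2, toLF_cons, vs_cons]
    show ((List.range (n + [x, y, z].length)).map (extf c.f n [x, y, z]) : Multiset V) + (0 + (c'.WS 1 + _)) = _ + (c.WL 0 + _)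
    rw [extf_map c.f, hW, ← Multiset.coe_add, hWS1]
    simp only [← Multiset.singleton_add, ← Multiset.cons_coe, Multiset.coe_nil]
    abel
  have hmap : (↑[n + 2, n + 1, n] : Cycle ℕ).map c'.f = ↑[z, y, x] := by
    show (↑[c'.f (n + 2), c'.f (n + 1), c'.f n] : Cycle V) = _
    rw [hf0, hf1, hf2]
  have hcok' : COK c' (n + 3) L1 := by
    refine ⟨?_, ?_, ?_, ?_, ?_⟩
    · rw [hvs2]; exact hcok.nodup
    · intro x hx i hi
      rcases Multiset.mem_cons.1 hx with rfl | hx
      · rw [Cycle.mem_coe_iff, joinWalk_mem] at hi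
        rcases hi with hi | hi
        · have := hlr i hi
          omega
        · simp only [List.mem_cons, List.not_mem_nil, or_false] at hi
          omega
      rcases Multiset.mem_cons.1 hx with rfl | hx
      · simp only [Cycle.mem_coe_iff, List.mem_cons, List.not_mem_nil, or_false] at hi
        omega
      · have := (base_facts hS x hx).2 i hi
        omega
    · intro x hx i hi
      rcases Multiset.mem_cons.1 hx with rfl | hx
      · exact absurd hi (by simp)
      rcases Multiset.mem_cons.1 hx with rfl | hx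
      · exact ⟨n + 2, n + 1, n, by omega, by omega, by omega, rfl⟩
      · exact hcok.tri x (by rw [toLF_cons]; exact Multiset.mem_cons_of_mem hx) i hi
    · intro i w hw
      rcases Multiset.mem_cons.1 hw with hw | hw
      · exact absurd hw (by simp)
      rcases Multiset.mem_cons.1 hw with hw | hw
      · simp only [Prod.mk.injEq, Tag.T.injEq] at hw
        obtain ⟨rfl, rfl⟩ := hw
        rw [hmap, hFS1, hWS1]
        exact (hLOC V _ _ _ hB).1
      · have h := hcok.tloc i w (by rw [toLF_cons]; exact Multiset.mem_cons_of_mem hw)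
        rw [cmap_congr (fun i hi => (hf i ((base_facts hS _ hw).2 i hi)).symm)] at h
        rcases (base_facts hS _ hw).1 with h' | h'
        · exact absurd h' (by simp)
        · simp only [Tag.T.injEq] at h'
          subst h'
          rw [hFS0, hWS0]
          exact h
    · intro k w hw
      rcases Multiset.mem_cons.1 hw with hw | hw
      · exact absurd hw (by simp)
      rcases Multiset.mem_cons.1 hw with hw | hw
      · exact absurd hw (by simp)
      · rcases (base_facts hS _ hw).1 with h | h <;> exact absurd h (by simp)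
  have h012 : (↑[c'.f 0, c'.f 1, c'.f 2] : Cycle V) = ↑[c.f 0, c.f 1, c.f 2] := by
    rw [hf 0 (by omega), hf 1 (by omega), hf 2 (by omega)]
  have := ans_use hLMR hLMP hSND c' _ L1 hcok' hans ?_ ?_
  · rw [hvs, hreal, h012] at this
    exact this
  · intro i w hw
    rcases Multiset.mem_cons.1 hw with hw | hw
    · exact absurd hw (by simp)
    rcases Multiset.mem_cons.1 hw with hw | hw
    · simp only [Prod.mk.injEq, Tag.T.injEq] at hw
      obtain ⟨rfl, rfl⟩ := hw
      rw [hmap, hFS1, hWS1]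
      exact hB
    · have h := hT i w hw
      rw [cmap_congr (fun i hi => (hf i ((base_facts hS _ hw).2 i hi)).symm)] at h
      rcases (base_facts hS _ hw).1 with h' | h'
      · exact absurd h' (by simp)
      · simp only [Tag.T.injEq] at h'
        subst h'
        rw [hFS0, hWS0]
        exact h
  · intro k w hw
    rcases Multiset.mem_cons.1 hw with hw | hw
    · exact absurd hw (by simp)
    rcases Multiset.mem_cons.1 hw with hw | hw
    · exact absurd hw (by simp)
    · rcases (base_facts hS _ hw).1 with h | h <;> exact absurd h (by simp)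

/-- A reply that closes a triangle with the big walk on one side and the other floats on the other side. -/
lemma close_use (hADJ : T_ADJ)
    {n : ℕ} {r : List ℕ} {base : List (Tag × List ℕ)} (hS : (n, r, base) ∈ openList) (c : Ctx V)
    (hT : ∀ i w, (Tag.T i, w) ∈ toLF base → Reg (w.map c.f) (c.WS i) (c.FS i))
    (hcok : COK c n (toLF ((.R 0, r) :: base)))
    (x y z : V) (m : List V) (fl' : Region V) (W' : Multiset V) (hWL : c.WL 0 = x ::ₘ y ::ₘ z ::ₘ W')
    (hB : Reg ↑[z, y, x] W' {(↑(z :: (m ++ [x])) : Cycle V) ::ₘ fl'})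
    (hJ : (x, z) ∉ cprs (x :: y :: z :: m) ∧ (z, x) ∉ cprs (x :: y :: z :: m))
    (hfl : ∀ w ∈ fl', x ∉ w) :
    Good ↑[c.f 0, c.f 1, c.f 2] (((inner n).map c.f : Multiset V) + vs c (toLF ((.R 0, r) :: base)))
      (((↑(r.map c.f) : Cycle V) ::ₘ (↑(x :: y :: z :: m) : Cycle V) ::ₘ fl') ::ₘ real c (toLF base)) := by
  right
  have hnd : (c.WL 0).Nodup := by
    have h := (Multiset.nodup_add.1 hcok.nodup).2.1
    rw [toLF_cons, vs_cons] at h
    exact (Multiset.nodup_add.1 h).1
  have hxz : x ≠ z := by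
    rw [hWL] at hnd
    simp only [Multiset.nodup_cons, Multiset.mem_cons, not_or] at hnd
    exact hnd.1.2.1
  have hxW : x ∈ vs1 c (Tag.R 0, (↑r : Cycle ℕ)) := by
    show x ∈ c.WL 0
    rw [hWL]; simp
  obtain ⟨h1, h2⟩ := (hADJ V c n _ hcok).2.2.2 (Tag.R 0, (↑r : Cycle ℕ)) (toLF base) (toLF_cons _ _) x hxW
  have hlr : ∀ i ∈ r, i < n := by
    intro i hi
    exact hcok.lab _ (by rw [toLF_cons]; exact Multiset.mem_cons_self _ _) i (Cycle.mem_coe_iff.2 hi)
  refine ⟨{(↑(x :: ([y] ++ [z])) : Cycle V) ::ₘ {(↑(r.map c.f) : Cycle V)}, (↑(z :: (m ++ [x])) : Cycle V) ::ₘ fl'} +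
    real c (toLF base), ⟨x, z, hxz, ?_, _, _, _, rfl, rfl, ?_⟩, ?_⟩
  · rw [adj_cons, adj_sing]
    rintro (⟨w, hw, hd⟩ | h)
    · rcases Multiset.mem_cons.1 hw with rfl | hw
      · have hx : x ∈ (↑(r.map c.f) : Cycle V) := hd.elim IsDart.mem_left IsDart.mem_right
        rw [Cycle.mem_coe_iff, List.mem_map] at hx
        obtain ⟨i, hi, hix⟩ := hx
        exact h2 i (hlr i hi) hix
      rcases Multiset.mem_cons.1 hw with rfl | hw
      · rw [isDart_coe, isDart_coe] at hd
        exact hd.elim hJ.1 hJ.2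
      · exact hfl w hw (hd.elim IsDart.mem_left IsDart.mem_right)
    · exact h1 h.left
  · have h := RegionMove.split (u := x) (v := z) [y] m ({(↑(r.map c.f) : Cycle V)} : Region V) fl'
    have e : (↑(x :: ([y] ++ z :: m)) : Cycle V) ::ₘ (({(↑(r.map c.f) : Cycle V)} : Region V) + fl') =
        (↑(r.map c.f) : Cycle V) ::ₘ (↑(x :: y :: z :: m) : Cycle V) ::ₘ fl' := by
      rw [Multiset.singleton_add, Multiset.cons_swap]
      rfl
    rw [e] at h
    exact h
  · let c' : Ctx V := { c with
      FL := fun _ => {(↑[x, y, z] : Cycle V)}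
      FI := fun _ => {(↑(z :: (m ++ [x])) : Cycle V) ::ₘ fl'} }
    have h := reg_open hS c' hT (Or.inr ⟨x, y, z, W', rfl, hWL, hB⟩)
    obtain ⟨hb1, hb2⟩ := base_congr hS (c := c) (c' := c') (fun _ _ => rfl) rfl rfl
    have hreal : real c' (toLF ((.R 0, r) :: base)) =
        {(↑(x :: ([y] ++ [z])) : Cycle V) ::ₘ {(↑(r.map c.f) : Cycle V)}, (↑(z :: (m ++ [x])) : Cycle V) ::ₘ fl'} +
        real c (toLF base) := by
      rw [toLF_cons, real_cons, hb1]
      show ((↑(r.map c.f) : Cycle V) ::ₘ {(↑[x, y, z] : Cycle V)}) ::ₘ {(↑(z :: (m ++ [x])) : Cycle V) ::ₘ fl'} + _ = _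
      rw [Multiset.insert_eq_cons]
      congr 2
      exact Multiset.cons_swap _ _ _
    have hvs : vs c' (toLF ((.R 0, r) :: base)) = vs c (toLF ((.R 0, r) :: base)) := by
      rw [toLF_cons, vs_cons, vs_cons, hb2]
      rfl
    rw [hreal, hvs] at h
    exact h

lemma reg_tri (x y z : V) {fl : Region V} {W : Multiset V} {FI : Multiset (Region V)} (h : Content fl W FI) :
    Reg ↑[x, y, z] W (((↑[x, y, z] : Cycle V) ::ₘ fl) ::ₘ FI) := by
  let c : Ctx V := ⟨fun i => if i = 0 then x else if i = 1 then y else z, fun _ => fl, fun _ => W, fun _ => FI,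
    fun _ => 0, fun _ => 0⟩
  have hS : (3, [0, 1, 2], []) ∈ openList := by simp [openList]
  have := reg_open hS c (by simp [toLF]) h
  have hin : inner 3 = [] := by decide
  simp only [toLF, List.map_cons, List.map_nil, hin] at this
  simp only [vs, real, Multiset.coe_singleton, Multiset.singleton_bind, vs1, real1, Multiset.coe_nil, zero_add] at this
  exact this

lemma reg_V (a b d s : V) {fl : Region V} {W : Multiset V} {FI : Multiset (Region V)} (h : Content fl W FI) :
    Reg ↑[a, b, d] (s ::ₘ W) (((↑[a, b, d, a, s] : Cycle V) ::ₘ fl) ::ₘ FI) := by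
  let c : Ctx V := ⟨fun i => if i = 0 then a else if i = 1 then b else if i = 2 then d else s, fun _ => fl,
    fun _ => W, fun _ => FI, fun _ => 0, fun _ => 0⟩
  have hS : (4, [0, 1, 2, 0, 3], []) ∈ openList := by simp [openList]
  have := reg_open hS c (by simp [toLF]) h
  have hin : inner 4 = [3] := by decide
  simp only [toLF, List.map_cons, List.map_nil, hin] at this
  simp only [vs, real, Multiset.coe_singleton, Multiset.singleton_bind, vs1, real1, Multiset.singleton_add] at this
  exact this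

lemma short_walk {l : List V} {u v : V} {m : List V} (h : l.length + m.length ≤ 1) :
    IsDart (↑(u :: (l ++ v :: m)) : Cycle V) u v ∨ IsDart (↑(u :: (l ++ v :: m)) : Cycle V) v u := by
  rcases l with _ | ⟨a, _ | ⟨b, l⟩⟩
  · exact Or.inl ⟨m, rfl⟩
  · rcases m with _ | ⟨b, m⟩
    · right
      refine ⟨[a], ?_⟩
      exact coe_rot [u, a] [v]
    · simp only [List.length_cons, List.length_nil] at h
      omega
  · simp only [List.length_cons] at h
    omega

lemma len_eq {a b : List V} (h : (↑a : Cycle V) = ↑b) : a.length = b.length :=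
  (Cycle.coe_eq_coe.1 h).perm.length_eq

lemma content_len (hFLO : T_FLO) {fl : Region V} {W : Multiset V} {FI : Multiset (Region V)}
    (h : Content fl W FI) {l : List V} (hl : (↑l : Cycle V) ∈ fl) : l.length ≤ 3 := by
  rcases h with ⟨h1, rfl⟩ | ⟨x, y, z, W', rfl, rfl, h3⟩
  · rcases (hFLO V _ _ h1).2.1 _ hl with ⟨v, hv⟩ | ⟨v, w, hv⟩
    · rw [len_eq hv]; simp
    · rw [len_eq hv]; simp
  · rw [Multiset.mem_singleton] at hl
    rw [len_eq hl]; simp

lemma use_floats (hADJ : T_ADJ) (hFLO : T_FLO)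
    {n : ℕ} {r : List ℕ} {base : List (Tag × List ℕ)} (hS : (n, r, base) ∈ openList) (c : Ctx V)
    (hT : ∀ i w, (Tag.T i, w) ∈ toLF base → Reg (w.map c.f) (c.WS i) (c.FS i))
    (hC : Content (c.FL 0) (c.WL 0) (c.FI 0))
    (hcok : COK c n (toLF ((.R 0, r) :: base)))
    (u : V) (l : List V) (v : V) (m : List V) (fl' : Region V)
    (hfl : c.FL 0 = (↑(u :: l) : Cycle V) ::ₘ (↑(v :: m) : Cycle V) ::ₘ fl') :
    Good ↑[c.f 0, c.f 1, c.f 2] (((inner n).map c.f : Multiset V) + vs c (toLF ((.R 0, r) :: base)))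
      (((↑(r.map c.f) : Cycle V) ::ₘ (↑(joinWalk u l v m) : Cycle V) ::ₘ fl') ::ₘ (c.FI 0 + real c (toLF base))) := by
  have hnd : (c.WL 0).Nodup := by
    have h := (Multiset.nodup_add.1 hcok.nodup).2.1
    rw [toLF_cons, vs_cons] at h
    exact (Multiset.nodup_add.1 h).1
  rcases hC with ⟨hF, hFI⟩ | ⟨x, y, z, W', h1, -, -⟩
  swap
  · have := congrArg Multiset.card (hfl.symm.trans h1)
    simp at this
  rw [hFI, zero_add]
  obtain ⟨-, h2, h3, h4, -, -⟩ := hFLO V _ _ hF
  have hl : l.length ≤ 1 := by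
    rcases h2 _ (by rw [hfl]; exact Multiset.mem_cons_self _ _) with ⟨a, ha⟩ | ⟨a, b, ha⟩
    · have := len_eq ha; simp at this; simp [this]
    · have := len_eq ha; simp at this; omega
  have hm : m.length ≤ 1 := by
    rcases h2 _ (by rw [hfl]; exact Multiset.mem_cons_of_mem (Multiset.mem_cons_self _ _)) with ⟨a, ha⟩ | ⟨a, b, ha⟩
    · have := len_eq ha; simp at this; simp [this]
    · have := len_eq ha; simp at this; omega
  rcases l with _ | ⟨w, _ | ⟨_, _⟩⟩
  · obtain ⟨W₁, hW₁, hF₁⟩ := h3 u _ hfl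
    obtain ⟨-, -, h3', h4', -, -⟩ := hFLO V _ _ hF₁
    rcases m with _ | ⟨t, _ | ⟨_, _⟩⟩
    · -- two isolated points
      obtain ⟨W₂, hW₂, hF₂⟩ := h3' v _ rfl
      left
      let c' : Ctx V := { c with FL := fun _ => (↑[u, v] : Cycle V) ::ₘ fl', FI := fun _ => 0 }
      have hC' : Content (c'.FL 0) (c'.WL 0) (c'.FI 0) := by
        left
        refine ⟨?_, rfl⟩
        show Floats ((↑[u, v] : Cycle V) ::ₘ fl') (c.WL 0)
        rw [hW₁, hW₂]
        exact Floats.k2 u v fl' W₂ hF₂
      have h := reg_open hS c' hT hC'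
      obtain ⟨hb1, hb2⟩ := base_congr hS (c := c) (c' := c') (fun _ _ => rfl) rfl rfl
      have hreal : real c' (toLF ((.R 0, r) :: base)) =
          ((↑(r.map c.f) : Cycle V) ::ₘ (↑(joinWalk u [] v []) : Cycle V) ::ₘ fl') ::ₘ real c (toLF base) := by
        rw [toLF_cons, real_cons, hb1]
        show ((↑(r.map c.f) : Cycle V) ::ₘ (↑[u, v] : Cycle V) ::ₘ fl') ::ₘ 0 + _ = _
        rw [Multiset.cons_add, zero_add]
        rfl
      have hvs : vs c' (toLF ((.R 0, r) :: base)) = vs c (toLF ((.R 0, r) :: base)) := by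
        rw [toLF_cons, vs_cons, vs_cons, hb2]
        rfl
      rw [hreal, hvs] at h
      exact h
    · -- an isolated point and an edge
      obtain ⟨W₂, hW₂, hF₂⟩ := h4' v t _ rfl
      have hWL : c.WL 0 = u ::ₘ v ::ₘ t ::ₘ W₂ := by rw [hW₁, hW₂]
      rw [hWL] at hnd
      simp only [Multiset.nodup_cons, Multiset.mem_cons, not_or] at hnd
      obtain ⟨⟨huv, hut, hu⟩, ⟨hvt, hv⟩, ht, -⟩ := hnd
      have h := close_use hADJ hS c hT hcok u v t [v] fl' W₂ hWL
        (reg_tri t v u (Or.inl ⟨hF₂, rfl⟩)) ?_ ?_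
      · exact h
      · simp [cprs_cons_cons, huv, hut, Ne.symm hut, Ne.symm hvt]
      · intro w hw hu'
        exact hu (floats_mem hF₂ w hw u hu')
    · simp at hm
  · obtain ⟨W₁, hW₁, hF₁⟩ := h4 u w _ hfl
    obtain ⟨-, -, h3', h4', -, -⟩ := hFLO V _ _ hF₁
    rcases m with _ | ⟨t, _ | ⟨_, _⟩⟩
    · -- an edge and an isolated point
      obtain ⟨W₂, hW₂, hF₂⟩ := h3' v _ rfl
      have hWL : c.WL 0 = v ::ₘ u ::ₘ w ::ₘ W₂ := by
        rw [hW₁, hW₂, Multiset.cons_swap w v, Multiset.cons_swap u v]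
      rw [hWL] at hnd
      simp only [Multiset.nodup_cons, Multiset.mem_cons, not_or] at hnd
      obtain ⟨⟨hvu, hvw, hv⟩, ⟨huw, hu⟩, hw, -⟩ := hnd
      have h := close_use hADJ hS c hT hcok v u w [u] fl' W₂ hWL
        (reg_tri w u v (Or.inl ⟨hF₂, rfl⟩)) ?_ ?_
      · have e : (↑(joinWalk u [w] v []) : Cycle V) = ↑[v, u, w, u] := by
          show (↑[u, v, u, w] : Cycle V) = _
          exact coe_rot [u] [v, u, w]
        rw [e]
        exact h
      · simp [cprs_cons_cons, hvu, hvw, Ne.symm hvw, Ne.symm huw]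
      · intro w hw hu'
        exact hv (floats_mem hF₂ w hw v hu')
    · -- two edges
      obtain ⟨W₂, hW₂, hF₂⟩ := h4' v t _ rfl
      have hWL : c.WL 0 = w ::ₘ u ::ₘ v ::ₘ (t ::ₘ W₂) := by
        rw [hW₁, hW₂, Multiset.cons_swap w u]
      rw [hWL] at hnd
      simp only [Multiset.nodup_cons, Multiset.mem_cons, not_or] at hnd
      obtain ⟨⟨hwu, hwv, hwt, hw⟩, ⟨huv, hut, hu⟩, ⟨hvt, hv⟩, ht, -⟩ := hnd
      have hV := reg_V v u w t (Or.inl ⟨hF₂, rfl⟩)
      have e1 : (↑[v, u, w, v, t] : Cycle V) = ↑(v :: ([t, v, u] ++ [w])) := coe_rot [v, u, w] [v, t]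
      rw [e1] at hV
      have h := close_use hADJ hS c hT hcok w u v [t, v, u] fl' (t ::ₘ W₂) hWL hV ?_ ?_
      · have e : (↑(joinWalk u [w] v [t]) : Cycle V) = ↑[w, u, v, t, v, u] := by
          show (↑[u, v, t, v, u, w] : Cycle V) = _
          exact coe_rot [u, v, t, v, u] [w]
        rw [e]
        exact h
      · simp [cprs_cons_cons, hwu, hwv, hwt, hvt, Ne.symm hwv, Ne.symm huv]
      · intro w' hw' hu'
        exact hw (floats_mem hF₂ w' hw' w hu')
    · simp at hm
  · simp at hl

lemma open_nonempty {n : ℕ} {r : List ℕ} {base : List (Tag × List ℕ)} (hS : (n, r, base) ∈ openList) :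
    ∀ x ∈ toLF base, x.1 = .E → ∃ a b d : ℕ, x.2 = ↑[a, b, d] := by
  intro x hx hE
  obtain ⟨y, hy, rfl⟩ := Pool.Agent.H48.DG.FIN.mem_toLF.1 hx
  have : ∀ S ∈ openList, ∀ y ∈ S.2.2, y.2.length = 3 := by decide
  have h := this _ hS y hy
  rcases y with ⟨t, _ | ⟨a, _ | ⟨b, _ | ⟨d, _ | ⟨e, y⟩⟩⟩⟩⟩
  all_goals first | (exact ⟨a, b, d, rfl⟩) | (simp at h)

lemma step_open (hADJ : T_ADJ) (hLMR : T_LMR) (hLMP : T_LMP) (hSND : T_SND) (hLOC : T_LOC) (hFLO : T_FLO)
    (hINV : T_INV) (hDEC : T_DEC) (hCAS : T_CAS)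
    (hSPL : T_SPL) (hAT1 : T_AT1) (hAT2 : T_AT2) (hAT3 : T_AT3) (hREP : T_REP)
    {n : ℕ} {r : List ℕ} {base : List (Tag × List ℕ)} (hS : (n, r, base) ∈ openList) (c : Ctx V)
    (hT : ∀ i w, (Tag.T i, w) ∈ toLF base → Reg (w.map c.f) (c.WS i) (c.FS i))
    (hC : Content (c.FL 0) (c.WL 0) (c.FI 0))
    (hcok : COK c n (toLF ((.R 0, r) :: base)))
    (ihT : ∀ i w, (Tag.T i, w) ∈ toLF base → ∀ F', LStep (c.FS i) F' → Good (w.map c.f) (c.WS i) F')
    (ihR : ∀ FI', LStep (c.FI 0) FI' → Good ↑[c.f 0, c.f 1, c.f 2]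
      (((inner n).map c.f : Multiset V) + vs c (toLF ((.R 0, r) :: base)))
      ({(↑(r.map c.f) : Cycle V) ::ₘ c.FL 0} + FI' + real c (toLF base)))
    {F' : Multiset (Region V)} (hF : LStep (real c (toLF ((.R 0, r) :: base))) F') :
    Good ↑[c.f 0, c.f 1, c.f 2] (((inner n).map c.f : Multiset V) + vs c (toLF ((.R 0, r) :: base))) F' := by
  have hlr : ∀ i ∈ r, i < n := by
    intro i hi
    exact hcok.lab _ (by rw [toLF_cons]; exact Multiset.mem_cons_self _ _) i (Cycle.mem_coe_iff.2 hi)
  have hAdj := (hADJ V c n _ hcok).1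
  -- a rich face is the rich face
  have hrich : ∀ (k : ℕ) (w : Cycle ℕ) (G : LF), toLF ((.R 0, r) :: base) = (Tag.R k, w) ::ₘ G →
      k = 0 ∧ w = ↑r ∧ G = toLF base := by
    intro k w G h
    rw [toLF_cons] at h
    rcases Multiset.cons_eq_cons.1 h with ⟨h1, h2⟩ | ⟨-, cs, h1, -⟩
    · simp only [Prod.mk.injEq, Tag.R.injEq] at h1
      exact ⟨h1.1.symm, h1.2.symm, h2.symm⟩
    · exfalso
      have h2 : (Tag.R k, w) ∈ toLF base := by rw [h1]; exact Multiset.mem_cons_self _ _
      rcases (base_facts hS _ h2).1 with h | h <;> exact absurd h (by simp)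
  rcases hCAS V c n _ F' hcok hF with ⟨L', hm, rfl⟩ | ⟨k, w, G, u, v, Ψ, hL, huv, hadj, hm, rfl⟩ |
    ⟨k, w, G, FI', hL, hst, rfl⟩ | ⟨i, w, G, FS', hL, hst, rfl⟩
  · -- a label move
    generalize hL : toLF ((.R 0, r) :: base) = L at hm
    cases hm with
    | E u v l m G huv hadj =>
      exfalso
      have hmem : (Tag.E, (↑(u :: (l ++ v :: m)) : Cycle ℕ)) ∈ toLF base := by
        have h : (Tag.E, (↑(u :: (l ++ v :: m)) : Cycle ℕ)) ∈ toLF ((.R 0, r) :: base) := by
          rw [hL]; exact Multiset.mem_cons_self _ _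
        rw [toLF_cons, Multiset.mem_cons] at h
        rcases h with h | h
        · exact absurd h (by simp)
        · exact h
      obtain ⟨a, b, d, habd⟩ := open_nonempty hS _ hmem rfl
      have hlen := (Cycle.coe_eq_coe.1 habd).perm.length_eq
      simp only [List.length_cons, List.length_append, List.length_nil] at hlen
      have hd : IsDart (↑(u :: (l ++ v :: m)) : Cycle ℕ) u v ∨ IsDart (↑(u :: (l ++ v :: m)) : Cycle ℕ) v u :=
        short_walk (by omega)
      apply hadj
      refine ⟨_, Multiset.mem_cons_self _ _, ?_⟩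
      rw [mem_cdarts, mem_cdarts]
      exact hd
    | R k u v l m G huv hadj =>
      obtain ⟨rfl, hr, hG⟩ := hrich k _ G hL
      rw [← hL] at hadj
      have h1 := (hDEC ℕ id r).1 u v l m (by rw [List.map_id]; exact hr)
      simp only [List.map_id, id] at h1
      obtain ⟨p, l', q, u', v', hr', hcase⟩ := h1
      rw [real_cons, real_cons, hG]
      rcases hcase with ⟨rfl, rfl, rfl, rfl⟩ | ⟨rfl, rfl, rfl, rfl⟩
      · exact use_spl hLMR hLMP hSND hLOC hSPL hS c hT hcok p l q u v hr' huv hadj (c.FL 0) 0 (c.WL 0) 0 (c.FI 0) 0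
          hC content_nil (by simp)
      · have hadj' : ¬ LAdj (toLF ((.R 0, r) :: base)) v u := by
          intro h
          apply hadj
          obtain ⟨x, hx, h⟩ := h
          exact ⟨x, hx, h.symm⟩
        have h := use_spl hLMR hLMP hSND hLOC hSPL hS c hT hcok p m q v u hr' (Ne.symm huv) hadj' 0 (c.FL 0) 0 (c.WL 0) 0
          (c.FI 0) content_nil hC (by simp)
        have e : real1 c (Tag.R 0, (↑(u :: ((q ++ p) ++ [v])) : Cycle ℕ)) +
            (real1 c (Tag.E, (↑(v :: (m ++ [u])) : Cycle ℕ)) + real c (toLF base)) =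
            ((((↑((v :: (m ++ [u])).map c.f) : Cycle V) ::ₘ (0 : Region V)) ::ₘ (0 : Multiset (Region V))) +
        ((((↑((u :: ((q ++ p) ++ [v])).map c.f) : Cycle V) ::ₘ c.FL 0) ::ₘ c.FI 0) + real c (toLF base))) := by
          rw [add_left_comm]
          rfl
        rw [e]
        exact h
  · -- a move in the rich region
    obtain ⟨rfl, rfl, rfl⟩ := hrich k w G hL
    rcases hINV V _ _ u v Ψ hm with ⟨l, m, fl₁, fl₂, hX, hfl, rfl⟩ | ⟨u', v', l, m, fl', huv', hX, hfl, rfl⟩ |
      ⟨l, m, fl', hfl, rfl⟩ | ⟨l, m, hfl⟩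
    · -- chord
      obtain ⟨p, l', q, u', v', hr', hcase⟩ := (hDEC V c.f r).1 u v l m hX.symm
      have hu' : u' ∈ r := by rw [hr']; simp
      have hv' : v' ∈ r := by rw [hr']; simp
      have hne : u' ≠ v' := by
        rintro rfl
        rcases hcase with ⟨h1, h2, _⟩ | ⟨h1, h2, _⟩
        · exact huv (h1.trans h2.symm)
        · exact huv (h2.trans h1.symm)
      have hnl : ¬ LAdj (toLF ((.R 0, r) :: base)) u' v' := by
        intro hl
        have h4 := (hAdj u' v' (hlr u' hu') (hlr v' hv') hne).2 hl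
        rcases hcase with ⟨h1, h2, _⟩ | ⟨h1, h2, _⟩
        · rw [h1, h2] at hadj; exact hadj h4
        · rw [h1, h2] at hadj; exact hadj h4.symm
      rw [hfl] at hC
      obtain ⟨W₁, W₂, FI₁, FI₂, hW, hFI, hC₁, hC₂⟩ := content_split hFLO hC
      rcases hcase with ⟨rfl, rfl, rfl, rfl⟩ | ⟨rfl, rfl, rfl, rfl⟩
      · have h := use_spl hLMR hLMP hSND hLOC hSPL hS c hT hcok p l' q u' v' hr' hne hnl fl₁ fl₂ W₁ W₂ FI₁ FI₂
          hC₁ hC₂ hW
        rw [hFI]
        have e : ({(↑(c.f u' :: (l'.map c.f ++ [c.f v'])) : Cycle V) ::ₘ fl₁,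
            (↑(c.f v' :: ((q ++ p).map c.f ++ [c.f u'])) : Cycle V) ::ₘ fl₂} : Multiset (Region V)) + (FI₁ + FI₂) +
            real c (toLF base) =
            ((((↑((u' :: (l' ++ [v'])).map c.f) : Cycle V) ::ₘ fl₁) ::ₘ FI₁) +
        ((((↑((v' :: ((q ++ p) ++ [u'])).map c.f) : Cycle V) ::ₘ fl₂) ::ₘ FI₂) + real c (toLF base))) := by
          simp only [List.map_cons, List.map_append, List.map_nil, Multiset.insert_eq_cons]
          simp only [← Multiset.singleton_add (_ ::ₘ fl₁), ← Multiset.singleton_add (_ ::ₘ fl₂)]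
          abel
        rw [e]
        exact h
      · have h := use_spl hLMR hLMP hSND hLOC hSPL hS c hT hcok p l' q u' v' hr' hne hnl fl₂ fl₁ W₂ W₁ FI₂ FI₁
          hC₂ hC₁ (by rw [hW, add_comm])
        rw [hFI]
        have e : ({(↑(c.f v' :: ((q ++ p).map c.f ++ [c.f u'])) : Cycle V) ::ₘ fl₁,
            (↑(c.f u' :: (l'.map c.f ++ [c.f v'])) : Cycle V) ::ₘ fl₂} : Multiset (Region V)) + (FI₁ + FI₂) +
            real c (toLF base) =
            ((((↑((u' :: (l' ++ [v'])).map c.f) : Cycle V) ::ₘ fl₂) ::ₘ FI₂) +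
        ((((↑((v' :: ((q ++ p) ++ [u'])).map c.f) : Cycle V) ::ₘ fl₁) ::ₘ FI₁) + real c (toLF base))) := by
          simp only [List.map_cons, List.map_append, List.map_nil, Multiset.insert_eq_cons]
          simp only [← Multiset.singleton_add (_ ::ₘ fl₁), ← Multiset.singleton_add (_ ::ₘ fl₂)]
          abel
        rw [e]
        exact h
    · -- the big walk is joined with a float
      obtain ⟨a, l', hra, rfl, rfl⟩ := (hDEC V c.f r).2 u' l hX.symm
      rw [add_assoc]
      rcases hC with ⟨hF₀, hFI⟩ | ⟨x, y, z, W', h1, h2, h3⟩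
      · obtain ⟨-, h2, h3, h4, -, -⟩ := hFLO V _ _ hF₀
        rcases h2 _ (by rw [hfl]; exact Multiset.mem_cons_self _ _) with ⟨b, hb⟩ | ⟨b, d, hb⟩
        · have hlen := len_eq hb
          simp only [List.length_cons, List.length_nil, Nat.add_eq_right, List.length_eq_zero_iff] at hlen
          subst hlen
          obtain ⟨W₁, hW₁, hF₁⟩ := h3 v' _ hfl
          have h := use_join hLMR hLMP hSND hLOC hS c hT hcok a l' hra v' [] [] rfl (hAT1 _ hS a l' hra) fl' W₁ 0
            (Or.inl ⟨hF₁, rfl⟩) (by rw [hW₁]; rfl)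
          rw [hFI, zero_add, Multiset.singleton_add]
          exact h
        · have hlen := len_eq hb
          simp only [List.length_cons, List.length_nil] at hlen
          rcases m with _ | ⟨e, _ | ⟨_, _⟩⟩
          · simp at hlen
          · obtain ⟨W₁, hW₁, hF₁⟩ := h4 v' e _ hfl
            have h := use_join hLMR hLMP hSND hLOC hS c hT hcok a l' hra v' [e] [n + 1] rfl (hAT2 _ hS a l' hra) fl' W₁ 0
              (Or.inl ⟨hF₁, rfl⟩) (by
                rw [hW₁]
                show v' ::ₘ e ::ₘ W₁ = (v' ::ₘ e ::ₘ 0) + W₁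
                simp)
            rw [hFI, zero_add, Multiset.singleton_add]
            exact h
          · simp at hlen
      · have hfl2 : fl' = 0 := by
          have := congrArg Multiset.card (hfl.symm.trans h1)
          simpa using this
        subst hfl2
        have h4 : (↑(v' :: m) : Cycle V) = ↑[x, y, z] := by
          have h5 := hfl.symm.trans h1
          rw [Multiset.cons_zero] at h5
          exact Multiset.singleton_inj.1 h5
        have key : ∃ y' z', m = [y', z'] ∧ c.WL 0 = v' ::ₘ y' ::ₘ z' ::ₘ W' ∧ (↑[z', y', v'] : Cycle V) = ↑[z, y, x] := by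
          obtain ⟨k, hk⟩ := Cycle.coe_eq_coe.1 h4.symm
          have hk3 : ∃ j < 3, [x, y, z].rotate j = v' :: m := by
            refine ⟨k % 3, Nat.mod_lt _ (by norm_num), ?_⟩
            rw [← hk]
            exact List.rotate_mod [x, y, z] k
          obtain ⟨j, hj, hjk⟩ := hk3
          interval_cases j
          · simp at hjk
            obtain ⟨rfl, rfl⟩ := hjk
            exact ⟨y, z, rfl, h2, rfl⟩
          · simp at hjk
            obtain ⟨rfl, rfl⟩ := hjk
            refine ⟨z, x, rfl, ?_, coe_rot [x] [z, y]⟩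
            rw [h2, Multiset.cons_swap x y, Multiset.cons_swap x z]
          · simp at hjk
            obtain ⟨rfl, rfl⟩ := hjk
            refine ⟨x, y, rfl, ?_, (coe_rot [z] [y, x]).symm⟩
            rw [h2, Multiset.cons_swap y z, Multiset.cons_swap x z]
        obtain ⟨y', z', rfl, hWL, he⟩ := key
        rw [← he] at h3
        exact use_join3 hLMR hLMP hSND hLOC hS c hT hcok a l' hra v' y' z' (hAT3 _ hS a l' hra) W' (c.FI 0) h3 hWL
    · -- two floats are joined
      have h := use_floats hADJ hFLO hS c hT hC hcok u l v m fl' hfl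
      rw [add_assoc, Multiset.singleton_add]
      exact h
    · -- a chord in a float is impossible
      exfalso
      have hlen := content_len hFLO hC hfl
      simp only [List.length_cons, List.length_append] at hlen
      have hd := short_walk (u := u) (v := v) (l := l) (m := m) (by omega)
      apply hadj
      rw [toLF_cons, real_cons]
      refine ⟨(↑(r.map c.f) : Cycle V) ::ₘ c.FL 0, ?_, _, Multiset.mem_cons_of_mem hfl, hd⟩
      exact Multiset.mem_add.2 (Or.inl (Multiset.mem_cons_self _ _))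
  · -- a move inside the content
    obtain ⟨rfl, rfl, rfl⟩ := hrich k w G hL
    exact ihR FI' hst
  · -- a move inside a part
    have hmem : (Tag.T i, w) ∈ toLF base := by
      have h : (Tag.T i, w) ∈ toLF ((.R 0, r) :: base) := by rw [hL]; exact Multiset.mem_cons_self _ _
      rw [toLF_cons, Multiset.mem_cons] at h
      rcases h with h | h
      · exact absurd h (by simp)
      · exact h
    have hcok2 := hcok
    rw [hL] at hcok2
    refine part_use hADJ c n i w G hcok2 hst (ihT i w hmem FS' hst) ?_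
    intro X hX
    have htag := base_tags hS
    rw [hL] at htag
    obtain ⟨h1, h2, h3, h4⟩ := hREP V c i w G X htag
    have h := reg_open hS { c with FS := Function.update c.FS i X } ?_ hC
    · rw [h3, hL, h1] at h
      rw [hL]
      exact h
    · intro j w' hw'
      show Reg (w'.map c.f) (c.WS j) (Function.update c.FS i X j)
      have h5 : (Tag.T j, w') ∈ (Tag.T i, w) ::ₘ G := by
        rw [← hL, toLF_cons]
        exact Multiset.mem_cons_of_mem hw'
      rcases Multiset.mem_cons.1 h5 with h5 | h5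
      · simp only [Prod.mk.injEq, Tag.T.injEq] at h5
        obtain ⟨rfl, rfl⟩ := h5
        rw [Function.update_self]
        exact hX
      · rw [h4 j w' h5]
        exact hT j w' hw'

theorem pf_STEP' (hADJ : T_ADJ) (hLMR : T_LMR) (hLMP : T_LMP) (hSND : T_SND) (hLOC : T_LOC) (hFLO : T_FLO)
    (hINV : T_INV) (hDEC : T_DEC) (hCAS : T_CAS)
    (hSPL : T_SPL) (hAT1 : T_AT1) (hAT2 : T_AT2) (hAT3 : T_AT3) (hREP : T_REP) (hNOD : T_NOD) : T_STEP := by
  intro V o W F hnd hR
  revert hnd
  induction hR with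
  | comp n L hL c hT ih =>
    intro hnd F' hF
    obtain ⟨h1, h2, -⟩ := hNOD V c n L hL.three hnd hL.lab hL.tri
    have hcok : COK c n L := by
      refine ⟨h1, hL.lab, hL.tri, ?_, ?_⟩
      · intro i w hw
        exact (hLOC V _ _ _ (hT i w hw)).1
      · intro k w hw
        exact absurd rfl (hL.noR _ hw k)
    rcases hCAS V c n _ F' hcok hF with ⟨L', hm, rfl⟩ | ⟨k, w, G, u, v, Ψ, hL', huv, hadj, hm, rfl⟩ |
      ⟨k, w, G, FI', hL', hst, rfl⟩ | ⟨i, w, G, FS', hL', hst, rfl⟩
    · left
      obtain ⟨-, -, hvs⟩ := hLMR V c n L L' hcok hm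
      obtain ⟨-, -, -, hiff, hcomp⟩ := hLMP L L' hm
      rw [← hvs]
      exact Reg.comp n L' (hcomp n hL) c (fun i w hw => hT i w ((hiff i w).1 hw))
    · exact absurd rfl (hL.noR _ (by rw [hL']; exact Multiset.mem_cons_self _ _) k)
    · exact absurd rfl (hL.noR _ (by rw [hL']; exact Multiset.mem_cons_self _ _) k)
    · have hmem : (Tag.T i, w) ∈ L := by rw [hL']; exact Multiset.mem_cons_self _ _
      have hcok2 := hcok
      rw [hL'] at hcok2
      refine part_use hADJ c n i w G hcok2 hst (ih i w hmem (h2 i w hmem) FS' hst) ?_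
      intro X hX
      have htag := hL.nd
      rw [hL'] at htag
      obtain ⟨h1, h2, h3, h4⟩ := hREP V c i w G X htag
      have h := Reg.comp n L hL { c with FS := Function.update c.FS i X } ?_
      · rw [h3, hL', h1] at h
        rw [hL']
        exact h
      · intro j w' hw'
        show Reg (w'.map c.f) (c.WS j) (Function.update c.FS i X j)
        have h5 : (Tag.T j, w') ∈ (Tag.T i, w) ::ₘ G := by
          rw [← hL']
          exact hw'
        rcases Multiset.mem_cons.1 h5 with h5 | h5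
        · simp only [Prod.mk.injEq, Tag.T.injEq] at h5
          obtain ⟨rfl, rfl⟩ := h5
          rw [Function.update_self]
          exact hX
        · rw [h4 j w' h5]
          exact hT j w' hw'
  | openA n r base hS c hT hfl hFI ih =>
    intro hnd F' hF
    have hC : Content (c.FL 0) (c.WL 0) (c.FI 0) := Or.inl ⟨hfl, hFI⟩
    have hcok := open_cok hNOD hLOC hS c hT (content_rloc hLOC hC) hnd
    obtain ⟨h3, hlab, htri⟩ := open_facts _ hS
    obtain ⟨-, h2, -⟩ := hNOD V c n _ h3 hnd hcok.lab hcok.tri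
    refine step_open hADJ hLMR hLMP hSND hLOC hFLO hINV hDEC hCAS hSPL hAT1 hAT2 hAT3 hREP hS c hT hC hcok ?_ ?_ hF
    · intro i w hw F' hF'
      exact ih i w hw (h2 i w (by rw [toLF_cons]; exact Multiset.mem_cons_of_mem hw)) F' hF'
    · intro FI' hFI'
      rw [hFI] at hFI'
      obtain ⟨u, v, -, -, Φ, Ψ, G, h, -⟩ := hFI'
      exact absurd h.symm (Multiset.cons_ne_zero)
  | openB n r base hS c hT x y z W' hFL hWL hB ih ihB =>
    intro hnd F' hF
    have hC : Content (c.FL 0) (c.WL 0) (c.FI 0) := Or.inr ⟨x, y, z, W', hFL, hWL, hB⟩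
    have hcok := open_cok hNOD hLOC hS c hT (content_rloc hLOC hC) hnd
    obtain ⟨h3, hlab, htri⟩ := open_facts _ hS
    obtain ⟨-, h2, h4⟩ := hNOD V c n _ h3 hnd hcok.lab hcok.tri
    refine step_open hADJ hLMR hLMP hSND hLOC hFLO hINV hDEC hCAS hSPL hAT1 hAT2 hAT3 hREP hS c hT hC hcok ?_ ?_ hF
    · intro i w hw F' hF'
      exact ih i w hw (h2 i w (by rw [toLF_cons]; exact Multiset.mem_cons_of_mem hw)) F' hF'
    · intro FI' hFI'
      have hWnd : (c.WL 0).Nodup := h4 0 _ (by rw [toLF_cons]; exact Multiset.mem_cons_self _ _)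
      have hnd2 : ((↑[z, y, x] : Cycle V).toMultiset + W').Nodup := by
        have e : (↑[z, y, x] : Cycle V).toMultiset + W' = c.WL 0 := by
          rw [hWL]
          show (z ::ₘ y ::ₘ x ::ₘ 0) + W' = _
          simp only [Multiset.cons_add, zero_add]
          rw [Multiset.cons_swap y x, Multiset.cons_swap z x, Multiset.cons_swap z y]
        rw [e]
        exact hWnd
      have hbuild : ∀ X, Reg ↑[z, y, x] W' X → Reg ↑[c.f 0, c.f 1, c.f 2]
          (((inner n).map c.f : Multiset V) + vs c (toLF ((.R 0, r) :: base)))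
          (X + ({(↑(r.map c.f) : Cycle V) ::ₘ c.FL 0} + real c (toLF base))) := by
        intro X hX
        let c' : Ctx V := { c with FI := fun _ => X }
        have h := Reg.openB n r base hS c' hT x y z W' hFL hWL hX
        obtain ⟨hb1, hb2⟩ := base_congr hS (c := c) (c' := c') (fun _ _ => rfl) rfl rfl
        have hreal : real c' (toLF ((.R 0, r) :: base)) =
            X + ({(↑(r.map c.f) : Cycle V) ::ₘ c.FL 0} + real c (toLF base)) := by
          rw [toLF_cons, real_cons, hb1]
          show ((↑(r.map c.f) : Cycle V) ::ₘ c.FL 0) ::ₘ X + _ = _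
          rw [← Multiset.singleton_add]
          abel
        have hvs : vs c' (toLF ((.R 0, r) :: base)) = vs c (toLF ((.R 0, r) :: base)) := by
          rw [toLF_cons, vs_cons, vs_cons, hb2]
          rfl
        rw [hreal, hvs] at h
        exact h
      have e : ({(↑(r.map c.f) : Cycle V) ::ₘ c.FL 0} : Multiset (Region V)) + FI' + real c (toLF base) =
          FI' + ({(↑(r.map c.f) : Cycle V) ::ₘ c.FL 0} + real c (toLF base)) := by
        abel
      rw [e]
      rcases ihB hnd2 FI' hFI' with h | ⟨FI'', h5, h6⟩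
      · exact Or.inl (hbuild _ h)
      · right
        refine ⟨FI'' + ({(↑(r.map c.f) : Cycle V) ::ₘ c.FL 0} + real c (toLF base)), ?_, hbuild _ h6⟩
        refine h5.lift (hFI'.loc (hLOC V _ _ _ hB).1) ?_
        intro v hv hvW
        have hv' : v ∈ vs1 c (Tag.R 0, (↑r : Cycle ℕ)) := by
          show v ∈ c.WL 0
          rw [hWL]; simp [hvW]
        obtain ⟨h7, h8⟩ := (hADJ V c n _ hcok).2.2.2 (Tag.R 0, (↑r : Cycle ℕ)) (toLF base) (toLF_cons _ _) v hv'
        rw [inR_add] at hv
        rcases hv with hv | hv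
        · rw [inR_sing] at hv
          obtain ⟨w, hw, hvw⟩ := hv
          rcases Multiset.mem_cons.1 hw with rfl | hw
          · rw [Cycle.mem_coe_iff, List.mem_map] at hvw
            obtain ⟨i, hi, hiv⟩ := hvw
            refine h8 i ?_ hiv
            exact hcok.lab _ (by rw [toLF_cons]; exact Multiset.mem_cons_self _ _) i (Cycle.mem_coe_iff.2 hi)
          · rw [hFL, Multiset.mem_singleton] at hw
            subst hw
            rw [hWL] at hWnd
            simp only [Multiset.nodup_cons, Multiset.mem_cons, not_or] at hWnd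
            simp only [Cycle.mem_coe_iff, List.mem_cons, List.not_mem_nil, or_false] at hvw
            rcases hvw with rfl | rfl | rfl
            · exact hWnd.1.2.2 hvW
            · exact hWnd.2.1.2 hvW
            · exact hWnd.2.2.1 hvW
        · exact h7 hv

end Pool.Agent.H44.DG.Step
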