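import Pool.Agent.H44.DG.Table
import Pool.Agent.H44.DG.Step
import Pool.Agent.H65.DG.CAS
import Pool.Agent.H65.DG.OPC
import Pool.Agent.H59.DG.EXT
import Pool.Agent.H85.DG.PTH
import Pool.Agent.H29.DG.LOC
import Pool.Agent.H29.DG.NOD
import Pool.Agent.H81.DG.OPA
import Pool.Agent.H2.DG.OPB
import Pool.Agent.H48.DG.FIN
import Pool.Agent.H58.DG.REP
import Pool.Agent.H58.DG.GAM

/-! Assembly of the `1 : 1` side. -/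

namespace Pool.Agent.H44.DG

open Pool.Agent

theorem pf_STEP (hREP : T_REP) : T_STEP :=
  Step.pf_STEP' H3.DG.ADJ.pf_ADJ H3.DG.LMR.pf_LMR H3.DG.LMP.pf_LMP H85.DG.SND.pf_SND H29.DG.LOC.pf_LOC
    H65.DG.FLO.pf_FLO H33.DG.INV.pf_INV H33.DG.DEC.pf_DEC H65.DG.CAS.pf_CAS pf_SPL pf_AT1 pf_AT2 pf_AT3 hREP
    H29.DG.NOD.pf_NOD

theorem pf_EXT (hREP : T_REP) : T_EXT :=
  H59.DG.EXT.pf_EXT' H3.DG.ADJ.pf_ADJ H3.DG.LMR.pf_LMR H3.DG.LMP.pf_LMP H65.DG.CAS.pf_CAS H65.DG.FLO.pf_FLO hREP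
    H29.DG.NOD.pf_NOD H85.DG.SND.pf_SND H29.DG.LOC.pf_LOC pf_PAS

theorem pf_FIN : T_FIN :=
  H48.DG.FIN.pf_FIN' H3.DG.ADJ.pf_ADJ H3.DG.LMR.pf_LMR H29.DG.NOD.pf_NOD H29.DG.LOC.pf_LOC
    (H85.DG.PTH.pf_PTH H3.DG.ADJ.pf_ADJ)

theorem pf_ONE : T_ONE := by
  refine H65.DG.OPC.pf_OPC (H58.DG.pf_GAM (pf_STEP H58.DG.pf_REP) (pf_EXT H58.DG.pf_REP) pf_FIN H29.DG.LOC.pf_LOC) ?_
  rintro n D hE (h | h)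
  · exact H2.DG.OPB.pf_OPB n 3 [0, 1, 2, 1] (by decide) H81.DG.pf_OPA.1 D hE h
  · exact H2.DG.OPB.pf_OPB n 4 [0, 1, 2, 3, 2, 1] (by decide) H81.DG.pf_OPA.2 D hE h

end Pool.Agent.H44.DG
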