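import Pool.Agent.H65.DG.SB
import Pool.Agent.H59.DG.SC
import Pool.Agent.H48.DG.SD
import Pool.Agent.H85.DG.SE
import Pool.Agent.H33.DG.SF
import Pool.Agent.H33.DG.SG

/-! Soundness of the model: every play on `n ≥ 3` points ends with a triangulation. -/

namespace Pool.Agent.H44.DG

theorem pf_SG : T_SG :=
  Pool.Agent.H33.DG.SG.pf_SG Pool.Agent.H65.DG.SB.pf_SB Pool.Agent.H59.DG.SC.pf_SC
    (Pool.Agent.H48.DG.SD.pf_SD Pool.Agent.H59.DG.SC.pf_SC)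
    (Pool.Agent.H33.DG.SF.pf_SF Pool.Agent.H59.DG.SC.pf_SC
      (Pool.Agent.H48.DG.SD.pf_SD Pool.Agent.H59.DG.SC.pf_SC)
      (Pool.Agent.H85.DG.SE.pf_SE Pool.Agent.H65.DG.SB.pf_SB Pool.Agent.H59.DG.SC.pf_SC))

end Pool.Agent.H44.DG
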