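import Pool.Agent.H44.DG.Case0
import Pool.Agent.H44.DG.Case1
import Pool.Agent.H44.DG.Case2
import Pool.Agent.H44.DG.Case3
import Pool.Agent.H44.DG.Case4
import Pool.Agent.H44.DG.Case5

/-! The case table. -/

set_option maxRecDepth 100000

namespace Pool.Agent.H44.DG

/-- the rotations of a list, as pairs head, tail -/
def rotsL (r : List ℕ) : List (ℕ × List ℕ) :=
  (List.range r.length).filterMap fun i => match r.rotate i with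
    | [] => none
    | a :: t => some (a, t)

lemma mem_rotsL {r : List ℕ} {u : ℕ} {l : List ℕ} (h : r ~r (u :: l)) : (u, l) ∈ rotsL r := by
  obtain ⟨n, hn⟩ := h
  have hr : r ≠ [] := by
    rintro rfl
    simp at hn
  have hpos : 0 < r.length := List.length_pos_iff.2 hr
  unfold rotsL
  rw [List.mem_filterMap]
  refine ⟨n % r.length, List.mem_range.2 (Nat.mod_lt _ hpos), ?_⟩
  rw [List.rotate_mod, hn]

lemma spl_0 : ∀ s ∈ spl1 [] [0, 1, 2], s.1 ≠ s.2.1 → ¬ LAdj (toLF ((.R 0, [0, 1, 2]) :: [])) s.1 s.2.1 →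
    Ans 3 ((.R 1, (↑s.2.2.1 : Cycle ℕ)) ::ₘ (.R 2, (↑s.2.2.2 : Cycle ℕ)) ::ₘ toLF []) := by
  intro s hs
  simp only [spl1, spl2, List.nil_append, List.cons_append, List.append_nil, List.mem_cons, List.not_mem_nil, or_false] at hs
  casesm* _ ∨ _ <;> subst_vars <;> first | exact fun h1 _ => absurd rfl h1 | exact fun _ h2 => absurd (by decide) h2

lemma at1_0 (u : ℕ) (l : List ℕ) (h : [0, 1, 2] ~r (u :: l)) :
    Ans (3 + 1) ((.R 0, (↑(joinWalk u l 3 []) : Cycle ℕ)) ::ₘ toLF []) := by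
  have h' : (u, l) ∈ rotsL [0, 1, 2] := mem_rotsL h
  rw [show rotsL [0, 1, 2] = [(0, [1, 2]), (1, [2, 0]), (2, [0, 1])] from by decide] at h'
  simp only [List.mem_cons, Prod.mk.injEq, List.not_mem_nil, or_false] at h'
  rcases h' with ⟨rfl, rfl⟩ | ⟨rfl, rfl⟩ | ⟨rfl, rfl⟩
  · exact c_T3_att_1_0
  · exact c_T3_att_1_1
  · exact c_T3_att_1_2

lemma at2_0 (u : ℕ) (l : List ℕ) (h : [0, 1, 2] ~r (u :: l)) :
    Ans (3 + 2) ((.R 0, (↑(joinWalk u l 3 [3 + 1]) : Cycle ℕ)) ::ₘ toLF []) := by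
  have h' : (u, l) ∈ rotsL [0, 1, 2] := mem_rotsL h
  rw [show rotsL [0, 1, 2] = [(0, [1, 2]), (1, [2, 0]), (2, [0, 1])] from by decide] at h'
  simp only [List.mem_cons, Prod.mk.injEq, List.not_mem_nil, or_false] at h'
  rcases h' with ⟨rfl, rfl⟩ | ⟨rfl, rfl⟩ | ⟨rfl, rfl⟩
  · exact c_T3_att_2_0
  · exact c_T3_att_2_1
  · exact c_T3_att_2_2

lemma at3_0 (u : ℕ) (l : List ℕ) (h : [0, 1, 2] ~r (u :: l)) :
    Ans (3 + 3) ((.E, (↑(joinWalk u l 3 [3 + 1, 3 + 2]) : Cycle ℕ)) ::ₘ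
    (.T 1, (↑[3 + 2, 3 + 1, 3] : Cycle ℕ)) ::ₘ toLF []) := by
  have h' : (u, l) ∈ rotsL [0, 1, 2] := mem_rotsL h
  rw [show rotsL [0, 1, 2] = [(0, [1, 2]), (1, [2, 0]), (2, [0, 1])] from by decide] at h'
  simp only [List.mem_cons, Prod.mk.injEq, List.not_mem_nil, or_false] at h'
  rcases h' with ⟨rfl, rfl⟩ | ⟨rfl, rfl⟩ | ⟨rfl, rfl⟩
  · exact c_T3_att_3_0
  · exact c_T3_att_3_1
  · exact c_T3_att_3_2

lemma spl_1 : ∀ s ∈ spl1 [] [0, 1, 2, 0, 3], s.1 ≠ s.2.1 → ¬ LAdj (toLF ((.R 0, [0, 1, 2, 0, 3]) :: [])) s.1 s.2.1 →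
    Ans 4 ((.R 1, (↑s.2.2.1 : Cycle ℕ)) ::ₘ (.R 2, (↑s.2.2.2 : Cycle ℕ)) ::ₘ toLF []) := by
  intro s hs
  simp only [spl1, spl2, List.nil_append, List.cons_append, List.append_nil, List.mem_cons, List.not_mem_nil, or_false] at hs
  casesm* _ ∨ _ <;> subst_vars <;> first | exact fun _ _ => c_V_split_1_4 | exact fun _ _ => c_V_split_2_4 | exact fun h1 _ => absurd rfl h1 | exact fun _ h2 => absurd (by decide) h2

lemma at1_1 (u : ℕ) (l : List ℕ) (h : [0, 1, 2, 0, 3] ~r (u :: l)) :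
    Ans (4 + 1) ((.R 0, (↑(joinWalk u l 4 []) : Cycle ℕ)) ::ₘ toLF []) := by
  have h' : (u, l) ∈ rotsL [0, 1, 2, 0, 3] := mem_rotsL h
  rw [show rotsL [0, 1, 2, 0, 3] = [(0, [1, 2, 0, 3]), (1, [2, 0, 3, 0]), (2, [0, 3, 0, 1]), (0, [3, 0, 1, 2]), (3, [0, 1, 2, 0])] from by decide] at h'
  simp only [List.mem_cons, Prod.mk.injEq, List.not_mem_nil, or_false] at h'
  rcases h' with ⟨rfl, rfl⟩ | ⟨rfl, rfl⟩ | ⟨rfl, rfl⟩ | ⟨rfl, rfl⟩ | ⟨rfl, rfl⟩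
  · exact c_V_att_1_0
  · exact c_V_att_1_1
  · exact c_V_att_1_2
  · exact c_V_att_1_3
  · exact c_V_att_1_4

lemma at2_1 (u : ℕ) (l : List ℕ) (h : [0, 1, 2, 0, 3] ~r (u :: l)) :
    Ans (4 + 2) ((.R 0, (↑(joinWalk u l 4 [4 + 1]) : Cycle ℕ)) ::ₘ toLF []) := by
  have h' : (u, l) ∈ rotsL [0, 1, 2, 0, 3] := mem_rotsL h
  rw [show rotsL [0, 1, 2, 0, 3] = [(0, [1, 2, 0, 3]), (1, [2, 0, 3, 0]), (2, [0, 3, 0, 1]), (0, [3, 0, 1, 2]), (3, [0, 1, 2, 0])] from by decide] at h'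
  simp only [List.mem_cons, Prod.mk.injEq, List.not_mem_nil, or_false] at h'
  rcases h' with ⟨rfl, rfl⟩ | ⟨rfl, rfl⟩ | ⟨rfl, rfl⟩ | ⟨rfl, rfl⟩ | ⟨rfl, rfl⟩
  · exact c_V_att_2_0
  · exact c_V_att_2_1
  · exact c_V_att_2_2
  · exact c_V_att_2_3
  · exact c_V_att_2_4

lemma at3_1 (u : ℕ) (l : List ℕ) (h : [0, 1, 2, 0, 3] ~r (u :: l)) :
    Ans (4 + 3) ((.E, (↑(joinWalk u l 4 [4 + 1, 4 + 2]) : Cycle ℕ)) ::ₘ
    (.T 1, (↑[4 + 2, 4 + 1, 4] : Cycle ℕ)) ::ₘ toLF []) := by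
  have h' : (u, l) ∈ rotsL [0, 1, 2, 0, 3] := mem_rotsL h
  rw [show rotsL [0, 1, 2, 0, 3] = [(0, [1, 2, 0, 3]), (1, [2, 0, 3, 0]), (2, [0, 3, 0, 1]), (0, [3, 0, 1, 2]), (3, [0, 1, 2, 0])] from by decide] at h'
  simp only [List.mem_cons, Prod.mk.injEq, List.not_mem_nil, or_false] at h'
  rcases h' with ⟨rfl, rfl⟩ | ⟨rfl, rfl⟩ | ⟨rfl, rfl⟩ | ⟨rfl, rfl⟩ | ⟨rfl, rfl⟩
  · exact c_V_att_3_0
  · exact c_V_att_3_1
  · exact c_V_att_3_2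
  · exact c_V_att_3_3
  · exact c_V_att_3_4

lemma spl_2 : ∀ s ∈ spl1 [] [0, 1, 2, 0, 3, 4, 3], s.1 ≠ s.2.1 → ¬ LAdj (toLF ((.R 0, [0, 1, 2, 0, 3, 4, 3]) :: [])) s.1 s.2.1 →
    Ans 5 ((.R 1, (↑s.2.2.1 : Cycle ℕ)) ::ₘ (.R 2, (↑s.2.2.2 : Cycle ℕ)) ::ₘ toLF []) := by
  intro s hs
  simp only [spl1, spl2, List.nil_append, List.cons_append, List.append_nil, List.mem_cons, List.not_mem_nil, or_false] at hs
  casesm* _ ∨ _ <;> subst_vars <;> first | exact fun _ _ => c_U_split_0_5 | exact fun _ _ => c_U_split_1_4 | exact fun _ _ => c_U_split_1_5 | exact fun _ _ => c_U_split_1_6 | exact fun _ _ => c_U_split_2_4 | exact fun _ _ => c_U_split_2_5 | exact fun _ _ => c_U_split_2_6 | exact fun _ _ => c_U_split_3_5 | exact fun h1 _ => absurd rfl h1 | exact fun _ h2 => absurd (by decide) h2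

lemma at1_2 (u : ℕ) (l : List ℕ) (h : [0, 1, 2, 0, 3, 4, 3] ~r (u :: l)) :
    Ans (5 + 1) ((.R 0, (↑(joinWalk u l 5 []) : Cycle ℕ)) ::ₘ toLF []) := by
  have h' : (u, l) ∈ rotsL [0, 1, 2, 0, 3, 4, 3] := mem_rotsL h
  rw [show rotsL [0, 1, 2, 0, 3, 4, 3] = [(0, [1, 2, 0, 3, 4, 3]), (1, [2, 0, 3, 4, 3, 0]), (2, [0, 3, 4, 3, 0, 1]), (0, [3, 4, 3, 0, 1, 2]), (3, [4, 3, 0, 1, 2, 0]), (4, [3, 0, 1, 2, 0, 3]), (3, [0, 1, 2, 0, 3, 4])] from by decide] at h'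
  simp only [List.mem_cons, Prod.mk.injEq, List.not_mem_nil, or_false] at h'
  rcases h' with ⟨rfl, rfl⟩ | ⟨rfl, rfl⟩ | ⟨rfl, rfl⟩ | ⟨rfl, rfl⟩ | ⟨rfl, rfl⟩ | ⟨rfl, rfl⟩ | ⟨rfl, rfl⟩
  · exact c_U_att_1_0
  · exact c_U_att_1_1
  · exact c_U_att_1_2
  · exact c_U_att_1_3
  · exact c_U_att_1_4
  · exact c_U_att_1_5
  · exact c_U_att_1_6

lemma at2_2 (u : ℕ) (l : List ℕ) (h : [0, 1, 2, 0, 3, 4, 3] ~r (u :: l)) :
    Ans (5 + 2) ((.R 0, (↑(joinWalk u l 5 [5 + 1]) : Cycle ℕ)) ::ₘ toLF []) := by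
  have h' : (u, l) ∈ rotsL [0, 1, 2, 0, 3, 4, 3] := mem_rotsL h
  rw [show rotsL [0, 1, 2, 0, 3, 4, 3] = [(0, [1, 2, 0, 3, 4, 3]), (1, [2, 0, 3, 4, 3, 0]), (2, [0, 3, 4, 3, 0, 1]), (0, [3, 4, 3, 0, 1, 2]), (3, [4, 3, 0, 1, 2, 0]), (4, [3, 0, 1, 2, 0, 3]), (3, [0, 1, 2, 0, 3, 4])] from by decide] at h'
  simp only [List.mem_cons, Prod.mk.injEq, List.not_mem_nil, or_false] at h'
  rcases h' with ⟨rfl, rfl⟩ | ⟨rfl, rfl⟩ | ⟨rfl, rfl⟩ | ⟨rfl, rfl⟩ | ⟨rfl, rfl⟩ | ⟨rfl, rfl⟩ | ⟨rfl, rfl⟩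
  · exact c_U_att_2_0
  · exact c_U_att_2_1
  · exact c_U_att_2_2
  · exact c_U_att_2_3
  · exact c_U_att_2_4
  · exact c_U_att_2_5
  · exact c_U_att_2_6

lemma at3_2 (u : ℕ) (l : List ℕ) (h : [0, 1, 2, 0, 3, 4, 3] ~r (u :: l)) :
    Ans (5 + 3) ((.E, (↑(joinWalk u l 5 [5 + 1, 5 + 2]) : Cycle ℕ)) ::ₘ
    (.T 1, (↑[5 + 2, 5 + 1, 5] : Cycle ℕ)) ::ₘ toLF []) := by
  have h' : (u, l) ∈ rotsL [0, 1, 2, 0, 3, 4, 3] := mem_rotsL h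
  rw [show rotsL [0, 1, 2, 0, 3, 4, 3] = [(0, [1, 2, 0, 3, 4, 3]), (1, [2, 0, 3, 4, 3, 0]), (2, [0, 3, 4, 3, 0, 1]), (0, [3, 4, 3, 0, 1, 2]), (3, [4, 3, 0, 1, 2, 0]), (4, [3, 0, 1, 2, 0, 3]), (3, [0, 1, 2, 0, 3, 4])] from by decide] at h'
  simp only [List.mem_cons, Prod.mk.injEq, List.not_mem_nil, or_false] at h'
  rcases h' with ⟨rfl, rfl⟩ | ⟨rfl, rfl⟩ | ⟨rfl, rfl⟩ | ⟨rfl, rfl⟩ | ⟨rfl, rfl⟩ | ⟨rfl, rfl⟩ | ⟨rfl, rfl⟩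
  · exact c_U_att_3_0
  · exact c_U_att_3_1
  · exact c_U_att_3_2
  · exact c_U_att_3_3
  · exact c_U_att_3_4
  · exact c_U_att_3_5
  · exact c_U_att_3_6

lemma spl_3 : ∀ s ∈ spl1 [] [1, 2, 0, 3, 4], s.1 ≠ s.2.1 → ¬ LAdj (toLF ((.R 0, [1, 2, 0, 3, 4]) :: [(.E, [0, 1, 4]), (.T 0, [3, 0, 4])])) s.1 s.2.1 →
    Ans 5 ((.R 1, (↑s.2.2.1 : Cycle ℕ)) ::ₘ (.R 2, (↑s.2.2.2 : Cycle ℕ)) ::ₘ toLF [(.E, [0, 1, 4]), (.T 0, [3, 0, 4])]) := by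
  intro s hs
  simp only [spl1, spl2, List.nil_append, List.cons_append, List.append_nil, List.mem_cons, List.not_mem_nil, or_false] at hs
  casesm* _ ∨ _ <;> subst_vars <;> first | exact fun _ _ => c_E1_split_0_3 | exact fun _ _ => c_E1_split_1_3 | exact fun _ _ => c_E1_split_1_4 | exact fun h1 _ => absurd rfl h1 | exact fun _ h2 => absurd (by decide) h2

lemma at1_3 (u : ℕ) (l : List ℕ) (h : [1, 2, 0, 3, 4] ~r (u :: l)) :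
    Ans (5 + 1) ((.R 0, (↑(joinWalk u l 5 []) : Cycle ℕ)) ::ₘ toLF [(.E, [0, 1, 4]), (.T 0, [3, 0, 4])]) := by
  have h' : (u, l) ∈ rotsL [1, 2, 0, 3, 4] := mem_rotsL h
  rw [show rotsL [1, 2, 0, 3, 4] = [(1, [2, 0, 3, 4]), (2, [0, 3, 4, 1]), (0, [3, 4, 1, 2]), (3, [4, 1, 2, 0]), (4, [1, 2, 0, 3])] from by decide] at h'
  simp only [List.mem_cons, Prod.mk.injEq, List.not_mem_nil, or_false] at h'
  rcases h' with ⟨rfl, rfl⟩ | ⟨rfl, rfl⟩ | ⟨rfl, rfl⟩ | ⟨rfl, rfl⟩ | ⟨rfl, rfl⟩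
  · exact c_E1_att_1_0
  · exact c_E1_att_1_1
  · exact c_E1_att_1_2
  · exact c_E1_att_1_3
  · exact c_E1_att_1_4

lemma at2_3 (u : ℕ) (l : List ℕ) (h : [1, 2, 0, 3, 4] ~r (u :: l)) :
    Ans (5 + 2) ((.R 0, (↑(joinWalk u l 5 [5 + 1]) : Cycle ℕ)) ::ₘ toLF [(.E, [0, 1, 4]), (.T 0, [3, 0, 4])]) := by
  have h' : (u, l) ∈ rotsL [1, 2, 0, 3, 4] := mem_rotsL h
  rw [show rotsL [1, 2, 0, 3, 4] = [(1, [2, 0, 3, 4]), (2, [0, 3, 4, 1]), (0, [3, 4, 1, 2]), (3, [4, 1, 2, 0]), (4, [1, 2, 0, 3])] from by decide] at h'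
  simp only [List.mem_cons, Prod.mk.injEq, List.not_mem_nil, or_false] at h'
  rcases h' with ⟨rfl, rfl⟩ | ⟨rfl, rfl⟩ | ⟨rfl, rfl⟩ | ⟨rfl, rfl⟩ | ⟨rfl, rfl⟩
  · exact c_E1_att_2_0
  · exact c_E1_att_2_1
  · exact c_E1_att_2_2
  · exact c_E1_att_2_3
  · exact c_E1_att_2_4

lemma at3_3 (u : ℕ) (l : List ℕ) (h : [1, 2, 0, 3, 4] ~r (u :: l)) :
    Ans (5 + 3) ((.E, (↑(joinWalk u l 5 [5 + 1, 5 + 2]) : Cycle ℕ)) ::ₘ
    (.T 1, (↑[5 + 2, 5 + 1, 5] : Cycle ℕ)) ::ₘ toLF [(.E, [0, 1, 4]), (.T 0, [3, 0, 4])]) := by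
  have h' : (u, l) ∈ rotsL [1, 2, 0, 3, 4] := mem_rotsL h
  rw [show rotsL [1, 2, 0, 3, 4] = [(1, [2, 0, 3, 4]), (2, [0, 3, 4, 1]), (0, [3, 4, 1, 2]), (3, [4, 1, 2, 0]), (4, [1, 2, 0, 3])] from by decide] at h'
  simp only [List.mem_cons, Prod.mk.injEq, List.not_mem_nil, or_false] at h'
  rcases h' with ⟨rfl, rfl⟩ | ⟨rfl, rfl⟩ | ⟨rfl, rfl⟩ | ⟨rfl, rfl⟩ | ⟨rfl, rfl⟩
  · exact c_E1_att_3_0
  · exact c_E1_att_3_1
  · exact c_E1_att_3_2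
  · exact c_E1_att_3_3
  · exact c_E1_att_3_4

lemma spl_4 : ∀ s ∈ spl1 [] [0, 1, 2, 4, 3], s.1 ≠ s.2.1 → ¬ LAdj (toLF ((.R 0, [0, 1, 2, 4, 3]) :: [(.E, [2, 0, 4]), (.T 0, [0, 3, 4])])) s.1 s.2.1 →
    Ans 5 ((.R 1, (↑s.2.2.1 : Cycle ℕ)) ::ₘ (.R 2, (↑s.2.2.2 : Cycle ℕ)) ::ₘ toLF [(.E, [2, 0, 4]), (.T 0, [0, 3, 4])]) := by
  intro s hs
  simp only [spl1, spl2, List.nil_append, List.cons_append, List.append_nil, List.mem_cons, List.not_mem_nil, or_false] at hs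
  casesm* _ ∨ _ <;> subst_vars <;> first | exact fun _ _ => c_E1m_split_1_3 | exact fun _ _ => c_E1m_split_1_4 | exact fun _ _ => c_E1m_split_2_4 | exact fun h1 _ => absurd rfl h1 | exact fun _ h2 => absurd (by decide) h2

lemma at1_4 (u : ℕ) (l : List ℕ) (h : [0, 1, 2, 4, 3] ~r (u :: l)) :
    Ans (5 + 1) ((.R 0, (↑(joinWalk u l 5 []) : Cycle ℕ)) ::ₘ toLF [(.E, [2, 0, 4]), (.T 0, [0, 3, 4])]) := by
  have h' : (u, l) ∈ rotsL [0, 1, 2, 4, 3] := mem_rotsL h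
  rw [show rotsL [0, 1, 2, 4, 3] = [(0, [1, 2, 4, 3]), (1, [2, 4, 3, 0]), (2, [4, 3, 0, 1]), (4, [3, 0, 1, 2]), (3, [0, 1, 2, 4])] from by decide] at h'
  simp only [List.mem_cons, Prod.mk.injEq, List.not_mem_nil, or_false] at h'
  rcases h' with ⟨rfl, rfl⟩ | ⟨rfl, rfl⟩ | ⟨rfl, rfl⟩ | ⟨rfl, rfl⟩ | ⟨rfl, rfl⟩
  · exact c_E1m_att_1_0
  · exact c_E1m_att_1_1
  · exact c_E1m_att_1_2
  · exact c_E1m_att_1_3
  · exact c_E1m_att_1_4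

lemma at2_4 (u : ℕ) (l : List ℕ) (h : [0, 1, 2, 4, 3] ~r (u :: l)) :
    Ans (5 + 2) ((.R 0, (↑(joinWalk u l 5 [5 + 1]) : Cycle ℕ)) ::ₘ toLF [(.E, [2, 0, 4]), (.T 0, [0, 3, 4])]) := by
  have h' : (u, l) ∈ rotsL [0, 1, 2, 4, 3] := mem_rotsL h
  rw [show rotsL [0, 1, 2, 4, 3] = [(0, [1, 2, 4, 3]), (1, [2, 4, 3, 0]), (2, [4, 3, 0, 1]), (4, [3, 0, 1, 2]), (3, [0, 1, 2, 4])] from by decide] at h'
  simp only [List.mem_cons, Prod.mk.injEq, List.not_mem_nil, or_false] at h'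
  rcases h' with ⟨rfl, rfl⟩ | ⟨rfl, rfl⟩ | ⟨rfl, rfl⟩ | ⟨rfl, rfl⟩ | ⟨rfl, rfl⟩
  · exact c_E1m_att_2_0
  · exact c_E1m_att_2_1
  · exact c_E1m_att_2_2
  · exact c_E1m_att_2_3
  · exact c_E1m_att_2_4

lemma at3_4 (u : ℕ) (l : List ℕ) (h : [0, 1, 2, 4, 3] ~r (u :: l)) :
    Ans (5 + 3) ((.E, (↑(joinWalk u l 5 [5 + 1, 5 + 2]) : Cycle ℕ)) ::ₘ
    (.T 1, (↑[5 + 2, 5 + 1, 5] : Cycle ℕ)) ::ₘ toLF [(.E, [2, 0, 4]), (.T 0, [0, 3, 4])]) := by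
  have h' : (u, l) ∈ rotsL [0, 1, 2, 4, 3] := mem_rotsL h
  rw [show rotsL [0, 1, 2, 4, 3] = [(0, [1, 2, 4, 3]), (1, [2, 4, 3, 0]), (2, [4, 3, 0, 1]), (4, [3, 0, 1, 2]), (3, [0, 1, 2, 4])] from by decide] at h'
  simp only [List.mem_cons, Prod.mk.injEq, List.not_mem_nil, or_false] at h'
  rcases h' with ⟨rfl, rfl⟩ | ⟨rfl, rfl⟩ | ⟨rfl, rfl⟩ | ⟨rfl, rfl⟩ | ⟨rfl, rfl⟩
  · exact c_E1m_att_3_0
  · exact c_E1m_att_3_1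
  · exact c_E1m_att_3_2
  · exact c_E1m_att_3_3
  · exact c_E1m_att_3_4

lemma spl_5 : ∀ s ∈ spl1 [] [0, 1, 2, 3], s.1 ≠ s.2.1 → ¬ LAdj (toLF ((.R 0, [0, 1, 2, 3]) :: [(.E, [2, 0, 3])])) s.1 s.2.1 →
    Ans 4 ((.R 1, (↑s.2.2.1 : Cycle ℕ)) ::ₘ (.R 2, (↑s.2.2.2 : Cycle ℕ)) ::ₘ toLF [(.E, [2, 0, 3])]) := by
  intro s hs
  simp only [spl1, spl2, List.nil_append, List.cons_append, List.append_nil, List.mem_cons, List.not_mem_nil, or_false] at hs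
  casesm* _ ∨ _ <;> subst_vars <;> first | exact fun _ _ => c_W_split_1_3 | exact fun h1 _ => absurd rfl h1 | exact fun _ h2 => absurd (by decide) h2

lemma at1_5 (u : ℕ) (l : List ℕ) (h : [0, 1, 2, 3] ~r (u :: l)) :
    Ans (4 + 1) ((.R 0, (↑(joinWalk u l 4 []) : Cycle ℕ)) ::ₘ toLF [(.E, [2, 0, 3])]) := by
  have h' : (u, l) ∈ rotsL [0, 1, 2, 3] := mem_rotsL h
  rw [show rotsL [0, 1, 2, 3] = [(0, [1, 2, 3]), (1, [2, 3, 0]), (2, [3, 0, 1]), (3, [0, 1, 2])] from by decide] at h'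
  simp only [List.mem_cons, Prod.mk.injEq, List.not_mem_nil, or_false] at h'
  rcases h' with ⟨rfl, rfl⟩ | ⟨rfl, rfl⟩ | ⟨rfl, rfl⟩ | ⟨rfl, rfl⟩
  · exact c_W_att_1_0
  · exact c_W_att_1_1
  · exact c_W_att_1_2
  · exact c_W_att_1_3

lemma at2_5 (u : ℕ) (l : List ℕ) (h : [0, 1, 2, 3] ~r (u :: l)) :
    Ans (4 + 2) ((.R 0, (↑(joinWalk u l 4 [4 + 1]) : Cycle ℕ)) ::ₘ toLF [(.E, [2, 0, 3])]) := by
  have h' : (u, l) ∈ rotsL [0, 1, 2, 3] := mem_rotsL h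
  rw [show rotsL [0, 1, 2, 3] = [(0, [1, 2, 3]), (1, [2, 3, 0]), (2, [3, 0, 1]), (3, [0, 1, 2])] from by decide] at h'
  simp only [List.mem_cons, Prod.mk.injEq, List.not_mem_nil, or_false] at h'
  rcases h' with ⟨rfl, rfl⟩ | ⟨rfl, rfl⟩ | ⟨rfl, rfl⟩ | ⟨rfl, rfl⟩
  · exact c_W_att_2_0
  · exact c_W_att_2_1
  · exact c_W_att_2_2
  · exact c_W_att_2_3

lemma at3_5 (u : ℕ) (l : List ℕ) (h : [0, 1, 2, 3] ~r (u :: l)) :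
    Ans (4 + 3) ((.E, (↑(joinWalk u l 4 [4 + 1, 4 + 2]) : Cycle ℕ)) ::ₘ
    (.T 1, (↑[4 + 2, 4 + 1, 4] : Cycle ℕ)) ::ₘ toLF [(.E, [2, 0, 3])]) := by
  have h' : (u, l) ∈ rotsL [0, 1, 2, 3] := mem_rotsL h
  rw [show rotsL [0, 1, 2, 3] = [(0, [1, 2, 3]), (1, [2, 3, 0]), (2, [3, 0, 1]), (3, [0, 1, 2])] from by decide] at h'
  simp only [List.mem_cons, Prod.mk.injEq, List.not_mem_nil, or_false] at h'
  rcases h' with ⟨rfl, rfl⟩ | ⟨rfl, rfl⟩ | ⟨rfl, rfl⟩ | ⟨rfl, rfl⟩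
  · exact c_W_att_3_0
  · exact c_W_att_3_1
  · exact c_W_att_3_2
  · exact c_W_att_3_3

theorem pf_SPL : T_SPL := by
  rintro S hS p l q u v hr huv hadj
  have key : ∀ (n : ℕ) (r : List ℕ) (base : List (Tag × List ℕ)),
      (∀ s ∈ spl1 [] r, s.1 ≠ s.2.1 → ¬ LAdj (toLF ((.R 0, r) :: base)) s.1 s.2.1 →
        Ans n ((.R 1, (↑s.2.2.1 : Cycle ℕ)) ::ₘ (.R 2, (↑s.2.2.2 : Cycle ℕ)) ::ₘ toLF base)) →
      r = p ++ u :: (l ++ v :: q) → ¬ LAdj (toLF ((.R 0, r) :: base)) u v →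
      Ans n ((.R 1, (↑(u :: (l ++ [v])) : Cycle ℕ)) ::ₘ (.R 2, (↑(v :: ((q ++ p) ++ [u])) : Cycle ℕ)) ::ₘ toLF base) := by
    intro n r base h hr' hadj'
    have := h _ (mem_spl1 p [] r u l v q hr') huv hadj'
    simpa using this
  simp only [openList, List.mem_cons, List.not_mem_nil, or_false] at hS
  rcases hS with rfl | rfl | rfl | rfl | rfl | rfl
  · exact key _ _ _ spl_0 hr hadj
  · exact key _ _ _ spl_1 hr hadj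
  · exact key _ _ _ spl_2 hr hadj
  · exact key _ _ _ spl_3 hr hadj
  · exact key _ _ _ spl_4 hr hadj
  · exact key _ _ _ spl_5 hr hadj

theorem pf_AT1 : T_AT1 := by
  rintro S hS u l h
  simp only [openList, List.mem_cons, List.not_mem_nil, or_false] at hS
  rcases hS with rfl | rfl | rfl | rfl | rfl | rfl
  · exact at1_0 u l h
  · exact at1_1 u l h
  · exact at1_2 u l h
  · exact at1_3 u l h
  · exact at1_4 u l h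
  · exact at1_5 u l h

theorem pf_AT2 : T_AT2 := by
  rintro S hS u l h
  simp only [openList, List.mem_cons, List.not_mem_nil, or_false] at hS
  rcases hS with rfl | rfl | rfl | rfl | rfl | rfl
  · exact at2_0 u l h
  · exact at2_1 u l h
  · exact at2_2 u l h
  · exact at2_3 u l h
  · exact at2_4 u l h
  · exact at2_5 u l h

theorem pf_AT3 : T_AT3 := by
  rintro S hS u l h
  simp only [openList, List.mem_cons, List.not_mem_nil, or_false] at hS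
  rcases hS with rfl | rfl | rfl | rfl | rfl | rfl
  · exact at3_0 u l h
  · exact at3_1 u l h
  · exact at3_2 u l h
  · exact at3_3 u l h
  · exact at3_4 u l h
  · exact at3_5 u l h

theorem pf_PAS : T_PAS := by
  refine ⟨?_, ?_, ?_, ?_⟩
  · rintro S hS h
    simp only [openList, List.mem_cons, List.not_mem_nil, or_false] at hS
    rcases hS with rfl | rfl | rfl | rfl | rfl | rfl
    · exact absurd rfl h
    · exact c_V_pass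
    · exact c_U_pass
    · exact c_E1_pass
    · exact c_E1m_pass
    · exact c_W_pass
  · exact lr_opn0 1 (by decide) (.R 0) (Or.inr ⟨0, rfl⟩) [0, 1, 2, 3] (by decide) (by decide) (by decide)
  · exact lr_opn0 2 (by decide) (.R 0) (Or.inr ⟨0, rfl⟩) [0, 1, 2, 3, 4] (by decide) (by decide) (by decide)
  · exact lr_comp1 hL0 [0, 1, 2, 3, 4, 5] (lr_old 1 [3, 5, 4]) (by decide) (by decide) (by decide) (by decide)

end Pool.Agent.H44.DG
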