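import Pool.Agent.H44.DG.Label

/-! Targets of the modules for the `1 : 1` drawing game. -/

namespace Pool.Agent.H44.DG

/-- INV: inversion of a move in a region `X ::ₘ fl`. -/
def T_INV : Prop := ∀ (V : Type) (X : Cycle V) (fl : Region V) (u v : V) (Ψ : Multiset (Region V)),
  RegionMove u v (X ::ₘ fl) Ψ →
    (∃ l m fl₁ fl₂, X = ↑(u :: (l ++ v :: m)) ∧ fl = fl₁ + fl₂ ∧
      Ψ = {(↑(u :: (l ++ [v])) : Cycle V) ::ₘ fl₁, (↑(v :: (m ++ [u])) : Cycle V) ::ₘ fl₂}) ∨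
    (∃ u' v' l m fl', ((u' = u ∧ v' = v) ∨ (u' = v ∧ v' = u)) ∧ X = ↑(u' :: l) ∧
      fl = (↑(v' :: m) : Cycle V) ::ₘ fl' ∧ Ψ = {(↑(joinWalk u' l v' m) : Cycle V) ::ₘ fl'}) ∨
    (∃ l m fl', fl = (↑(u :: l) : Cycle V) ::ₘ (↑(v :: m) : Cycle V) ::ₘ fl' ∧
      Ψ = {X ::ₘ (↑(joinWalk u l v m) : Cycle V) ::ₘ fl'}) ∨
    (∃ l m, (↑(u :: (l ++ v :: m)) : Cycle V) ∈ fl)

/-- DEC: reading off labels. -/
def T_DEC : Prop := ∀ (V : Type) (f : ℕ → V) (r : List ℕ),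
  (∀ (u v : V) (l m : List V), (↑(u :: (l ++ v :: m)) : Cycle V) = ↑(r.map f) →
    ∃ (p l' q : List ℕ) (u' v' : ℕ), r = p ++ u' :: (l' ++ v' :: q) ∧
      ((u = f u' ∧ v = f v' ∧ l = l'.map f ∧ m = (q ++ p).map f) ∨
        (v = f u' ∧ u = f v' ∧ m = l'.map f ∧ l = (q ++ p).map f))) ∧
  (∀ (u : V) (l : List V), (↑(u :: l) : Cycle V) = ↑(r.map f) →
    ∃ (u' : ℕ) (l' : List ℕ), r ~r (u' :: l') ∧ u = f u' ∧ l = l'.map f)

/-- ADJ: adjacency and corners of a realised picture. -/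
def T_ADJ : Prop := ∀ (V : Type) (c : Ctx V) (N : ℕ) (L : LF), COK c N L →
  (∀ i j, i < N → j < N → i ≠ j → (Adj (real c L) (c.f i) (c.f j) ↔ LAdj L i j)) ∧
  (∀ i j, i < N → j < N → c.f i = c.f j → i = j) ∧
  (∀ v, InR (real c L) v → (∃ i < N, v = c.f i) ∨ v ∈ vs c L) ∧
  (∀ x L₀, L = x ::ₘ L₀ → ∀ v, v ∈ vs1 c x → ¬ InR (real c L₀) v ∧ ∀ i < N, c.f i ≠ v)

/-- LMR: a label move is a step; what it preserves. -/
def T_LMR : Prop := ∀ (V : Type) (c : Ctx V) (N : ℕ) (L L' : LF), COK c N L → LMove L L' →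
  LStep (real c L) (real c L') ∧ COK c N L' ∧ vs c L' = vs c L

/-- LMP: what a label move preserves on the label side. -/
def T_LMP : Prop := ∀ (L L' : LF), LMove L L' →
  tags L' = tags L ∧ (∀ i j, LAdj L i j → LAdj L' i j) ∧
  (∀ x ∈ L', ∀ i ∈ x.2, ∃ y ∈ L, i ∈ y.2) ∧
  (∀ i w, (Tag.T i, w) ∈ L' ↔ (Tag.T i, w) ∈ L) ∧
  (∀ n, CompOK n L → CompOK n L')

/-- REP: replacing the regions of one part. -/
def T_REP : Prop := ∀ (V : Type) (c : Ctx V) (i : ℕ) (w : Cycle ℕ) (G : LF) (X : Multiset (Region V)),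
  (tags ((Tag.T i, w) ::ₘ G)).Nodup →
    real { c with FS := Function.update c.FS i X } ((Tag.T i, w) ::ₘ G) = X + real c G ∧
    real { c with FS := Function.update c.FS i X } G = real c G ∧
    (∀ L, vs { c with FS := Function.update c.FS i X } L = vs c L) ∧
    (∀ j w', (Tag.T j, w') ∈ G → Function.update c.FS i X j = c.FS j)

/-- NOD: the nodup hypothesis passes to the parts. -/
def T_NOD : Prop := ∀ (V : Type) (c : Ctx V) (n : ℕ) (L : LF), 3 ≤ n →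
  ((↑[c.f 0, c.f 1, c.f 2] : Cycle V).toMultiset + (((inner n).map c.f : Multiset V) + vs c L)).Nodup →
  (∀ x ∈ L, ∀ i ∈ x.2, i < n) → (∀ x ∈ L, ∀ i, x.1 = Tag.T i → Tri3 x.2) →
  (((List.range n).map c.f : Multiset V) + vs c L).Nodup ∧
  (∀ i w, (Tag.T i, w) ∈ L → ((w.map c.f).toMultiset + c.WS i).Nodup) ∧
  (∀ k w, (Tag.R k, w) ∈ L → (c.WL k).Nodup)

/-- CAS: the four kinds of steps in a realised picture. -/
def T_CAS : Prop := ∀ (V : Type) (c : Ctx V) (N : ℕ) (L : LF) (F' : Multiset (Region V)), COK c N L →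
  LStep (real c L) F' →
    (∃ L', LMove L L' ∧ F' = real c L') ∨
    (∃ k w G u v Ψ, L = (Tag.R k, w) ::ₘ G ∧ u ≠ v ∧ ¬ Adj (real c L) u v ∧
      RegionMove u v (w.map c.f ::ₘ c.FL k) Ψ ∧ F' = Ψ + c.FI k + real c G) ∨
    (∃ k w G FI', L = (Tag.R k, w) ::ₘ G ∧ LStep (c.FI k) FI' ∧
      F' = {w.map c.f ::ₘ c.FL k} + FI' + real c G) ∨
    (∃ i w G FS', L = (Tag.T i, w) ::ₘ G ∧ LStep (c.FS i) FS' ∧ F' = FS' + real c G)

/-- FLO: floats. -/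
def T_FLO : Prop := ∀ (V : Type) (fl : Region V) (W : Multiset V), Floats fl W →
  (∀ fl₁ fl₂, fl = fl₁ + fl₂ → ∃ W₁ W₂, W = W₁ + W₂ ∧ Floats fl₁ W₁ ∧ Floats fl₂ W₂) ∧
  (∀ X ∈ fl, (∃ v : V, X = (↑[v] : Cycle V)) ∨ ∃ v w : V, X = (↑[v, w] : Cycle V)) ∧
  (∀ v fl', fl = (↑[v] : Cycle V) ::ₘ fl' → ∃ W', W = v ::ₘ W' ∧ Floats fl' W') ∧
  (∀ v w fl', fl = (↑[v, w] : Cycle V) ::ₘ fl' → ∃ W', W = v ::ₘ w ::ₘ W' ∧ Floats fl' W') ∧
  (∀ u ∈ fl, ∀ v ∈ u, v ∈ W) ∧ (fl = 0 → W = 0)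

/-- SND: soundness of `LR`. -/
def T_SND : Prop := ∀ (V : Type) (o : Cycle ℕ) (I : Multiset ℕ) (L : LF), LR o I L → ∀ c : Ctx V,
  (∀ i w, (Tag.T i, w) ∈ L → Reg (w.map c.f) (c.WS i) (c.FS i)) →
  (∀ k w, (Tag.R k, w) ∈ L → Content (c.FL k) (c.WL k) (c.FI k)) →
  Reg (o.map c.f) (I.map c.f + vs c L) (real c L)

/-- LOC: the regions of a good state only touch the triangle and the inner vertices; the corners of the
triangle are pairwise adjacent. -/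
def T_LOC : Prop := ∀ (V : Type) (o : Cycle V) (W : Multiset V) (F : Multiset (Region V)), Reg o W F →
  Loc (fun x => x ∈ o) (fun x => x ∈ W) F ∧ ∃ a b c : V, o = (↑[a, b, c] : Cycle V)

/-- PTH: decorated paths give Hamiltonian paths. -/
def T_PTH : Prop := ∀ (V : Type) (c : Ctx V) (n : ℕ) (L : LF), CompOK n L → COK c n L →
  (∀ i w, (Tag.T i, w) ∈ L → ∀ a b, a ∈ w.map c.f → b ∈ w.map c.f → a ≠ b → HP (c.FS i) a b (c.WS i)) →
  ∀ A B, A < 3 → B < 3 → A ≠ B → PathAB n L A B →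
    HP (real c L) (c.f A) (c.f B) (((inner n).map c.f : Multiset V) + vs c L)

/-- SPL: answers to a chord of Spoiler in the rich face of an open picture. -/
def T_SPL : Prop := ∀ S ∈ openList, ∀ (p l q : List ℕ) (u v : ℕ), S.2.1 = p ++ u :: (l ++ v :: q) → u ≠ v →
  ¬ LAdj (toLF ((.R 0, S.2.1) :: S.2.2)) u v →
  Ans S.1 ((.R 1, (↑(u :: (l ++ [v])) : Cycle ℕ)) ::ₘ (.R 2, (↑(v :: ((q ++ p) ++ [u])) : Cycle ℕ)) ::ₘ toLF S.2.2)

/-- AT1: answers when Spoiler joins the rich face with an isolated point. -/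
def T_AT1 : Prop := ∀ S ∈ openList, ∀ (u : ℕ) (l : List ℕ), S.2.1 ~r (u :: l) →
  Ans (S.1 + 1) ((.R 0, (↑(joinWalk u l S.1 []) : Cycle ℕ)) ::ₘ toLF S.2.2)

/-- AT2: answers when Spoiler joins the rich face with a free edge. -/
def T_AT2 : Prop := ∀ S ∈ openList, ∀ (u : ℕ) (l : List ℕ), S.2.1 ~r (u :: l) →
  Ans (S.1 + 2) ((.R 0, (↑(joinWalk u l S.1 [S.1 + 1]) : Cycle ℕ)) ::ₘ toLF S.2.2)

/-- AT3: answers when Spoiler joins the rich face with the triangle of a content of the second kind. -/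
def T_AT3 : Prop := ∀ S ∈ openList, ∀ (u : ℕ) (l : List ℕ), S.2.1 ~r (u :: l) →
  Ans (S.1 + 3) ((.E, (↑(joinWalk u l S.1 [S.1 + 1, S.1 + 2]) : Cycle ℕ)) ::ₘ
    (.T 1, (↑[S.1 + 2, S.1 + 1, S.1] : Cycle ℕ)) ::ₘ toLF S.2.2)

/-- PAS: extra moves of Builder. -/
def T_PAS : Prop := (∀ S ∈ openList, S.2.1 ≠ [0, 1, 2] →
    ∃ L', LMove (toLF ((.R 0, S.2.1) :: S.2.2)) L' ∧ LR ↑[0, 1, 2] ↑(inner S.1) L') ∧
  LR ↑[0, 1, 2] ↑(inner 4) {(.R 0, (↑(joinWalk 0 [1, 2] 3 []) : Cycle ℕ))} ∧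
  LR ↑[0, 1, 2] ↑(inner 5) {(.R 0, (↑(joinWalk 0 [1, 2] 3 [4]) : Cycle ℕ))} ∧
  LR ↑[0, 1, 2] ↑(inner 6) {(.E, (↑(joinWalk 0 [1, 2] 3 [4, 5]) : Cycle ℕ)), (.T 1, (↑[5, 4, 3] : Cycle ℕ))}

/-- ONE: answers to Spoiler. -/
def T_STEP : Prop := ∀ (V : Type) (o : Cycle V) (W : Multiset V) (F : Multiset (Region V)),
  (o.toMultiset + W).Nodup → Reg o W F → ∀ F', LStep F F' → Reg o W F' ∨ ∃ F'', LStep F' F'' ∧ Reg o W F''

/-- EXT: extra moves. -/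
def T_EXT : Prop := ∀ (V : Type) (o : Cycle V) (W : Multiset V) (F : Multiset (Region V)),
  (o.toMultiset + W).Nodup → Reg o W F → Stuck F ∨ ∃ F', LStep F F' ∧ Reg o W F'

/-- FIN: Hamiltonian paths in final positions. -/
def T_FIN : Prop := ∀ (V : Type) (o : Cycle V) (W : Multiset V) (F : Multiset (Region V)),
  (o.toMultiset + W).Nodup → Reg o W F → Stuck F → ∀ a b, a ∈ o → b ∈ o → a ≠ b → HP F a b W

/-- The drawing consists of two good states on the two sides of a triangle. -/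
def Two {V : Type} [Fintype V] (F : Multiset (Region V)) : Prop :=
  ∃ (a b c : V) (W₁ W₂ : Multiset V) (F₁ F₂ : Multiset (Region V)), F = F₁ + F₂ ∧
    Reg ↑[a, b, c] W₁ F₁ ∧ Reg ↑[c, b, a] W₂ F₂ ∧ (a ::ₘ b ::ₘ c ::ₘ (W₁ + W₂)) = (Finset.univ : Finset V).val

/-- The edges of a drawing are the pairs of consecutive corners. -/
def EInv {V : Type} (D : Drawing V) : Prop := ∀ u v : V, u ≠ v → (s(u, v) ∈ D.edges ↔ Adj D.regions u v)

/-- GAM: the game from a two-sided good state. -/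
def T_GAM : Prop := ∀ (n : ℕ) (D : Drawing (Fin n)), 3 ≤ n → EInv D → Two D.regions → ∀ t : Player,
  Wins 1 1 .builder (fun D : Drawing (Fin n) => D.graph.IsHamiltonian) (t, 1) D

/-- INI: the opening. -/
def T_INI : Prop := T_GAM → T_ONE

end Pool.Agent.H44.DG
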