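import Pool.Agent.H44.DG.Targets

/-! Targets of the modules for the `1 : 2` drawing game (Spoiler wins). -/

namespace Pool.Agent.H44.DG

/-- Every region meets the complement of `S` in one colour class of `χ`. -/
def Hom {V : Type} (F : Multiset (Region V)) (S : Finset V) (χ : V → ℕ) : Prop :=
  ∀ Φ ∈ F, ∀ w ∈ Φ, ∀ w' ∈ Φ, ∀ x ∈ w, ∀ y ∈ w', x ∉ S → y ∉ S → χ x = χ y

/-- the colours used outside `S` -/
def colors {V : Type} [Fintype V] [DecidableEq V] (S : Finset V) (χ : V → ℕ) : Finset ℕ :=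
  (Finset.univ.filter fun v => v ∉ S).image χ

/-- An isolated point occurs only once. -/
def Iso {V : Type} (F : Multiset (Region V)) : Prop :=
  ∀ (Φ : Region V) (G : Multiset (Region V)) (v : V) (R : Region V),
    F = Φ ::ₘ G → Φ = (↑[v] : Cycle V) ::ₘ R → ¬ InR G v ∧ ¬ InR {R} v

/-- A rich region: one of its walks is a triangle in `S`, and at least `m` of its walks are isolated points. -/
def Rich {V : Type} (m : ℕ) (S : Finset V) (Φ : Region V) : Prop :=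
  ∃ (a b c : V) (P : Multiset V) (J : Region V), a ∈ S ∧ b ∈ S ∧ c ∈ S ∧ a ≠ b ∧ b ≠ c ∧ c ≠ a ∧
    Φ = (↑[a, b, c] : Cycle V) ::ₘ (P.map (fun v => (↑[v] : Cycle V)) + J) ∧ m ≤ P.card ∧ ∀ v ∈ P, v ∉ S

/-- The goal of Spoiler. -/
def NotHam {n : ℕ} (D : Drawing (Fin n)) : Prop := ¬ D.graph.IsHamiltonian

/-- one rich region, deficiency `d` -/
def Q1 {n : ℕ} (d m : ℕ) (D : Drawing (Fin n)) : Prop :=
  EInv D ∧ Iso D.regions ∧ ∃ (S : Finset (Fin n)) (χ : Fin n → ℕ) (Φ : Region (Fin n)) (G : Multiset (Region (Fin n))),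
    D.regions = Φ ::ₘ G ∧ Hom D.regions S χ ∧ S.card + 1 ≤ (colors S χ).card + d ∧ Rich m S Φ

/-- two rich regions, deficiency `d` -/
def Q2 {n : ℕ} (d m : ℕ) (D : Drawing (Fin n)) : Prop :=
  EInv D ∧ Iso D.regions ∧ ∃ (S : Finset (Fin n)) (χ : Fin n → ℕ) (Φ₁ Φ₂ : Region (Fin n))
    (G : Multiset (Region (Fin n))),
    D.regions = Φ₁ ::ₘ Φ₂ ::ₘ G ∧ Hom D.regions S χ ∧ S.card + 1 ≤ (colors S χ).card + d ∧
      Rich m S Φ₁ ∧ Rich m S Φ₂

/-- TA: more colours than vertices in `S`: not Hamiltonian. -/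
def T_TA : Prop := ∀ (n : ℕ) (D : Drawing (Fin n)) (S : Finset (Fin n)) (χ : Fin n → ℕ), 3 ≤ n → EInv D →
  Hom D.regions S χ → S.card + 1 ≤ (colors S χ).card → 1 ≤ S.card → NotHam D

/-- TB: invariants. -/
def T_TB : Prop := ∀ (n : ℕ) (D D' : Drawing (Fin n)), EInv D → Draw D D' →
  EInv D' ∧ (Iso D.regions → Iso D'.regions) ∧
  ∀ (S : Finset (Fin n)) (χ : Fin n → ℕ), Hom D.regions S χ → Hom D'.regions S χ

/-- TF: with deficiency 0 Spoiler wins however the game goes on. -/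
def T_TF : Prop := ∀ (n m : ℕ) (D : Drawing (Fin n)), 3 ≤ n → Q2 0 m D → ∀ t : Player, ∀ k : ℕ,
  Wins 1 2 .spoiler NotHam (t, k + 1) D

/-- TC: from two rich regions Spoiler gains one. -/
def T_TC : Prop := ∀ (n d m : ℕ), 3 ≤ n →
  (∀ D : Drawing (Fin n), Q2 d m D → Wins 1 2 .spoiler NotHam (.spoiler, 2) D) →
  ∀ D : Drawing (Fin n), Q2 (d + 1) (3 * m + 20) D → Wins 1 2 .spoiler NotHam (.spoiler, 2) D

/-- TD: from one rich region to two rich regions. -/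
def T_TD : Prop := ∀ (n d m : ℕ), 3 ≤ n →
  (∀ D : Drawing (Fin n), Q2 d m D → Wins 1 2 .spoiler NotHam (.spoiler, 2) D) →
  ∀ D : Drawing (Fin n), Q1 d (6 * m + 40) D → Wins 1 2 .spoiler NotHam (.spoiler, 2) D

/-- TE: the opening of the `1 : 2` game. -/
def T_TE : Prop := ∀ (m : ℕ), ∃ N : ℕ, ∀ n, N ≤ n →
  (∀ D : Drawing (Fin n), Q1 3 m D → Wins 1 2 .spoiler NotHam (.spoiler, 2) D) → ∀ t : Player, SpoilerWins 1 2 n t

end Pool.Agent.H44.DG
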