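import Pool.Agent.H44.DG.Targets

/-! Targets of the modules for the opening of the `1 : 1` drawing game. -/

namespace Pool.Agent.H44.DG

/-- labelled pictures consisting of two good pictures on the two sides of a triangle -/
def TwoL (N : ℕ) (L : LF) : Prop :=
  ∃ (a b d : ℕ) (I₁ I₂ : Multiset ℕ) (L₁ L₂ : LF), L = L₁ + L₂ ∧ LR ↑[a, b, d] I₁ L₁ ∧ LR ↑[d, b, a] I₂ L₂ ∧
    (a ::ₘ b ::ₘ d ::ₘ (I₁ + I₂)) = (↑(List.range N) : Multiset ℕ)

/-- two-sided good, or there is a reply that makes it so -/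
def Ans2 (N : ℕ) (L : LF) : Prop := TwoL N L ∨ ∃ L', LMove L L' ∧ TwoL N L'

/-- Every move of Spoiler in a region with the single big walk `r` (labels `0, ..., N - 1`) and floating isolated
points has a good answer. -/
def Pre (N : ℕ) (r : List ℕ) : Prop :=
  (∀ (p l q : List ℕ) (u v : ℕ), r = p ++ u :: (l ++ v :: q) → u ≠ v → ¬ LAdj (toLF [(.R 0, r)]) u v →
    Ans2 N ((.R 1, (↑(u :: (l ++ [v])) : Cycle ℕ)) ::ₘ {(.R 2, (↑(v :: ((q ++ p) ++ [u])) : Cycle ℕ))})) ∧
  (∀ (u : ℕ) (l : List ℕ), r ~r (u :: l) → Ans2 (N + 1) {(.R 0, (↑(joinWalk u l N []) : Cycle ℕ))}) ∧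
  (∃ L', LMove (toLF [(.R 0, r)]) L' ∧ TwoL N L')

/-- OPA: the path with three vertices and the path with four vertices. -/
def T_OPA : Prop := Pre 3 [0, 1, 2, 1] ∧ Pre 4 [0, 1, 2, 3, 2, 1]

/-- The drawing consists of one region with the big walk `r` and floating isolated points. -/
def OneW {V : Type} [Fintype V] (N : ℕ) (r : List ℕ) (F : Multiset (Region V)) : Prop :=
  ∃ (f : ℕ → V) (S : Multiset V),
    F = {(↑(r.map f) : Cycle V) ::ₘ S.map (fun v => (↑[v] : Cycle V))} ∧
    ((List.range N).map f : Multiset V) + S = (Finset.univ : Finset V).val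

/-- The conclusion of `Pre` for drawings: the region has a legal move (even one that leads to a two-sided good
state), and after every move the drawing is two-sided good or has a legal move to such a drawing. -/
def Answered {n : ℕ} (D : Drawing (Fin n)) : Prop :=
  (∃ D', Draw D D' ∧ EInv D' ∧ Two D'.regions) ∧
  ∀ D', Draw D D' → EInv D' ∧ (Two D'.regions ∨ ∃ D'', Draw D' D'' ∧ EInv D'' ∧ Two D''.regions)

/-- OPB: realisation of `Pre`. -/
def T_OPB : Prop := ∀ (n N : ℕ) (r : List ℕ), (∀ i ∈ r, i < N) → Pre N r →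
  ∀ D : Drawing (Fin n), EInv D → OneW N r D.regions → Answered D

/-- OPC: the first moves. -/
def T_OPC : Prop := T_GAM →
  (∀ (n : ℕ) (D : Drawing (Fin n)), EInv D →
    (OneW 3 [0, 1, 2, 1] D.regions ∨ OneW 4 [0, 1, 2, 3, 2, 1] D.regions) → Answered D) → T_ONE

end Pool.Agent.H44.DG
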