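import Pool.Agent.H44.DG.Targets

/-! Targets for the soundness of the model: every play on `n ≥ 3` points ends with `3 n - 6` edges. -/

namespace Pool.Agent.H44.DG

/-- a drawing that occurs in a play on `n` points -/
def Reach (n : ℕ) (D : Drawing (Fin n)) : Prop := Relation.ReflTransGen Draw (start n) D

/-- Play stops when no legal edge exists. -/
def Final {n : ℕ} (D : Drawing (Fin n)) : Prop := ∀ D', ¬ Draw D D'

/-- darts (directed edges) of a boundary walk -/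
def dts {V : Type} : Cycle V → Multiset (V × V) :=
  Quotient.lift (fun l : List V => (↑(cprs l) : Multiset (V × V)))
    (fun _ _ h => Multiset.coe_eq_coe.2 (cprs_perm_of_isRotated h))

/-- darts of a region -/
def rdts {V : Type} (Φ : Region V) : Multiset (V × V) := Φ.bind dts

/-- all darts -/
def alld {V : Type} (F : Multiset (Region V)) : Multiset (V × V) := F.bind rdts

/-- SB: cutting the incidence between a region and one of its boundary walks splits the drawing. -/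
def T_SB : Prop := ∀ (n : ℕ) (D : Drawing (Fin n)), Reach n D →
  ∀ (Φ : Region (Fin n)) (G : Multiset (Region (Fin n))) (w : Cycle (Fin n)) (R : Region (Fin n)),
    D.regions = Φ ::ₘ G → Φ = w ::ₘ R → ∃ g : Fin n → Bool,
      (∀ Φ' ∈ G, ∀ w₁ ∈ Φ', ∀ w₂ ∈ Φ', ∀ x ∈ w₁, ∀ y ∈ w₂, g x = g y) ∧
      (∀ x ∈ w, g x = true) ∧ (∀ w' ∈ R, ∀ x ∈ w', g x = false)

/-- SC: simple invariants. -/
def T_SC : Prop := ∀ (n : ℕ) (D : Drawing (Fin n)), Reach n D →
  EInv D ∧ (∀ Φ ∈ D.regions, ∀ w ∈ Φ, w ≠ Cycle.nil) ∧ (n ≠ 0 → ∀ Φ ∈ D.regions, Φ ≠ 0) ∧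
  (alld D.regions).Nodup ∧ (∀ x, (x, x) ∉ alld D.regions) ∧ D.edges.Finite ∧
  2 * D.edges.ncard = Multiset.card (alld D.regions) ∧
  D.edges.ncard + 2 + (D.regions.map Multiset.card).sum = 2 * Multiset.card D.regions + n ∧
  (∀ g : Fin n → Bool,
    (∀ Φ ∈ D.regions, ∀ w₁ ∈ Φ, ∀ w₂ ∈ Φ, ∀ x ∈ w₁, ∀ y ∈ w₂, g x = g y) → ∀ x y, g x = g y) ∧
  (∀ (Φ : Region (Fin n)) (G : Multiset (Region (Fin n))) (v : Fin n) (R : Region (Fin n)),
    D.regions = Φ ::ₘ G → Φ = (↑[v] : Cycle (Fin n)) ::ₘ R → ¬ InR G v ∧ ¬ InR {R} v)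

/-- `x, a, y` are three consecutive corners of the walk `w` -/
def IsCorner {V : Type} (w : Cycle V) (x a y : V) : Prop :=
  (∃ l : List V, w = ↑(x :: a :: y :: l)) ∨ (y = x ∧ w = ↑[x, a])

/-- SD: the edges at a vertex are linked through the corners at this vertex. -/
def T_SD : Prop := ∀ (n : ℕ) (D : Drawing (Fin n)), Reach n D → ∀ (a : Fin n) (s : Fin n → Fin n → ZMod 2),
  (∀ x, Adj D.regions x a → s x a = s a x) →
  (∀ Φ ∈ D.regions, ∀ w ∈ Φ, ∀ x y, IsCorner w x a y → s x a = s a y) →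
  ∀ x y, Adj D.regions a x → Adj D.regions a y → s a x = s a y

/-- SE: every cycle of the graph bounds, modulo 2, a set of regions. -/
def T_SE : Prop := ∀ (n : ℕ) (D : Drawing (Fin n)), Reach n D → ∀ x : Fin n → Fin n → ZMod 2,
  (∀ p q, x p q = x q p) → (∀ p q, ¬ Adj D.regions p q → x p q = 0) → (∀ p, ∑ q, x p q = 0) →
  ∃ s : Fin n → Fin n → ZMod 2,
    (∀ Φ ∈ D.regions, ∀ e ∈ rdts Φ, ∀ e' ∈ rdts Φ, s e.1 e.2 = s e'.1 e'.2) ∧
    ∀ p q, Adj D.regions p q → x p q = s p q + s q p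

/-- SF: in a final drawing every boundary walk has length at most three. -/
def T_SF : Prop := ∀ (n : ℕ) (D : Drawing (Fin n)), Reach n D → Final D →
  ∀ Φ ∈ D.regions, ∀ w ∈ Φ, w.length ≤ 3

/-- SG: every play ends with a triangulation. -/
def T_SG : Prop := ∀ (n : ℕ) (D : Drawing (Fin n)), 3 ≤ n → Reach n D → Final D →
  D.edges.ncard = 3 * n - 6 ∧
    ∀ Φ ∈ D.regions, ∃ a b c : Fin n, a ≠ b ∧ b ≠ c ∧ c ≠ a ∧ Φ = {(↑[a, b, c] : Cycle (Fin n))}

end Pool.Agent.H44.DG
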